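import Mathlib

/-!
Project SQ (MP_bb32d1_al), section 12 (characters), combinatorial part: definitions and goals.

`β : (Fin n → ℤ) → ℤ` is a function on `ℤ^n`; `ty l x c` is the number of the coordinates of `x`
which are `≡ c` modulo `l`; `Fc`, `Ec` are the operators `F_c`, `E_c`.  Complete proofs in the
doc-strings.
-/

set_option autoImplicit false

namespace Pool.Agent.Helper34.SQ

noncomputable section

open Finset

/-- the type of `x`. -/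
def ty {n : ℕ} (l : ℕ) (x : Fin n → ℤ) : ZMod l → ℤ := fun c => #{p | ((x p : ℤ) : ZMod l) = c}

/-- `(F_c β)(x) = ∑_{p : x_p = c + 1} β(x - ε_p)`. -/
def Fc {n : ℕ} (l : ℕ) (c : ZMod l) (β : (Fin n → ℤ) → ℤ) : (Fin n → ℤ) → ℤ := fun x =>
  ∑ p with ((x p : ℤ) : ZMod l) = c + 1, β (x - Pi.single p 1)

/-- `(E_c β)(x) = ∑_{p : x_p = c} β(x + ε_p)`. -/
def Ec {n : ℕ} (l : ℕ) (c : ZMod l) (β : (Fin n → ℤ) → ℤ) : (Fin n → ℤ) → ℤ := fun x =>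
  ∑ p with ((x p : ℤ) : ZMod l) = c, β (x + Pi.single p 1)

/-- the indicator function of `T`. -/
def ind {n : ℕ} (T : Finset (Fin n)) : Fin n → ℤ := fun p => if p ∈ T then 1 else 0

/-- `s_c` on one coordinate: `c ↦ + 1`, `c + 1 ↦ - 1`. -/
def scc (l : ℕ) (c : ZMod l) (y : ℤ) : ℤ :=
  if (y : ZMod l) = c then y + 1 else if (y : ZMod l) = c + 1 then y - 1 else y

/-- `r_0 = id`, `r_{t+1} = r_t ∘ s_{c+t}`. -/
def rtc (l : ℕ) (c : ZMod l) : ℕ → ℤ → ℤ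
  | 0, y => y
  | t + 1, y => rtc l c t (scc l (c + (t : ZMod l)) y)

/-- **FIT** (iterates of `F_c`).

PROOF. Induction on `h`.  `F_c^(h+1) β (x) = ∑_{p ∈ Q} (F_c^h β)(x - ε_p)`, `Q = {p : x_p ≡ c+1}`
(`Function.iterate_succ_apply'`).  The set `Q` of `x - ε_p` is `Q \ {p}`, because
`x_p - 1 ≡ c ≠ c + 1` (`l ≥ 2`).  So it is
`h! ∑_{p ∈ Q} ∑_{T' ⊆ Q \ {p}, |T'| = h} β(x - 1_(T' ∪ {p}))` and every `T` with `|T| = h + 1` arises
`h + 1` times (`Finset.sum_sigma'` and a bijection, or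
`Finset.sum_powersetCard...`; e.g. sum over the pairs `(p, T)` with `p ∈ T`). -/
def S_FIT : Prop :=
  ∀ (n l : ℕ), 2 ≤ l → ∀ (c : ZMod l) (β : (Fin n → ℤ) → ℤ) (h : ℕ) (x : Fin n → ℤ),
    ((Fc l c)^[h] β) x =
      h.factorial * ∑ T ∈ powersetCard h {p | ((x p : ℤ) : ZMod l) = c + 1}, β (x - ind T)

/-- **SWB** (the identity for the sums over pairs of subsets).  `P = {p : x_p ≡ c}`,
`Q = {p : x_p ≡ c + 1}`, `|P| = a`, `|Q| = a + h`.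

PROOF. `B_k = ∑_{S ⊆ Q, |S| = h+k} ∑_{T ⊆ P, |T| = k} β(x - 1_S + 1_T)`.  For `S ⊆ Q`, `|S| = h+k+1`,
`T ⊆ P`, `|T| = k`, and `y = x - 1_S + 1_T` the coordinates `p` with `y_p ≡ c` are the `p ∈ S` and
the `p ∈ P \ T` (`l ≥ 2`; note that for `l = 2` the `p ∈ T` have `y_p ≡ c + 1 ≠ c` and the
`p ∈ Q \ S` have `y_p ≡ c + 1`; for the `p` outside `P ∪ Q` nothing changes).  So `E_c β (y) = 0` gives
`∑_{p ∈ S} β(x - 1_(S \ p) + 1_T) + ∑_{p ∈ P \ T} β(x - 1_S + 1_(T ∪ p)) = 0`.  Sum over all `S, T`: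
every pair `(S', T)` with `|S'| = h + k` arises for the `p ∈ Q \ S'`, i.e. `(a + h) - (h + k) = a - k`
times, every pair `(S, T')` with `|T'| = k + 1` arises `k + 1` times: `(a - k) B_k + (k+1) B_(k+1) = 0`
(for `k < a`).  By induction `B_k = (-1)^k binom(a, k) B_0` in `ℤ` (cancel `k + 1`;
`Nat.succ_mul_choose_eq` or `Nat.choose_succ_right_eq`: `binom(a,k+1) (k+1) = binom(a,k) (a-k)`).  For
`k = a`: `S = Q`, `T = P` are the only subsets, so `β(x - 1_Q + 1_P) = (-1)^a B_0`. -/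
def S_SWB : Prop :=
  ∀ (n l : ℕ), 2 ≤ l → ∀ (c : ZMod l) (β : (Fin n → ℤ) → ℤ), Ec l c β = 0 →
  ∀ (x : Fin n → ℤ) (a h : ℕ), #{p | ((x p : ℤ) : ZMod l) = c} = a →
    #{p | ((x p : ℤ) : ZMod l) = c + 1} = a + h →
    ∑ S ∈ powersetCard h {p | ((x p : ℤ) : ZMod l) = c + 1}, β (x - ind S) =
      (-1) ^ a * β (x - ind {p | ((x p : ℤ) : ZMod l) = c + 1} +
        ind {p | ((x p : ℤ) : ZMod l) = c})

/-- **SWAP**.

PROOF (from FIT, SWB).  Let `P, Q` be as in SWB, `y = s_c x = x + 1_P - 1_Q`.  If `|P| = m(c+1)` and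
`|Q| = m(c)` (so `|Q| = |P| + h`), use FIT and SWB.  Otherwise both sides are `0`:
`β(y) ≠ 0` implies `ty y = m`, and `y` has `|Q|` coordinates `≡ c`, `|P|` coordinates `≡ c + 1`;
and if `β(x - 1_T) ≠ 0` for a `T ⊆ Q`, `|T| = h`, then `ty (x - 1_T) = m` has at `c` the value
`|P| + h`, at `c + 1` the value `|Q| - h`, so `|P| = m(c) - h = m(c+1)`, `|Q| = m(c+1) + h = m(c)`. -/
def S_SWAP : Prop :=
  ∀ (n l : ℕ), 2 ≤ l → ∀ (c : ZMod l) (m : ZMod l → ℤ) (β : (Fin n → ℤ) → ℤ),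
    (∀ x, β x ≠ 0 → ty l x = m) → Ec l c β = 0 → ∀ h : ℕ, (h : ℤ) = m c - m (c + 1) →
    ∀ x, ((Fc l c)^[h] β) x =
      (h.factorial * (-1) ^ (m (c + 1)).toNat : ℤ) * β (fun p => scc l c (x p))

/-- **RM2** (the maps `r_t`).

PROOF.  `s_c` is an involution (`y ≡ c ↦ y + 1 ≡ c + 1 ↦ y`), so `r_t` is bijective.  Closed formula,
by induction on `t`: `r_t(y) = y - t` if `y ≡ c + t`, and `r_t(y) = y + (t + i - 1)/(l - 1)` (division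
of natural numbers) if `y ≡ c + t + i`, `1 ≤ i ≤ l - 1`.  `t = 0` clear.  `t → t + 1`: `y ≡ c + t + 1`:
`s(y) = y - 1 ≡ c + t`, `r_t = y - 1 - t`.  `y ≡ c + t + 1 + i`, `i = l - 1`, so `y ≡ c + t`:
`s(y) = y + 1 ≡ c + t + 1`, `r_t(y + 1) = y + 1 + t/(l-1) = y + (t + l - 1)/(l - 1)`.
`1 ≤ i ≤ l - 2`: `y ≡ c + t + (i+1)`, `s(y) = y`, `r_t(y) = y + (t + i)/(l-1)`.  The second claim is
`i = 1`.  Third claim: `⇐` because `y - t ≡ c`; `⇒`: if `r_t(y) ≡ c` then `z = r_t(y) + t ≡ c + t` has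
`r_t(z) = z - t = r_t(y)`, so `z = y`. -/
def S_RM2 : Prop :=
  ∀ (l : ℕ), 2 ≤ l → ∀ (c : ZMod l) (t : ℕ), Function.Bijective (rtc l c t) ∧
    (∀ y : ℤ, (y : ZMod l) = c + (t : ZMod l) →
      rtc l c t y = y - t ∧ rtc l c t (y + 1) = y + 1 + ((t / (l - 1) : ℕ) : ℤ)) ∧
    ∀ y : ℤ, ((rtc l c t y : ℤ) : ZMod l) = c ↔ (y : ZMod l) = c + (t : ZMod l)

/-- **JT**.

PROOF. `j = a l + b`, `1 ≤ b ≤ l - 1`; `t = a (l - 1) + (b - 1)`, `t/(l-1) = a`. -/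
def S_JT : Prop :=
  ∀ (l : ℕ), 2 ≤ l → ∀ j : ℕ, ¬ l ∣ j → ∃ t : ℕ, t + 1 + t / (l - 1) = j

/-- **CH**.

PROOF (from SWAP, RM2, JT). (1) By induction on `t` there is an integer `C_t ≠ 0` with
`β_t(x) = C_t β_0(r_t ∘ x)` for all `x` (SWAP for `β_t`, `c + t`; `rtc` at `t + 1` is
`rtc t ∘ scc (c + t)`).  (2) So `E_(c+t) β_t = 0` says: `∑_{p : x_p ≡ c+t} β_0(r_t ∘ (x + ε_p)) = 0` for
all `x`.  Given `y` choose `x` with `r_t ∘ x = y` (bijective).  Then `x_p ≡ c + t` iff `y_p ≡ c`, and for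
such `p`, `r_t(x_p + 1) = x_p + 1 + t/(l-1) = y_p + (t + 1 + t/(l-1))`.  With JT:
`∑_{p : y_p ≡ c} β_0(y + j ε_p) = 0` for all `y` and all `j ∈ ℕ` not divisible by `l`.  (3) Suppose
`β_0(x) ≠ 0` and `x_(p₀) ≢ c`.  Choose `j ≡ x_(p₀) - c` modulo `l` (so `l ∤ j`), larger than all
`|x'_p - x_p|` for `x'` in the support of `β_0` (finite).  Put `y = x - j ε_(p₀)`.  Then `y_(p₀) ≡ c`
and the term of `p₀` in (2) is `β_0(x)`; the terms of `p ≠ p₀` are `β_0(x - j ε_(p₀) + j ε_p) = 0`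
because the coordinate `p₀` differs from `x_(p₀)` by `j`.  So `β_0(x) = 0`, a contradiction. -/
def S_CH : Prop :=
  ∀ (n l : ℕ), 2 ≤ l → ∀ (c : ZMod l) (β : ℕ → (Fin n → ℤ) → ℤ) (m : ℕ → ZMod l → ℤ)
    (h : ℕ → ℕ), (Function.support (β 0)).Finite →
    (∀ t x, β t x ≠ 0 → ty l x = m t) →
    (∀ t : ℕ, (h t : ℤ) = m t (c + (t : ZMod l)) - m t (c + (t : ZMod l) + 1)) →
    (∀ t : ℕ, β (t + 1) = (Fc l (c + (t : ZMod l)))^[h t] (β t)) →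
    (∀ t : ℕ, Ec l (c + (t : ZMod l)) (β t) = 0) →
    ∀ x, β 0 x ≠ 0 → ∀ p, ((x p : ℤ) : ZMod l) = c

end

end Pool.Agent.Helper34.SQ
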