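import Pool.Agent.Helper34.SQ.Basic

/-!
Project SQ (MP_bb32d1_al), section 11 (abstract part): definitions and goals.

Every goal is a `def S_XX : Prop` with its complete proof in the doc-string.  Basic lemmas
(`Phi`, `bd`, `act`, `pev_X1`, `pev_X2`, `D1_mul`, `trace_comm_of_tr`, ...) are proved in
`Pool/Agent/Helper34/SQ/Basic.lean`.  The structure `Core` is in
`Pool/Agent/Helper19/SQ/Core.lean`.  `X1'` denotes `S X1 T`.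
-/

set_option autoImplicit false
set_option linter.unusedSectionVars false

namespace Pool.Agent.Helper34.SQ

noncomputable section

open Matrix Pool.Agent.Helper19.SQ

section defs

variable {A : Type} [Ring A] [Algebra ℂ A] {ι : Type} [Fintype ι] [DecidableEq ι] {l : ℕ}
  (C : Core A ι l)

/-- `Tr_zeta(m)`. -/
structure IsTrz (ζ : ℂ) (m : ZMod l → ℤ) (τ : A →ₗ[ℂ] ℂ) : Prop where
  tr : ∀ x y, τ (x * y) = τ (y * x)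
  eq : ∀ x, τ (C.φ x) = ζ * τ x
  blk : ∀ x, τ (x * C.e m) = τ x

/-- `Tr_zeta(m) = 0`. -/
def TrZero (ζ : ℂ) (m : ZMod l → ℤ) : Prop := ∀ τ : A →ₗ[ℂ] ℂ, IsTrz C ζ m τ → τ = 0

/-- `EF_zeta(c, m)`: functionals on `V* (x) V (x) A`, index `(j, i)` = `phi_j (x) v_i`. -/
structure IsEF (ζ : ℂ) (c : ZMod l) (m : ZMod l → ℤ) (σ : ι × ι → (A →ₗ[ℂ] ℂ)) : Prop where
  t1 : ∀ a b y, act σ (D1 C.δ C.ε a) y b = σ y (b * a)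
  t2 : ∀ b y, ((C.θ y.1 : ℂ)⁻¹ * (C.θ y.2 : ℂ)) * σ y (C.φ b) = ζ * σ y b
  t3 : ∀ b y, σ y (b * C.e m) = σ y b
  t4 : act σ (X1 (C.δ (C.e (m - al c)))) = σ

/-- `FE_zeta(c, m)`: functionals on `V (x) V* (x) A`, index `(p, j)` = `v_p (x) phi_j`. -/
structure IsFE (ζ : ℂ) (c : ZMod l) (m : ZMod l → ℤ) (σ : ι × ι → (A →ₗ[ℂ] ℂ)) : Prop where
  t1 : ∀ a b y, act σ (D2 C.δ C.ε a) y b = σ y (b * a)
  t2 : ∀ b y, ((C.θ y.1 : ℂ) * (C.θ y.2 : ℂ)⁻¹) * σ y (C.φ b) = ζ * σ y b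
  t3 : ∀ b y, σ y (b * C.e m) = σ y b
  t4 : act σ (X1 (C.ε (C.e (m + al c)))) = σ

def EFZero (ζ : ℂ) (c : ZMod l) (m : ZMod l → ℤ) : Prop := ∀ σ, IsEF C ζ c m σ → σ = 0

def FEZero (ζ : ℂ) (c : ZMod l) (m : ZMod l → ℤ) : Prop := ∀ σ, IsFE C ζ c m σ → σ = 0

/-- `F_c tau`, for `tau` in the block `m`; it is in the block `m - alpha_c`. -/
def Ft (c : ZMod l) (m : ZMod l → ℤ) (τ : A →ₗ[ℂ] ℂ) : A →ₗ[ℂ] ℂ :=
  τ ∘ₗ Matrix.traceLinearMap ι ℂ A ∘ₗ C.δ.toLinearMap ∘ₗ LinearMap.mulRight ℂ (C.e (m - al c))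

/-- `E_c tau`, for `tau` in the block `m`; it is in the block `m + alpha_c`. -/
def Et (c : ZMod l) (m : ZMod l → ℤ) (τ : A →ₗ[ℂ] ℂ) : A →ₗ[ℂ] ℂ :=
  τ ∘ₗ Matrix.traceLinearMap ι ℂ A ∘ₗ C.ε.toLinearMap ∘ₗ LinearMap.mulRight ℂ (C.e (m + al c))

theorem Ft_apply (c : ZMod l) (m : ZMod l → ℤ) (τ : A →ₗ[ℂ] ℂ) (x : A) :
    Ft C c m τ x = τ (Matrix.trace (C.δ (x * C.e (m - al c)))) := rfl

theorem Et_apply (c : ZMod l) (m : ZMod l → ℤ) (τ : A →ₗ[ℂ] ℂ) (x : A) :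
    Et C c m τ x = τ (Matrix.trace (C.ε (x * C.e (m + al c)))) := rfl

/-- `F_c^h tau`, `tau` in the block `m`. -/
def Ftn (c : ZMod l) (m : ZMod l → ℤ) : ℕ → (A →ₗ[ℂ] ℂ) → (A →ₗ[ℂ] ℂ)
  | 0, τ => τ
  | h + 1, τ => Ft C c (m - (h : ℤ) • al c) (Ftn c m h τ)

/-- `E_c^h tau`, `tau` in the block `m`. -/
def Etn (c : ZMod l) (m : ZMod l → ℤ) : ℕ → (A →ₗ[ℂ] ℂ) → (A →ₗ[ℂ] ℂ)
  | 0, τ => τ
  | h + 1, τ => Et C c (m + (h : ℤ) • al c) (Etn c m h τ)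

/-- `I` is a two-sided ideal. -/
def TwoS (I : Submodule ℂ A) : Prop := ∀ a, ∀ x ∈ I, a * x ∈ I ∧ x * a ∈ I

/-- `I_tau = {x : tau (x A) = 0}`. -/
def It (τ : A →ₗ[ℂ] ℂ) : Submodule ℂ A where
  carrier := {x | ∀ y, τ (x * y) = 0}
  add_mem' := by
    intro a b ha hb y
    rw [add_mul, map_add, ha y, hb y, add_zero]
  zero_mem' := by intro y; rw [zero_mul, map_zero]
  smul_mem' := by
    intro c x hx y
    rw [smul_mul_assoc, map_smul, hx y, smul_zero]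

theorem mem_It (τ : A →ₗ[ℂ] ℂ) (x : A) : x ∈ It τ ↔ ∀ y, τ (x * y) = 0 := Iff.rfl

/-- `F_{c,m} I = {a : delta(a e_{m - alpha_c}) in M_n(I)}`. -/
def Fi (c : ZMod l) (m : ZMod l → ℤ) (I : Submodule ℂ A) : Submodule ℂ A where
  carrier := {a | ∀ i j, C.δ (a * C.e (m - al c)) i j ∈ I}
  add_mem' := by
    intro a b ha hb i j
    rw [add_mul, map_add, Matrix.add_apply]
    exact I.add_mem (ha i j) (hb i j)
  zero_mem' := by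
    intro i j
    rw [zero_mul, map_zero, Matrix.zero_apply]
    exact I.zero_mem
  smul_mem' := by
    intro c x hx i j
    rw [smul_mul_assoc, map_smul, Matrix.smul_apply]
    exact I.smul_mem c (hx i j)

theorem mem_Fi (c : ZMod l) (m : ZMod l → ℤ) (I : Submodule ℂ A) (a : A) :
    a ∈ Fi C c m I ↔ ∀ i j, C.δ (a * C.e (m - al c)) i j ∈ I := Iff.rfl

/-- `E_{c,m} I = {a : eps(a e_{m + alpha_c}) in M_n(I)}`. -/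
def Ei (c : ZMod l) (m : ZMod l → ℤ) (I : Submodule ℂ A) : Submodule ℂ A where
  carrier := {a | ∀ i j, C.ε (a * C.e (m + al c)) i j ∈ I}
  add_mem' := by
    intro a b ha hb i j
    rw [add_mul, map_add, Matrix.add_apply]
    exact I.add_mem (ha i j) (hb i j)
  zero_mem' := by
    intro i j
    rw [zero_mul, map_zero, Matrix.zero_apply]
    exact I.zero_mem
  smul_mem' := by
    intro c x hx i j
    rw [smul_mul_assoc, map_smul, Matrix.smul_apply]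
    exact I.smul_mem c (hx i j)

theorem mem_Ei (c : ZMod l) (m : ZMod l → ℤ) (I : Submodule ℂ A) (a : A) :
    a ∈ Ei C c m I ↔ ∀ i j, C.ε (a * C.e (m + al c)) i j ∈ I := Iff.rfl

/-- `F_c^h I`, `I` in the block `m`. -/
def Fin' (c : ZMod l) (m : ZMod l → ℤ) : ℕ → Submodule ℂ A → Submodule ℂ A
  | 0, I => I
  | h + 1, I => Fi C c (m - (h : ℤ) • al c) (Fin' c m h I)

/-- `E_c^h I`, `I` in the block `m`. -/
def Ein' (c : ZMod l) (m : ZMod l → ℤ) : ℕ → Submodule ℂ A → Submodule ℂ A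
  | 0, I => I
  | h + 1, I => Ei C c (m + (h : ℤ) • al c) (Ein' c m h I)

end defs

/-! ### Functionals on `V* (x) V (x) A` and `V (x) V* (x) A` -/

/-- **CORE1** (consequences of the fields of `Core`; small facts used below).

PROOF. `X1 X` commutes with `D1 a`: `D1 a = Phi δ (ε a)`, entries `δ(ε(a)_ji)_pk`, and `X` commutes with
every `δ b`: both products have the entry `(X δ(ε(a)_ji))_pk = (δ(ε(a)_ji) X)_pk` (expand, or write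
`X1 X` as `bd X`).  `X2` commutes with `D2 a`: apply `Phi ε` to `Xδ`.  `T D2(a) = D1(a) T`: multiply
`inter` by `sc T` on both sides (`sc_mul`, `ST`, `TS`, `sc_one`).  `X1' = S X1 T` commutes with
`D2 a` (from the first and `inter`).  `pev p (S X1 T) = S (pev p X1) T` (induction on the powers:
`(S X1 T)^k = S X1^k T`).  The last three: apply `φ` to the entries; `φ(X2_xy)`, with `x = (p,j)`,
`y = (k,i)`, is `φ(ε(X_pk)_ji) = θ_j θ_i⁻¹ ε(φ X_pk)_ji` (`φε`) and `φ X_pk = θ_p⁻¹ θ_k X_pk`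
(`φX`). Powers and the vectors `X2^i u`, `v X1'^j`: induction. -/
def S_CORE1 : Prop :=
  ∀ (A : Type) [Ring A] [Algebra ℂ A] (ι : Type) [Fintype ι] [DecidableEq ι] (l : ℕ)
    (C : Core A ι l),
    (∀ a, X1 C.X * D1 C.δ C.ε a = D1 C.δ C.ε a * X1 C.X) ∧
    (∀ a, X2 C.ε C.X * D2 C.δ C.ε a = D2 C.δ C.ε a * X2 C.ε C.X) ∧
    (∀ a, sc A C.T * D2 C.δ C.ε a = D1 C.δ C.ε a * sc A C.T) ∧
    (∀ a, (sc A C.S * X1 C.X * sc A C.T) * D2 C.δ C.ε a =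
      D2 C.δ C.ε a * (sc A C.S * X1 C.X * sc A C.T)) ∧
    (∀ p, pev p (sc A C.S * X1 C.X * sc A C.T) = sc A C.S * pev p (X1 C.X) * sc A C.T) ∧
    (∀ k x, C.φ ((X2 C.ε C.X ^ k *ᵥ C.u) x) =
      ((C.θ x.1 : ℂ)⁻¹ * (C.θ x.2 : ℂ)) • (X2 C.ε C.X ^ k *ᵥ C.u) x)

/-- **BLX** (the polynomial `p_c` at `X2` projects to the summand `E_c` in the middle).

PROOF. Apply the algebra map `Phi ε` to `BL1 c m'`, for all `m' ∈ types`: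
`p_c(X2) Φ(diag e_m') = D2(e_(m'-α)) Φ(diag e_m')` (`pev_X2`, `D2_eq`), where
`Φ(diag a) = X1 (ε a)` (`X1_delta`).  `∑_(m' ∈ types) Φ(diag e_m') = 1` (`e_sum`).  `Φ(diag e_m')`
commutes with `D2 a` (`diag_comm`, apply `Phi ε`), `diagonal e_m` commutes with everything.  So
`p_c(X2) D2(e_m) = ∑_m' D2(e_(m'-α)) D2(e_m) Φ(diag e_m')`, and `D2(e_(m'-α)) D2(e_m) =
D2(e_(m'-α) e_m)` is `0` unless `m' - α = m`, i.e. `m' = m + α` (`e_orth`), when it is `D2(e_m)`.  If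
`m + α` is not in `types` then `e (m + α) = 0` and both sides are `0`. (The factor `diagonal e_m`
is not even needed.) -/
def S_BLX : Prop :=
  ∀ (A : Type) [Ring A] [Algebra ℂ A] (ι : Type) [Fintype ι] [DecidableEq ι] (l : ℕ)
    (C : Core A ι l) (c : ZMod l) (m : ZMod l → ℤ),
    pev (C.pc c) (X2 C.ε C.X) * D2 C.δ C.ε (C.e m) =
      D2 C.δ C.ε (C.e m) * X1 (C.ε (C.e (m + al c)))

/-- **SW** (rotation).

PROOF. Put `m' = m + α_c`, so `m' - α_c = m`.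
For `σ : IsEF c m'` define `(ω σ)_(p,j)(b) = ∑_k σ_(j,k)(δ(b)_kp)`, for `σ' : IsFE c m` define
`(ω' σ')_(j,p)(b) = ∑_k σ'_(p,k)(ε(b)_kj)` (linear in `b`).
`ω' ω σ = σ`: `∑_(k,r) σ_(k,r)(δ(ε(b)_kj)_rp) = act σ (D1 b) (j,p) 1 = σ_(j,p)(1 * b)` (t1).
`ω ω' σ' = σ'`: `∑_(k,r) σ'_(k,r)(ε(δ(b)_kp)_rj) = act σ' (D2 b) (p,j) 1 = σ'_(p,j)(b)`.
`ω σ : IsFE c m`.  (t1) `∑_(p',j') (ωσ)_(p'j')(ε(δ(a)_p'p)_j'j b) =
∑_(p',j',k,s) σ_(j',k)(δ(ε(x)_j'j)_ks δ(b)_sp')` with `x = δ(a)_p'p`; by t1 for `σ` (with `x`)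
`∑_(j',k) σ_(j',k)(D1(x)_((j',k),(j,s)) b') = σ_(j,s)(b' x)`, so it is
`∑_(p',s) σ_(j,s)(δ(b)_sp' δ(a)_p'p) = ∑_s σ_(j,s)(δ(ba)_sp) = (ωσ)_(p,j)(ba)`.
(t2) `δ(φ b)_kp = θ_k θ_p⁻¹ φ(δ(b)_kp)` (φδ), then t2 for `σ`.
(t3) `δ(b e_m) = δ(e_m) δ(b)` (`e_cen`), and `∑_k σ_(j,k)(δ(e_m)_ks b') = σ_(j,s)(b')` is t4 of `σ`
(`X1 M` at `((j',k),(j,s))` is `M_ks` for `j' = j`).
(t4) `∑_k (ωσ)_(p,k)(ε(e_m')_kj b) = ∑_(k,r,s) σ_(k,r)(δ(ε(e_m')_kj)_rs δ(b)_sp) =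
∑_s σ_(j,s)(δ(b)_sp e_m') = (ωσ)_(p,j)(b)` (t1, t3 of `σ`).
`ω' σ' : IsEF c m'`: the same with the roles exchanged: (t1) with `x = ε(a)_j'j` and
`ε(b)_sj' ε(a)_j'j`; (t2) φε; (t3) `ε(b e_m') = ε(e_m') ε(b)` and t4 of `σ'`; (t4)
`∑_(k,r,s) σ'_(k,r)(ε(δ(e_m)_kp)_rs ε(b)_sj) = ∑_s σ'_(p,s)(ε(b)_sj e_m)`.
Hence if all elements of one space are 0, so are those of the other. -/
def S_SW : Prop :=
  ∀ (A : Type) [Ring A] [Algebra ℂ A] (ι : Type) [Fintype ι] [DecidableEq ι] (l : ℕ)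
    (C : Core A ι l) (ζ : ℂ) (c : ZMod l) (m : ZMod l → ℤ),
    FEZero C ζ c m ↔ EFZero C ζ c (m + al c)

/-- **STF** (the functional `a ↦ σ(X2^i u a)`).  Let `σ` satisfy t1, t2, t3 of `IsFE`, and let
`Tr_zeta(m) = 0`.  Then `σ` does not distinguish `p(X2)` from `p(X1')`.

PROOF. For `i : ℕ` let `w = X2^i u` (a column) and `τ(a) = ∑_x σ_x(w_x a)`.
*Trace.* `w_x b = (D2(b) w)_x` (`uD` and `X2` commutes with `D2(b)`, CORE1), so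
`τ(b a) = ∑_x σ_x(∑_y D2(b)_xy w_y a) = ∑_y (act σ (D2 b))_y (w_y a) = ∑_y σ_y(w_y a b) = τ(a b)`.
*Equivariance.* `w_x φ(a) = θ_(x.1) θ_(x.2)⁻¹ φ(w_x a)` (CORE1), t2 gives `τ(φ a) = ζ τ(a)`.
*Block.* t3.  So `τ = 0`.
`X2^k - X1'^k = ∑_(i+j=k-1) X2^i (vecMulVec u v) X1'^j` (induction on `k`, `X2eq`), so
`(act σ (X2^k - X1'^k))_y (b) = ∑_(i+j=k-1) τ_i((v X1'^j)_y b) = 0`.  Then linearity in `p`
(`act_add`, `act_smul`). -/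
def S_STF : Prop :=
  ∀ (A : Type) [Ring A] [Algebra ℂ A] (ι : Type) [Fintype ι] [DecidableEq ι] (l : ℕ)
    (C : Core A ι l) (ζ : ℂ) (m : ZMod l → ℤ), TrZero C ζ m →
    ∀ σ : ι × ι → (A →ₗ[ℂ] ℂ),
    (∀ a b y, act σ (D2 C.δ C.ε a) y b = σ y (b * a)) →
    (∀ b y, ((C.θ y.1 : ℂ) * (C.θ y.2 : ℂ)⁻¹) * σ y (C.φ b) = ζ * σ y b) →
    (∀ b y, σ y (b * C.e m) = σ y b) →
    ∀ p : Polynomial ℂ,
      act σ (pev p (X2 C.ε C.X)) = act σ (pev p (sc A C.S * X1 C.X * sc A C.T))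

/-- **ST** (exchange of `E_c F_c` and `F_c E_c` when `Tr_zeta(m) = 0`).

PROOF (from CORE1, BLX, STF).
(a) Let `FE = 0`, `σ : IsEF c m`; put `σ' = act σ (sc T)`.  It satisfies t1 (T D2(a) = D1(a) T and
`act_act`), t2 (φT: `T_xy ≠ 0` implies `θ_(x.1)⁻¹ θ_(x.2) = θ_(y.1) θ_(y.2)⁻¹`), t3.
`act σ (pev p_c X1) = σ`: `pev p_c (X1 X) = X1 (pev p_c X)` (`pev_X1`), by t3 replace `b` by
`e_m b`, by `BL1` `p_c(X)_ki e_m = (δ(e_(m-α)))_ki e_m`, and t4, t3.  So `act σ' (pev p_c X1') =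
act σ (T S (pev p_c X1) T) = act (act σ (pev p_c X1)) T = σ'`, and by STF
`act σ' (pev p_c X2) = σ'`.  By t3, t1 (`a = e_m`): `act σ' (D2 e_m) = σ'`, so
`σ' = act σ' (D2 e_m) = act (act σ' (pev p_c X2)) (D2 e_m) = act σ' (pev p_c X2 * D2 e_m)
= act σ' (D2 e_m * X1 (ε e_(m+α))) = act σ' (X1 (ε e_(m+α)))` (BLX): t4.  So `σ' = 0` and
`σ = act σ' (sc S) = 0`.
(b) Let `EF = 0`, `σ : IsFE c m`; put `σ' = act σ (sc S)`: t1, t2, t3 as before (inter, φS).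
`act σ (pev p_c X2) = act σ (D2 e_m) .. = act σ (pev p_c X2 * D2 e_m)` (`pev_comm`: `D2 e_m` commutes
with `X2`) `= act σ (D2 e_m * X1 (ε e_(m+α))) = σ` (t1, t3, t4).  By STF
`act σ (pev p_c X1') = σ`, so `act σ' (pev p_c X1) = act σ (S pev p_c X1 T S) = act σ (sc S) = σ'`,
and by `BL1`, t3 as in (a): `σ' = act σ' (X1 (δ e_(m-α)))`: t4.  So `σ' = 0`, `σ = 0`. -/
def S_ST : Prop :=
  ∀ (A : Type) [Ring A] [Algebra ℂ A] (ι : Type) [Fintype ι] [DecidableEq ι] (l : ℕ)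
    (C : Core A ι l) (ζ : ℂ) (c : ZMod l) (m : ZMod l → ℤ), TrZero C ζ m →
    (EFZero C ζ c m ↔ FEZero C ζ c m)

/-- **VAN**.

PROOF (from SW, ST). (i) By downward induction on `j ≥ 1`: `EF(c, m + jα) = 0`.  For large `j`,
`(m + jα)(c+1) = m(c+1) - j < 0` (`al c (c+1) = -1` as `c ≠ c + 1` in `ZMod l`, `l ≥ 2`), so
`m + jα ∉ types`, `e = 0` and t3 gives `σ = 0`.  Step: if `EF(c, m + (j+1)α) = 0` then
`FE(c, m + jα) = 0` (SW), then `EF(c, m + jα) = 0` (ST, as `Tr(m + jα) = 0`).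
(ii) By downward induction on `j ≥ 1`: `FE(c, m - jα) = 0`.  For large `j`, `(m - jα)(c) < 0`.  Step:
`FE(c, m - (j+1)α) = 0`, so `EF(c, m - jα) = 0` (SW), so `FE(c, m - jα) = 0` (ST). -/
def S_VAN : Prop :=
  ∀ (A : Type) [Ring A] [Algebra ℂ A] (ι : Type) [Fintype ι] [DecidableEq ι] (l : ℕ), 2 ≤ l →
  ∀ (C : Core A ι l) (ζ : ℂ) (c : ZMod l) (m : ZMod l → ℤ),
    ((∀ j : ℕ, 1 ≤ j → TrZero C ζ (m + (j : ℤ) • al c)) → EFZero C ζ c (m + al c)) ∧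
    ((∀ j : ℕ, 1 ≤ j → TrZero C ζ (m - (j : ℤ) • al c)) → FEZero C ζ c (m - al c))

/-- **KILL**.

PROOF. (i) Let `e = e (m + al c)`, `σ_(j,i)(b) = τ(ε(b e)_ij)`; it is in `EF(c, m + α)`:
(t1) `∑_(j',i') τ(ε(δ(ε(a)_j'j)_i'i b e)_i'j') = ∑_(j',i',k) τ(ε(δ(x)_i'i)_i'k ε(be)_kj')`,
`x = ε(a)_j'j`; by cap0 the sum over `i'` of `ε(δ(x)_i'i)_i'k` is `x` for `k = i`, `0` otherwise; so it
is `∑_j' τ(ε(a)_j'j ε(be)_ij') = ∑_j' τ(ε(be)_ij' ε(a)_j'j) = τ(ε(bea)_ij) = σ_(j,i)(ba)`.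
(t2) φε and the equivariance of `τ`.  (t3) `e² = e`.  (t4), with `(m + α) - α = m`:
`∑_k τ(ε(δ(e_m)_ki b e)_kj) = ∑_(k,s) τ(ε(δ(e_m)_ki)_ks ε(be)_sj) = τ(e_m ε(be)_ij) = τ(ε(be)_ij)`
(cap0; `τ(e_m x) = τ(x)`).  So `σ = 0`, and
`y ε(b)_ij = ∑_k ε(δ(y)_ki b)_kj` (cap0), so `τ(y ε(be)_ij) = ∑_k σ_(j,k)(δ(y)_ki b) = 0`.
(ii) Let `e = e (m - al c)`, `σ_(j,i)(b) = w_i τ(δ(b e)_ij)`, in `FE(c, m - α)`: the same with cap1: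
`∑_i' w_i' δ(ε(x)_i'i)_i'k = w_k x` for `k = i`, `0` otherwise. -/
def S_KILL : Prop :=
  ∀ (A : Type) [Ring A] [Algebra ℂ A] (ι : Type) [Fintype ι] [DecidableEq ι] (l : ℕ)
    (C : Core A ι l) (ζ : ℂ) (c : ZMod l) (m : ZMod l → ℤ) (τ : A →ₗ[ℂ] ℂ), IsTrz C ζ m τ →
    (EFZero C ζ c (m + al c) → ∀ y b i j, τ (y * C.ε (b * C.e (m + al c)) i j) = 0) ∧
    (FEZero C ζ c (m - al c) → ∀ y b i j, τ (y * C.δ (b * C.e (m - al c)) i j) = 0)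

/-! ### Traces -/

/-- **TR** (the resolvent identity; general).

PROOF. `Y^k - Y'^k = ∑_(i+j=k-1) Y^i (vecMulVec u v) Y'^j`.  `τ(tr(column·row)) = τ(row·column)`
(`trace_comm_of_tr` with a one-point index type, or directly), so with column `Y^i u` and row
`v Y'^j D`: the difference is `∑_(i+j=k-1) τ(v Y'^j D Y^i u) = ∑ τ((v Y'^j Y^i u) x)`, because
`D Y^i u = Y^i D u = (Y^i u) x`.  `v Y'^j = v Y^j - ∑_(r+s=j-1) β_r v Y^s` with `β_r = v Y'^r u`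
(from `Y^j - Y'^j = ∑_(r+s=j-1) Y'^r (vecMulVec u v) Y^s`).  So `∑_(i+j=k-1) v Y'^j Y^i u =
k b_(k-1) - ∑_(i+j=k-1) ∑_(r+s=j-1) β_r b_(s+i)`, and for fixed `r`, `t = s + i` with
`r + t = k - 2` there are `t + 1` pairs `(i, s)`: this is `piv b β k`. -/
def S_TR : Prop :=
  ∀ (A : Type) [Ring A] [Algebra ℂ A] (κ : Type) [Fintype κ] [DecidableEq κ]
    (Y Y' D : Matrix κ κ A) (u v : κ → A) (x : A) (τ : A →ₗ[ℂ] ℂ),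
    Y = Y' + Matrix.vecMulVec u v → Y * D = D * Y → (D *ᵥ u = fun y => u y * x) →
    (∀ a b, τ (a * b) = τ (b * a)) →
    ∀ k : ℕ, τ (Matrix.trace (Y ^ k * D)) - τ (Matrix.trace (Y' ^ k * D)) =
      τ (piv (bvu v u Y) (bvu v u Y') k * x)

/-- **TRF** (`F_c tau` and `E_c tau` are traces).

PROOF. `τ(tr δ(x y e)) = τ(tr(δ(x e) δ(y e)))` (`e` central idempotent), use `trace_comm_of_tr`.
Equivariance: `δ(φ(x) e) = δ(φ(x e))` (`φe`), its diagonal entries are `φ(δ(x e)_ii)` (φδ). Block: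
`e² = e`.  The same for `ε`. -/
def S_TRF : Prop :=
  ∀ (A : Type) [Ring A] [Algebra ℂ A] (ι : Type) [Fintype ι] [DecidableEq ι] (l : ℕ)
    (C : Core A ι l) (ζ : ℂ) (c : ZMod l) (m : ZMod l → ℤ) (τ : A →ₗ[ℂ] ℂ), IsTrz C ζ m τ →
    IsTrz C ζ (m - al c) (Ft C c m τ) ∧ IsTrz C ζ (m + al c) (Et C c m τ)

/-- **EFFE**: `E_c F_c tau - F_c E_c tau = (m_c - m_(c+1)) tau`.

PROOF (from CORE1, BLX, TR).
`Et c (m-α) (Ft c m τ) x = τ(∑_(j,p) δ(ε(x e_m)_jj e_(m-α))_pp) = τ(tr(D1(x e_m) X1(δ e_(m-α))))`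
(`Matrix.trace` over `ι × ι`).  `τ(y) = τ(e_m y)`, so by `BL1` (`X1 (p_c(X)) = pev p_c (X1 X)`)
this is `τ(tr(D1(x e_m) (pev p_c X1))) = τ(tr((pev p_c X1) D1(x e_m)))` (CORE1, `pev_comm`).
`Ft c (m+α) (Et c m τ) x = τ(tr(D2(x e_m) X1(ε e_(m+α))))`, and
`D2(x e_m) X1(ε e_(m+α)) = D2(x) D2(e_m) X1(..) = D2(x) (pev p_c X2) D2(e_m)` (BLX)
`= (pev p_c X2) D2(x e_m)`.  `τ(tr(X1^k D1(y))) = τ(tr(X1'^k D2(y)))`: `X1'^k D2(y) =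
S X1^k T D2(y) = S X1^k D1(y) T`, `trace_comm_of_tr`.  By TR (with `Y = X2`, `Y' = X1'`,
`D = D2(x e_m)`), summed with the coefficients of `p_c`:
`Ft Et τ x - Et Ft τ x = ∑_k (p_c)_k τ(π_k x e_m) = τ((∑ (p_c)_k π_k) e_m x)
= (m_(c+1) - m_c) τ(e_m x)` (`DL`). -/
def S_EFFE : Prop :=
  ∀ (A : Type) [Ring A] [Algebra ℂ A] (ι : Type) [Fintype ι] [DecidableEq ι] (l : ℕ)
    (C : Core A ι l) (ζ : ℂ) (c : ZMod l) (m : ZMod l → ℤ) (τ : A →ₗ[ℂ] ℂ), IsTrz C ζ m τ →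
    Et C c (m - al c) (Ft C c m τ) - Ft C c (m + al c) (Et C c m τ) =
      ((m c - m (c + 1) : ℤ) : ℂ) • τ

/-- **SL2**.

PROOF (from TRF, EFFE). `F_k = Ftn k τ` is in `Tr(m - kα)` (TRF).  `(m - kα)(c) - (m - kα)(c+1) =
h - 2k` (`al c c = 1`, `al c (c+1) = -1`, `l ≥ 2`).  Claim
`Et c (m - (k+1)α) F_(k+1) = (k+1)(h-k) F_k`: EFFE for `F_k` in the block `m - kα` gives
`Et F_(k+1) = Ft (Et F_k) + (h - 2k) F_k`, and `Et F_k = k (h-k+1) F_(k-1)` for `k ≥ 1` by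
induction, `= 0` for `k = 0` (the hypothesis), so `Ft (Et F_k) = k (h-k+1) F_k`; and
`h - 2k + k(h-k+1) = (k+1)(h-k)`.  (`Ft`, `Et` are linear in `τ`.)  By induction on `i ≤ h`,
`Etn i (F_h) = (∏_(k=h-i)^(h-1) (k+1)(h-k)) F_(h-i)`, with the blocks `(m - hα) + iα = m - (h-i)α`;
for `i = h` the product is `(h!)²`. -/
def S_SL2 : Prop :=
  ∀ (A : Type) [Ring A] [Algebra ℂ A] (ι : Type) [Fintype ι] [DecidableEq ι] (l : ℕ), 2 ≤ l →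
  ∀ (C : Core A ι l) (ζ : ℂ) (c : ZMod l) (m : ZMod l → ℤ) (τ : A →ₗ[ℂ] ℂ), IsTrz C ζ m τ →
    Et C c m τ = 0 → ∀ h : ℕ, (h : ℤ) = m c - m (c + 1) →
    Etn C c (m - (h : ℤ) • al c) h (Ftn C c m h τ) = ((h.factorial : ℂ) ^ 2) • τ

/-! ### Ideals -/

/-- **IDL** (elementary properties of the ideals).

PROOF. (1) `δ(b a e) = δ(b) δ(a e)`, `δ(a b e) = δ(a e) δ(b)` have entries in `I`. (2) the same. (3),
(4) clear. (5) `(Fi I)^k ≤ Fi (I^k)`, `k ≥ 1`, by induction: for `a ∈ Fi I`, `b ∈ Fi (I^k)`: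
`δ(a b e) = δ(a e) δ(b e)` has entries in `I * I^k` (`Submodule.mul_le`, `pow_succ'`). (6) the
same. (7) `1 - e_(m-α) ∈ Fi c m I`: `(1 - e) e = 0`. (8) same. (9) `I_τ` is two-sided
(trace property), (10) `1 - e_m ∈ I_τ`. (11) if `δ(a e) ∈ M_n(I_τ)` then
`τ(tr(δ(a y e))) = τ(tr(δ(a e) δ(y))) = 0`. (12) the same. -/
def S_IDL : Prop :=
  ∀ (A : Type) [Ring A] [Algebra ℂ A] (ι : Type) [Fintype ι] [DecidableEq ι] (l : ℕ)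
    (C : Core A ι l) (c : ZMod l) (m : ZMod l → ℤ),
    (∀ I, TwoS I → TwoS (Fi C c m I)) ∧
    (∀ I, TwoS I → TwoS (Ei C c m I)) ∧
    (∀ I J : Submodule ℂ A, I ≤ J → Fi C c m I ≤ Fi C c m J) ∧
    (∀ I J : Submodule ℂ A, I ≤ J → Ei C c m I ≤ Ei C c m J) ∧
    (∀ I : Submodule ℂ A, ∀ k : ℕ, 1 ≤ k → (Fi C c m I) ^ k ≤ Fi C c m (I ^ k)) ∧
    (∀ I : Submodule ℂ A, ∀ k : ℕ, 1 ≤ k → (Ei C c m I) ^ k ≤ Ei C c m (I ^ k)) ∧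
    (∀ I : Submodule ℂ A, 1 - C.e (m - al c) ∈ Fi C c m I) ∧
    (∀ I : Submodule ℂ A, 1 - C.e (m + al c) ∈ Ei C c m I) ∧
    (∀ ζ τ, IsTrz C ζ m τ → TwoS (It τ)) ∧
    (∀ ζ τ, IsTrz C ζ m τ → 1 - C.e m ∈ It τ) ∧
    (∀ ζ τ, IsTrz C ζ m τ → Fi C c m (It τ) ≤ It (Ft C c m τ)) ∧
    (∀ ζ τ, IsTrz C ζ m τ → Ei C c m (It τ) ≤ It (Et C c m τ))

/-- **FIVE**: `(E F I) I ≤ F E I`.

PROOF (from CORE1, BLX). For matrices over `A` write `M ≡ M'` if all entries of `M - M'` are in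
`I`; `1 - e_m ∈ I`, so `M ≡ diagonal(e_m) M`.  Let `a ∈ Ei c (m-α) (Fi c m I)` and `x ∈ I`
(`Submodule.mul_le`).  The hypothesis (`(m-α)+α = m`) is: the entries
`δ(ε(a e_m)_ji e_(m-α))_pk` of `D1(a e_m) X1(δ e_(m-α))` are in `I`, so
`D1(a e_m) (pev p_c X1) ≡ 0` (multiply by `diagonal e_m`, `BL1`, `pev_X1`).  Then
`D2(a e_m) (pev p_c X1') = S D1(a e_m) (pev p_c X1) T ≡ 0` (CORE1, inter), and
`D2(a x e_m) (pev p_c X1') = D2(a e_m) (pev p_c X1') D2(x) ≡ 0` (`X1'` commutes with `D2(x)`).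
`D2(a x e_m)(pev p_c X2 - pev p_c X1')` is a combination of the
`D2(y) X2^i (vecMulVec u v) X1'^j = (vecMulVec (X2^i u · y) v) X1'^j`, `y = a x e_m ∈ I`, whose
entries `(X2^i u)_r y (v X1'^j)_s` are in `I`.  So `D2(a x e_m) (pev p_c X2) ≡ 0`, and
`D2(a x e_m) (pev p_c X2) = D2(a x) (pev p_c X2) D2(e_m) = D2(a x e_m) X1(ε e_(m+α))` (BLX).
Its entries are `ε(δ(a x e_m)_pk e_(m+α))_ji`, so `δ(a x e_m)_pk ∈ Ei c m I` for all `p, k`, i.e.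
`a x ∈ Fi c (m+α) (Ei c m I)` (`(m+α)-α = m`). -/
def S_FIVE : Prop :=
  ∀ (A : Type) [Ring A] [Algebra ℂ A] (ι : Type) [Fintype ι] [DecidableEq ι] (l : ℕ)
    (C : Core A ι l) (c : ZMod l) (m : ZMod l → ℤ) (I : Submodule ℂ A), TwoS I →
    1 - C.e m ∈ I →
    Ei C c (m - al c) (Fi C c m I) * I ≤ Fi C c (m + al c) (Ei C c m I)

/-- **IT**.

PROOF (from IDL, FIVE). `J_k = Ein' k J` is two-sided and contains `1 - e_(m+kα)` (IDL).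
(1) `J_k^(k+1) ≤ Fi c (m+(k+1)α) J_(k+1)`. `k = 0`: FIVE gives
`(Ei c (m-α) (Fi c m J)) * J ≤ Fi c (m+α) (Ei c m J)`, and `Fi c m J = ⊤`, `Ei ⊤ = ⊤`, `J ≤ ⊤ * J`.
Step `k → k+1`: FIVE for `J_(k+1)` in the block `m+(k+1)α`:
`(Ei c (m+kα) (Fi c (m+(k+1)α) J_(k+1))) * J_(k+1) ≤ Fi c (m+(k+2)α) J_(k+2)`, and
`Ei (Fi J_(k+1)) ≥ Ei c (m+kα) (J_k^(k+1)) ≥ (Ei c (m+kα) J_k)^(k+1) = J_(k+1)^(k+1)`.
(2) By induction on `i ≤ h`: `J_(h-i)^(a_i) ≤ Fin' c (m+hα) i J_h` with `a_0 = 1`,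
`a_(i+1) = a_i (h-i)` (`Fi (J_(h-i)^(a_i)) ≥ (Fi J_(h-i))^(a_i) ≥ (J_(h-i-1)^(h-i))^(a_i)`, the block is
`(m+hα) - iα = m + (h-i)α`).  `a_h = h!`.  (All exponents are `≥ 1`.) -/
def S_IT : Prop :=
  ∀ (A : Type) [Ring A] [Algebra ℂ A] (ι : Type) [Fintype ι] [DecidableEq ι] (l : ℕ)
    (C : Core A ι l) (c : ZMod l) (m : ZMod l → ℤ) (J : Submodule ℂ A), TwoS J →
    1 - C.e m ∈ J → Fi C c m J = ⊤ → ∀ h : ℕ,
    J ^ h.factorial ≤ Fin' C c (m + (h : ℤ) • al c) h (Ein' C c m h J)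

/-- **STEP** (one step of the rotation).

PROOF (from VAN, KILL, TRF, SL2, IDL, IT).  Let `α = al c`.  For `j ≥ 1`,
`∑ (m+jα)² = ∑ m² + 2j(m_c - m_(c+1)) + 2j² = ∑ m² + 2jh + 2j² > ∑ m²`, so `Tr(m+jα) = 0`, VAN (i)
gives `EF(c, m+α) = 0` and KILL (i) the first claim; with `y = 1` also `Et c m τ = 0`.
`τ' = Ftn h τ ∈ Tr(m'')`, `m'' = m - hα` (TRF, induction).  `m''_c - m''_(c+1) = -h`,
`∑ m''² = ∑ m²`, so `∑ (m''-jα)² = ∑ m² + 2jh + 2j² > ∑ m²` for `j ≥ 1`; VAN (ii), KILL (ii) for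
`τ'`: `δ(b e_(m''-α))_ij ∈ It τ'` (trace property), i.e. `Fi c m'' (It τ') = ⊤`.  IT with `m''`,
`J = It τ'` (IDL): `(It τ')^(h!) ≤ Fin' c m h (Ein' c m'' h (It τ'))` (`m'' + hα = m`), and
`Ein' c m'' h (It τ') ≤ It (Etn c m'' h τ')` (IDL (12), (4), induction) `= It ((h!)² τ) = It τ`
(SL2). -/
def S_STEP : Prop :=
  ∀ (A : Type) [Ring A] [Algebra ℂ A] (ι : Type) [Fintype ι] [DecidableEq ι] (l : ℕ) [NeZero l],
    2 ≤ l → ∀ (C : Core A ι l) (ζ : ℂ) (c : ZMod l) (m : ZMod l → ℤ) (h : ℕ),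
    (h : ℤ) = m c - m (c + 1) →
    (∀ m' : ZMod l → ℤ, ∑ x, m x ^ 2 < ∑ x, m' x ^ 2 → TrZero C ζ m') →
    ∀ τ : A →ₗ[ℂ] ℂ, IsTrz C ζ m τ →
    (∀ i j, C.ε (C.e (m + al c)) i j ∈ It τ) ∧
    IsTrz C ζ (m - (h : ℤ) • al c) (Ftn C c m h τ) ∧
    (It (Ftn C c m h τ)) ^ h.factorial ≤ Fin' C c m h (It τ)

end

end Pool.Agent.Helper34.SQ
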