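import Pool.Agent.Helper24.SQ.BLX
import Pool.Agent.Helper54.SQ.SW
import Pool.Agent.Helper93.SQ.ST
import Pool.Agent.Helper86.SQ.VAN
import Pool.Agent.Helper28.SQ.KILL
import Pool.Agent.Helper28.SQ.IDL
import Pool.Agent.Helper28.SQ.IT
import Pool.Agent.Helper85.SQ.TRF
import Pool.Agent.Helper27.SQ.EFFE
import Pool.Agent.Helper86.SQ.SL2
import Pool.Agent.Helper96.SQ.FIVE
import Pool.Agent.Helper84.SQ.SWB
import Pool.Agent.Helper55.SQ.TR
import Pool.Agent.Helper86.SQ.STEP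
import Pool.Agent.Helper8.SQ.FIT
import Pool.Agent.Helper35.SQ.JT
import Pool.Agent.Helper84.SQ.CH
import Pool.Agent.Helper57.SQ.CORE0
import Pool.Agent.Helper57.SQ.SWAP
import Pool.Agent.Helper57.SQ.RM2
import Pool.Agent.Helper57.SQ.GADD
import Pool.Agent.Helper57.SQ.COMB
import Pool.Agent.Helper57.SQ.TEN
import Pool.Agent.Helper57.SQ.G1
import Pool.Agent.Helper10.SQ.TYR
import Pool.Agent.Helper10.SQ.GSUP
import Pool.Agent.Helper10.SQ.BZ
import Pool.Agent.Helper10.SQ.FSUPP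
import Pool.Agent.Helper35.SQ.GSUB
import Pool.Agent.Helper45.SQ.ZGM
import Pool.Agent.Helper36.SQ.G0
import Pool.Agent.Helper84.SQ.MAIN12

/-!
# MP_bb32d1_al, sections 11 and 12 assembled
-/

set_option autoImplicit false

namespace Pool.Agent.Helper34.SQ

theorem m_core1 : S_CORE1 := core1_of_core0 Helper57.SQ.t_core0

theorem m_blx : S_BLX := Helper24.SQ.t_blx

theorem m_tr : S_TR := Helper55.SQ.t_tr

theorem m_trf : S_TRF := Helper85.SQ.t_trf

theorem m_effe : S_EFFE := Helper27.SQ.t_effe m_core1 m_blx m_tr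

theorem m_sl2 : S_SL2 := Helper86.SQ.t_sl2 m_trf m_effe

theorem m_five : S_FIVE := Helper96.SQ.t_five m_core1 m_blx

theorem m_it : S_IT := Helper28.SQ.t_it Helper28.SQ.t_idl m_five

theorem m_swap : S_SWAP := Helper57.SQ.t_swap Helper8.SQ.t_fit Helper84.SQ.t_swb

theorem m_ch : S_CH := Helper84.SQ.t_ch m_swap Helper57.SQ.t_rm2 Helper35.SQ.t_jt

theorem m_gsub : S_GSUB := Helper35.SQ.t_gsub Helper57.SQ.t_gadd

theorem m_bz : S_BZ := Helper10.SQ.t_bz Helper57.SQ.t_comb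

theorem m_fsupp : S_FSUPP :=
  Helper10.SQ.t_fsupp Helper10.SQ.t_tyr Helper57.SQ.t_gadd m_gsub Helper45.SQ.t_zgm m_bz

theorem m_gsup : S_GSUP := Helper10.SQ.t_gsup m_fsupp

theorem m_g1 : S_G1 := Helper57.SQ.t_g1 m_gsub m_fsupp Helper57.SQ.t_ten m_gsup

theorem m_g2 : S_G2 := Helper10.SQ.t_g2 m_fsupp Helper57.SQ.t_ten m_gsup

theorem m_st (hSTF : S_STF) : S_ST := Helper93.SQ.t_st m_core1 m_blx hSTF

theorem m_van (hSTF : S_STF) : S_VAN := Helper86.SQ.t_van Helper54.SQ.t_sw (m_st hSTF)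

theorem m_step (hSTF : S_STF) : S_STEP :=
  Helper86.SQ.t_step (m_van hSTF) Helper28.SQ.t_kill m_trf m_sl2 Helper28.SQ.t_idl m_it

theorem m_main12 (hSTF : S_STF) : S_MAIN12 :=
  Helper84.SQ.t_main12 Helper28.SQ.t_idl (m_step hSTF) m_ch m_gsup m_g1 m_g2 Helper36.SQ.t_g0

end Pool.Agent.Helper34.SQ
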