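import Pool.Agent.Helper19.SQ.Core

/-!
Project SQ (MP_bb32d1_al), section 11: basic lemmas (proved) and definitions.

Conventions: `D1` acts on `V* (x) V (x) A` (index `(j, p)` = `phi_j (x) v_p`), `D2` on
`V (x) V* (x) A` (index `(p, j)` = `v_p (x) phi_j`).  A functional on such a space is a family
`σ : κ → (A →ₗ[ℂ] ℂ)` (`σ x b` is the value on `x (x) b`) and `act σ M` is `σ` composed with the
operator `M` (a matrix over `A`, acting on columns from the left).
-/

set_option autoImplicit false
set_option linter.unusedSectionVars false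

namespace Pool.Agent.Helper34.SQ

noncomputable section

open Matrix Pool.Agent.Helper19.SQ

variable {A : Type} [Ring A] [Algebra ℂ A] {ι κ κ' : Type} [Fintype ι] [DecidableEq ι]
  [Fintype κ] [DecidableEq κ] [Fintype κ'] [DecidableEq κ']

/-! ### The algebra maps `Phi` and `bd` -/

/-- `Phi f M` has the entry `f (M x.1 y.1) x.2 y.2` at `(x, y)`. -/
def Phi (f : A →ₐ[ℂ] Matrix ι ι A) : Matrix ι ι A →ₐ[ℂ] Matrix (ι × ι) (ι × ι) A :=
  AlgHom.ofLinearMap
    { toFun := fun M => Matrix.of fun x y => f (M x.1 y.1) x.2 y.2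
      map_add' := fun M M' => by ext x y; simp
      map_smul' := fun c M => by ext x y; simp }
    (by
      ext x y
      change f ((1 : Matrix ι ι A) x.1 y.1) x.2 y.2 = _
      rw [Matrix.one_apply, Matrix.one_apply]
      by_cases h1 : x.1 = y.1
      · rw [if_pos h1, map_one, Matrix.one_apply]
        by_cases h2 : x.2 = y.2
        · rw [if_pos h2, if_pos (Prod.ext h1 h2)]
        · rw [if_neg h2, if_neg fun h => h2 (congrArg Prod.snd h)]
      · rw [if_neg h1, map_zero, if_neg fun h => h1 (congrArg Prod.fst h)]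
        rfl)
    (fun M M' => by
      ext x y
      change f ((M * M') x.1 y.1) x.2 y.2 = _
      rw [Matrix.mul_apply, Matrix.mul_apply, map_sum, Matrix.sum_apply,
        Fintype.sum_prod_type]
      refine Finset.sum_congr rfl fun k _ => ?_
      rw [map_mul, Matrix.mul_apply]
      rfl)

@[simp] theorem Phi_apply (f : A →ₐ[ℂ] Matrix ι ι A) (M : Matrix ι ι A) (x y : ι × ι) :
    Phi f M x y = f (M x.1 y.1) x.2 y.2 := rfl

/-- `1 (x) M`. -/
def bd : Matrix ι ι A →ₐ[ℂ] Matrix (ι × ι) (ι × ι) A :=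
  AlgHom.ofLinearMap
    { toFun := fun M => X1 M
      map_add' := fun M M' => by
        ext x y
        simp only [X1, Matrix.of_apply, Matrix.add_apply]
        split <;> simp
      map_smul' := fun c M => by
        ext x y
        simp only [X1, Matrix.of_apply, Matrix.smul_apply, RingHom.id_apply]
        split <;> simp }
    (by
      ext x y
      change X1 (1 : Matrix ι ι A) x y = _
      simp only [X1, Matrix.of_apply]
      rw [Matrix.one_apply, Matrix.one_apply]
      by_cases h1 : x.1 = y.1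
      · rw [if_pos h1]
        by_cases h2 : x.2 = y.2
        · rw [if_pos h2, if_pos (Prod.ext h1 h2)]
        · rw [if_neg h2, if_neg fun h => h2 (congrArg Prod.snd h)]
      · rw [if_neg h1, if_neg fun h => h1 (congrArg Prod.fst h)])
    (fun M M' => by
      ext x y
      change X1 (M * M') x y = (X1 M * X1 M') x y
      rw [Matrix.mul_apply, Fintype.sum_prod_type]
      simp only [X1, Matrix.of_apply]
      rw [Finset.sum_eq_single x.1]
      · by_cases h1 : x.1 = y.1
        · simp only [h1, if_true, Matrix.mul_apply]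
        · simp [h1]
      · intro b _ hb
        simp [Ne.symm hb]
      · intro h; exact absurd (Finset.mem_univ _) h)

theorem bd_eq (M : Matrix ι ι A) : bd M = X1 M := rfl

theorem bd_apply (M : Matrix ι ι A) (x y : ι × ι) :
    bd M x y = if x.1 = y.1 then M x.2 y.2 else 0 := rfl

theorem D1_eq (δ ε : A →ₐ[ℂ] Matrix ι ι A) (a : A) : D1 δ ε a = Phi δ (ε a) := rfl

theorem D2_eq (δ ε : A →ₐ[ℂ] Matrix ι ι A) (a : A) : D2 δ ε a = Phi ε (δ a) := rfl

theorem X2_eq (ε : A →ₐ[ℂ] Matrix ι ι A) (X : Matrix ι ι A) : X2 ε X = Phi ε X := rfl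

theorem X1_delta (f : A →ₐ[ℂ] Matrix ι ι A) (a : A) :
    X1 (f a) = Phi f (Matrix.diagonal fun _ => a) := by
  ext x y
  simp only [X1, Matrix.of_apply, Phi_apply, Matrix.diagonal_apply]
  by_cases h : x.1 = y.1
  · rw [if_pos h, if_pos h]
  · rw [if_neg h, if_neg h, map_zero]; rfl

theorem D1_mul (δ ε : A →ₐ[ℂ] Matrix ι ι A) (a b : A) : D1 δ ε (a * b) = D1 δ ε a * D1 δ ε b := by
  rw [D1_eq, D1_eq, D1_eq, map_mul, map_mul]

theorem D2_mul (δ ε : A →ₐ[ℂ] Matrix ι ι A) (a b : A) : D2 δ ε (a * b) = D2 δ ε a * D2 δ ε b := by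
  rw [D2_eq, D2_eq, D2_eq, map_mul, map_mul]

theorem pev_X1 (p : Polynomial ℂ) (X : Matrix ι ι A) : pev p (X1 X) = X1 (pev p X) := by
  have := Polynomial.aeval_algHom_apply (bd (A := A) (ι := ι)) X p
  exact this

theorem pev_X2 (p : Polynomial ℂ) (ε : A →ₐ[ℂ] Matrix ι ι A) (X : Matrix ι ι A) :
    pev p (X2 ε X) = Phi ε (pev p X) := by
  have := Polynomial.aeval_algHom_apply (Phi ε) X p
  exact this

theorem diag_comm {a : A} (ha : ∀ b, a * b = b * a) (M : Matrix κ κ A) :
    Matrix.diagonal (fun _ => a) * M = M * Matrix.diagonal (fun _ => a) := by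
  ext x y
  rw [Matrix.diagonal_mul, Matrix.mul_diagonal, ha]

theorem pev_comm {X M : Matrix κ κ A} (h : X * M = M * X) (p : Polynomial ℂ) :
    pev p X * M = M * pev p X := by
  have h1 : Commute X M := h
  have h2 : Commute (Polynomial.aeval X p) M := by
    induction p using Polynomial.induction_on' with
    | add p q hp hq => rw [map_add]; exact hp.add_left hq
    | monomial n a =>
      rw [Polynomial.aeval_monomial]
      refine Commute.mul_left ?_ (h1.pow_left n)
      exact Algebra.commutes a M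
  exact h2

theorem diag_smul_comm (c : ℂ) (M : Matrix κ κ A) :
    Matrix.diagonal (fun _ : κ => algebraMap ℂ A c) * M = c • M := by
  ext x y
  rw [Matrix.diagonal_mul, Matrix.smul_apply, Algebra.smul_def]

theorem sc_mul {S T : Matrix κ κ ℂ} : sc A S * sc A T = sc A (S * T) := by
  rw [sc, sc, sc, Matrix.map_mul]

theorem sc_one : sc A (1 : Matrix κ κ ℂ) = 1 := by
  rw [sc, Matrix.map_one]
  · exact map_zero _
  · exact map_one _

/-! ### Functionals -/

/-- `σ` composed with the operator `M`. -/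
def act (σ : κ → (A →ₗ[ℂ] ℂ)) (M : Matrix κ κ' A) : κ' → (A →ₗ[ℂ] ℂ) :=
  fun y => ∑ x, σ x ∘ₗ LinearMap.mulLeft ℂ (M x y)

theorem act_apply (σ : κ → (A →ₗ[ℂ] ℂ)) (M : Matrix κ κ' A) (y : κ') (b : A) :
    act σ M y b = ∑ x, σ x (M x y * b) := by
  simp [act, LinearMap.sum_apply]

theorem act_act {κ'' : Type} [Fintype κ''] [DecidableEq κ''] (σ : κ → (A →ₗ[ℂ] ℂ)) (M : Matrix κ κ' A) (M' : Matrix κ' κ'' A) :
    act (act σ M) M' = act σ (M * M') := by
  funext y
  ext b
  rw [act_apply, act_apply]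
  simp only [act_apply, Matrix.mul_apply]
  rw [Finset.sum_comm]
  refine Finset.sum_congr rfl fun x _ => ?_
  rw [Finset.sum_mul, map_sum]
  exact Finset.sum_congr rfl fun z _ => by rw [mul_assoc]

theorem act_one (σ : κ → (A →ₗ[ℂ] ℂ)) : act σ (1 : Matrix κ κ A) = σ := by
  funext y
  ext b
  rw [act_apply, Finset.sum_eq_single y]
  · simp
  · intro x _ hx
    rw [Matrix.one_apply_ne hx, zero_mul, map_zero]
  · intro h; exact absurd (Finset.mem_univ _) h

theorem act_add (σ : κ → (A →ₗ[ℂ] ℂ)) (M M' : Matrix κ κ' A) :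
    act σ (M + M') = act σ M + act σ M' := by
  funext y
  ext b
  simp only [act_apply, Pi.add_apply, LinearMap.add_apply, Matrix.add_apply, add_mul, map_add,
    Finset.sum_add_distrib]

theorem act_smul (σ : κ → (A →ₗ[ℂ] ℂ)) (c : ℂ) (M : Matrix κ κ' A) :
    act σ (c • M) = c • act σ M := by
  funext y
  ext b
  simp only [act_apply, Pi.smul_apply, LinearMap.smul_apply, Matrix.smul_apply, smul_mul_assoc,
    map_smul, Finset.smul_sum]

theorem act_sum {s : Type} (σ : κ → (A →ₗ[ℂ] ℂ)) (t : Finset s) (M : s → Matrix κ κ' A) :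
    act σ (∑ i ∈ t, M i) = ∑ i ∈ t, act σ (M i) := by
  classical
  induction t using Finset.induction_on with
  | empty =>
    funext y
    ext b
    simp [act_apply]
  | insert i t hi ih => rw [Finset.sum_insert hi, act_add, ih, Finset.sum_insert hi]

/-! ### Traces -/

theorem trace_comm_of_tr {τ : A →ₗ[ℂ] ℂ} (h : ∀ x y, τ (x * y) = τ (y * x))
    (M : Matrix κ κ' A) (M' : Matrix κ' κ A) :
    τ (Matrix.trace (M * M')) = τ (Matrix.trace (M' * M)) := by
  simp only [Matrix.trace, Matrix.diag_apply, Matrix.mul_apply, map_sum]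
  rw [Finset.sum_comm]
  exact Finset.sum_congr rfl fun _ _ => Finset.sum_congr rfl fun _ _ => h _ _

end

end Pool.Agent.Helper34.SQ
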