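import Pool.Agent.Helper34.SQ.GoalsT

/-!
Project SQ (MP_bb32d1_al): facts about `Core0` (everything without the blocks).
-/

set_option autoImplicit false
set_option linter.unusedSectionVars false

namespace Pool.Agent.Helper34.SQ

noncomputable section

open Matrix Pool.Agent.Helper19.SQ

/-- **CORE0** (consequences of the fields of `Core0`).  `X1' = C.X1p = S X1 T`.

PROOF. (1) `X1 X` commutes with `D1 a`: `D1 a = Phi δ (ε a)`, entries `δ(ε(a)_ji)_pk`, and `X` commutes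
with every `δ b`: both products have the entry `(X δ(ε(a)_ji))_pk = (δ(ε(a)_ji) X)_pk` (expand with
`Matrix.mul_apply`, `Fintype.sum_prod_type`).  (2) `X2` commutes with `D2 a`: apply `Phi ε` to `Xδ`.
(3) `T D2(a) = D1(a) T`: multiply `inter` by `sc T` on both sides (`sc_mul`, `ST`, `TS`, `sc_one`).
(4) from (1), (3) and `inter`.  (5) `(S X1 T)^k = S X1^k T` by induction (`TS`; `k = 0` by `ST`), then
linearity in `p` (scalars commute with `sc S`; `Polynomial.induction_on'`).  (6) `φ(X2_xy)`, with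
`x = (p,j)`, `y = (k,i)`, is `φ(ε(X_pk)_ji) = θ_j θ_i⁻¹ ε(φ X_pk)_ji` (`φε`) and
`φ X_pk = θ_p⁻¹ θ_k X_pk` (`φX`), so `φ(X2_xy) = (θ_(x.1)⁻¹ θ_(x.2) θ_(y.1) θ_(y.2)⁻¹) X2_xy`; then
induction on `k` with `φu`.  (7) `b_k a = v X2^k u a = v X2^k D2(a) u = v D2(a) X2^k u = a b_k`
(`uD`, (2), `vD`).  (8) the same with (4).  (9) the product of the weights of `v_x`, `X2_xy`, `u_y` is 1:
from (6) and `φv`.  (10) `φ(X1p_xy)`: `(S X1 T)_xy = ∑ S_xz X1_zw T_wy` and the weights of `X1`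
(`φX`), `φS`, `φT` give the same weight `θ_(x.1)⁻¹ θ_(x.2) θ_(y.1) θ_(y.2)⁻¹`; then as (9).
(11) `X2^k - X1'^k = ∑_(i+j=k-1) X1'^i (vecMulVec u v) X2^j`, multiply by `v` and `u`.
(12), (13): `pi_k` is a polynomial in the `b`, `β` (`piv`). -/
def S_CORE0 : Prop :=
  ∀ (A : Type) [Ring A] [Algebra ℂ A] (ι : Type) [Fintype ι] [DecidableEq ι] (C : Core0 A ι),
    (∀ a, X1 C.X * D1 C.δ C.ε a = D1 C.δ C.ε a * X1 C.X) ∧
    (∀ a, X2 C.ε C.X * D2 C.δ C.ε a = D2 C.δ C.ε a * X2 C.ε C.X) ∧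
    (∀ a, sc A C.T * D2 C.δ C.ε a = D1 C.δ C.ε a * sc A C.T) ∧
    (∀ a, C.X1p * D2 C.δ C.ε a = D2 C.δ C.ε a * C.X1p) ∧
    (∀ p, pev p C.X1p = sc A C.S * pev p (X1 C.X) * sc A C.T) ∧
    (∀ k x, C.φ ((X2 C.ε C.X ^ k *ᵥ C.u) x) =
      ((C.θ x.1 : ℂ)⁻¹ * (C.θ x.2 : ℂ)) • (X2 C.ε C.X ^ k *ᵥ C.u) x) ∧
    (∀ k a, C.b k * a = a * C.b k) ∧
    (∀ k a, C.β k * a = a * C.β k) ∧
    (∀ k, C.φ (C.b k) = C.b k) ∧
    (∀ k, C.φ (C.β k) = C.β k) ∧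
    (∀ k, C.b k = C.β k + ∑ r ∈ Finset.range k, C.β r * C.b (k - 1 - r)) ∧
    (∀ k a, C.pi k * a = a * C.pi k) ∧
    (∀ k, C.φ (C.pi k) = C.pi k)

/-- CORE1 is a part of CORE0. -/
theorem core1_of_core0 (h : S_CORE0) : S_CORE1 := by
  intro A _ _ ι _ _ l C
  obtain ⟨h1, h2, h3, h4, h5, h6, _⟩ := h A ι C.toCore0
  exact ⟨h1, h2, h3, h4, h5, h6⟩

end

end Pool.Agent.Helper34.SQ
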