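import Mathlib

/-!
# Diagonal invariants of `S_n` on `ℂ[x_1..x_n, y_1..y_n]` are generated by the power sums

`weyl` (H. Weyl): the invariants of the diagonal action are the algebra generated by the
`∑ i, x_i ^ a * y_i ^ b`.  `weyl_mem`: an invariant is congruent to its value at a diagonal point
modulo every ideal which contains the `∑ i, x_i ^ a * y_i ^ b` minus their values.
-/

set_option autoImplicit false

namespace Pool.Agent.Helper34.SQ

noncomputable section

open Finset MvPolynomial

/-- sums over embeddings are polynomials in the power sums. -/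
theorem sum_emb_mem {R : Type*} [CommRing R] [Algebra ℂ R] (n : ℕ) (M : Submonoid (Fin n → R))
    (k : ℕ) : ∀ u : Fin k → Fin n → R, (∀ j, u j ∈ M) →
      ∑ φ : Fin k ↪ Fin n, ∏ j, u j (φ j) ∈
        Algebra.adjoin ℂ {z : R | ∃ v ∈ M, z = ∑ i, v i} := by
  classical
  induction k with
  | zero =>
    intro u _
    have h : ∑ φ : Fin 0 ↪ Fin n, ∏ j, u j (φ j) = 1 := by
      rw [Fintype.sum_unique]
      simp
    rw [h]
    exact Subalgebra.one_mem _
  | succ k ih =>
    intro u hu
    have key : ∑ φ : Fin (k + 1) ↪ Fin n, ∏ j, u j (φ j) =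
        (∑ i, u 0 i) * (∑ e : Fin k ↪ Fin n, ∏ j : Fin k, u j.succ (e j)) -
          ∑ j0 : Fin k, ∑ e : Fin k ↪ Fin n, ∏ j : Fin k,
            (Function.update (fun j : Fin k => u j.succ) j0 (u j0.succ * u 0)) j (e j) := by
      rw [← (Equiv.embeddingFinSucc k (Fin n)).symm.sum_comp, Fintype.sum_sigma]
      have h1 : ∀ e : Fin k ↪ Fin n,
          ∑ i : {i // i ∉ Set.range e},
            ∏ j, u j ((Equiv.embeddingFinSucc k (Fin n)).symm ⟨e, i⟩ j) =
          (∑ i, u 0 i) * (∏ j : Fin k, u j.succ (e j)) -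
            ∑ j0 : Fin k, u 0 (e j0) * (∏ j : Fin k, u j.succ (e j)) := by
        intro e
        have h2 : ∀ i : {i // i ∉ Set.range e},
            ∏ j, u j ((Equiv.embeddingFinSucc k (Fin n)).symm ⟨e, i⟩ j) =
            u 0 i * ∏ j : Fin k, u j.succ (e j) := by
          intro i
          rw [Fin.prod_univ_succ]
          have h3 := Equiv.coe_embeddingFinSucc_symm (⟨e, i⟩ : Σ (e : Fin k ↪ Fin n), {i // i ∉ Set.range e})
          rw [h3]
          simp
        rw [Finset.sum_congr rfl fun i _ => h2 i, ← Finset.sum_mul, ← Finset.sum_mul, ← sub_mul]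
        congr 1
        have h4 : ∑ i : {i // i ∉ Set.range e}, u 0 i =
            ∑ i ∈ Finset.univ.filter (fun i => i ∉ Set.range e), u 0 i := by
          rw [Finset.sum_subtype (p := fun i => i ∉ Set.range e)]
          intro i
          simp
        have h5 : ∑ i ∈ Finset.univ.filter (fun i => i ∈ Set.range e), u 0 i =
            ∑ j0 : Fin k, u 0 (e j0) := by
          have h6 : (Finset.univ.filter fun i => i ∈ Set.range e) = Finset.univ.map e := by
            ext i
            simp
          rw [h6, Finset.sum_map]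
        rw [h4, ← h5, ← Finset.sum_filter_add_sum_filter_not Finset.univ
          (fun i => i ∈ Set.range e)]
        ring
      rw [Finset.sum_congr rfl fun e _ => h1 e, Finset.sum_sub_distrib, ← Finset.mul_sum,
        Finset.sum_comm]
      congr 1
      refine Finset.sum_congr rfl fun j0 _ => Finset.sum_congr rfl fun e _ => ?_
      rw [← Finset.mul_prod_erase Finset.univ _ (Finset.mem_univ j0),
        ← Finset.mul_prod_erase Finset.univ
          (fun j => (Function.update (fun j : Fin k => u j.succ) j0 (u j0.succ * u 0)) j (e j))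
          (Finset.mem_univ j0), Function.update_self, Pi.mul_apply]
      have h7 : ∏ j ∈ Finset.univ.erase j0,
          (Function.update (fun j : Fin k => u j.succ) j0 (u j0.succ * u 0)) j (e j) =
          ∏ j ∈ Finset.univ.erase j0, u j.succ (e j) := by
        refine Finset.prod_congr rfl fun j hj => ?_
        rw [Function.update_of_ne (Finset.ne_of_mem_erase hj)]
      rw [h7]
      ring
    rw [key]
    refine Subalgebra.sub_mem _ (Subalgebra.mul_mem _ ?_ ?_) (Subalgebra.sum_mem _ fun j0 _ => ?_)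
    · exact Algebra.subset_adjoin ⟨u 0, hu 0, rfl⟩
    · exact ih (fun j => u j.succ) fun j => hu _
    · refine ih _ fun j => ?_
      by_cases h : j = j0
      · subst h
        rw [Function.update_self]
        exact M.mul_mem (hu _) (hu _)
      · rw [Function.update_of_ne h]
        exact hu _

/-- the polynomials in `x_1..x_n` (`Sum.inl`) and `y_1..y_n` (`Sum.inr`). -/
abbrev Pxy (n : ℕ) : Type := MvPolynomial (Fin n ⊕ Fin n) ℂ

/-- the power sums. -/
def pw (n a b : ℕ) : Pxy n := ∑ i : Fin n, X (Sum.inl i) ^ a * X (Sum.inr i) ^ b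

theorem rename_monomial_perm (n : ℕ) (σ : Equiv.Perm (Fin n)) (d : (Fin n ⊕ Fin n) →₀ ℕ) :
    rename (Sum.map σ σ) (monomial d (1 : ℂ)) =
      ∏ i : Fin n, X (Sum.inl (σ i)) ^ d (Sum.inl i) * X (Sum.inr (σ i)) ^ d (Sum.inr i) := by
  rw [monomial_eq, C_1, one_mul, Finsupp.prod_fintype _ _ (fun i => pow_zero _), map_prod,
    Fintype.prod_sum_type, Finset.prod_mul_distrib]
  simp only [map_pow, rename_X, Sum.map_inl, Sum.map_inr]

/-- **Weyl's theorem**. -/
theorem weyl (n : ℕ) (f : Pxy n)
    (hf : ∀ σ : Equiv.Perm (Fin n), rename (Sum.map σ σ) f = f) :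
    f ∈ Algebra.adjoin ℂ {z : Pxy n | ∃ a b : ℕ, z = pw n a b} := by
  classical
  -- the monoid of the functions `i ↦ x_i ^ a y_i ^ b`
  let M : Submonoid (Fin n → Pxy n) :=
    { carrier := {v | ∃ a b : ℕ, v = fun i => X (Sum.inl i) ^ a * X (Sum.inr i) ^ b}
      one_mem' := ⟨0, 0, by funext i; simp⟩
      mul_mem' := by
        rintro _ _ ⟨a, b, rfl⟩ ⟨a', b', rfl⟩
        exact ⟨a + a', b + b', by funext i; simp only [Pi.mul_apply, pow_add]; ring⟩ }
  have hM : {z : Pxy n | ∃ v ∈ M, z = ∑ i, v i} ⊆ {z : Pxy n | ∃ a b : ℕ, z = pw n a b} := by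
    rintro z ⟨v, ⟨a, b, rfl⟩, rfl⟩
    exact ⟨a, b, rfl⟩
  have hsym : ∀ d : (Fin n ⊕ Fin n) →₀ ℕ,
      ∑ σ : Equiv.Perm (Fin n), rename (Sum.map σ σ) (monomial d (1 : ℂ)) ∈
        Algebra.adjoin ℂ {z : Pxy n | ∃ a b : ℕ, z = pw n a b} := by
    intro d
    have h1 := sum_emb_mem n M n
      (fun j i => X (Sum.inl i) ^ d (Sum.inl j) * X (Sum.inr i) ^ d (Sum.inr j))
      (fun j => ⟨_, _, rfl⟩)
    have h2 : ∑ φ : Fin n ↪ Fin n, ∏ j : Fin n,
        (X (Sum.inl (φ j)) ^ d (Sum.inl j) * X (Sum.inr (φ j)) ^ d (Sum.inr j) : Pxy n) =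
        ∑ σ : Equiv.Perm (Fin n), rename (Sum.map σ σ) (monomial d (1 : ℂ)) := by
      have hbij : Function.Bijective
          (fun σ : Equiv.Perm (Fin n) => (σ.toEmbedding : Fin n ↪ Fin n)) := by
        refine ⟨Equiv.toEmbedding_injective, fun φ => ?_⟩
        refine ⟨Equiv.ofBijective φ (Finite.injective_iff_bijective.1 φ.injective), ?_⟩
        ext i
        rfl
      rw [← hbij.sum_comp]
      refine Finset.sum_congr rfl fun σ _ => ?_
      rw [rename_monomial_perm]
      rfl
    rw [← h2]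
    exact Algebra.adjoin_mono hM h1
  have hcard : (Fintype.card (Equiv.Perm (Fin n)) : ℂ) ≠ 0 := by
    exact_mod_cast Fintype.card_ne_zero
  have h3 : (Fintype.card (Equiv.Perm (Fin n)) : ℂ) • f =
      ∑ σ : Equiv.Perm (Fin n), rename (Sum.map σ σ) f := by
    rw [Finset.sum_congr rfl fun σ _ => hf σ, Finset.sum_const, Finset.card_univ,
      Nat.cast_smul_eq_nsmul]
  have h4 : ∑ σ : Equiv.Perm (Fin n), rename (Sum.map σ σ) f =
      ∑ d ∈ f.support, coeff d f •
        ∑ σ : Equiv.Perm (Fin n), rename (Sum.map σ σ) (monomial d (1 : ℂ)) := by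
    have h5 : f = ∑ d ∈ f.support, coeff d f • monomial d (1 : ℂ) := by
      conv_lhs => rw [f.as_sum]
      refine Finset.sum_congr rfl fun d _ => ?_
      rw [smul_monomial, smul_eq_mul, mul_one]
    have h6 : ∀ σ : Equiv.Perm (Fin n), rename (Sum.map σ σ) f =
        ∑ d ∈ f.support, coeff d f • rename (Sum.map σ σ) (monomial d (1 : ℂ)) := by
      intro σ
      conv_lhs => rw [h5]
      rw [map_sum]
      exact Finset.sum_congr rfl fun d _ => map_smul _ _ _
    rw [Finset.sum_congr rfl fun σ _ => h6 σ, Finset.sum_comm]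
    exact Finset.sum_congr rfl fun d _ => (Finset.smul_sum).symm
  have h7 : f = (Fintype.card (Equiv.Perm (Fin n)) : ℂ)⁻¹ •
      ∑ d ∈ f.support, coeff d f •
        ∑ σ : Equiv.Perm (Fin n), rename (Sum.map σ σ) (monomial d (1 : ℂ)) := by
    rw [← h4, ← h3, smul_smul, inv_mul_cancel₀ hcard, one_smul]
  rw [h7]
  exact Subalgebra.smul_mem _ (Subalgebra.sum_mem _ fun d _ => Subalgebra.smul_mem _ (hsym d) _) _

/-- modulo an ideal containing all `pw n a b - c (a, b)`, every invariant is a constant. -/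
theorem weyl_mem (n : ℕ) (ev : Pxy n →ₐ[ℂ] ℂ) (I : Ideal (Pxy n))
    (hI : ∀ a b : ℕ, pw n a b - C (ev (pw n a b)) ∈ I) (f : Pxy n)
    (hf : ∀ σ : Equiv.Perm (Fin n), rename (Sum.map σ σ) f = f) : f - C (ev f) ∈ I := by
  have h := weyl n f hf
  clear hf
  induction h using Algebra.adjoin_induction with
  | mem z hz =>
    obtain ⟨a, b, rfl⟩ := hz
    exact hI a b
  | algebraMap r =>
    rw [AlgHom.commutes]
    have : (algebraMap ℂ (Pxy n)) r - C ((algebraMap ℂ ℂ) r) = 0 := by
      rw [MvPolynomial.algebraMap_eq]; simp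
    rw [this]
    exact I.zero_mem
  | add x y _ _ hx hy =>
    have e : x + y - C (ev (x + y)) = (x - C (ev x)) + (y - C (ev y)) := by
      rw [map_add, C_add]; ring
    rw [e]
    exact I.add_mem hx hy
  | mul x y _ _ hx hy =>
    have e : x * y - C (ev (x * y)) = y * (x - C (ev x)) + C (ev x) * (y - C (ev y)) := by
      rw [map_mul, C_mul]; ring
    rw [e]
    exact I.add_mem (I.mul_mem_left _ hx) (I.mul_mem_left _ hy)

end

end Pool.Agent.Helper34.SQ
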