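import Pool.Agent.Helper19.SQ.GoalsC
import Pool.Agent.Helper34.SQ.Weyl

/-!
Project SQ: `S_WEY` is `Helper34.SQ.weyl`.
-/

namespace Pool.Agent.Helper34.SQ

open Pool.Agent.Helper19.SQ

theorem sWEY : Pool.Agent.Helper19.SQ.S_WEY := fun n f hf => weyl n f hf

end Pool.Agent.Helper34.SQ
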