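import Mathlib

/-!
# MP_bb32d1_al, stage B: equivariant maps and duality

A finite group `G` acts on a finite set `Ω` and on a finite-dimensional space `V`.  If a space `U`
embeds in the `G`-equivariant maps `Ω → V*`, then `dim U ≤ dim (equivariant maps Ω → V)`.
-/

set_option autoImplicit false

namespace Pool.Agent.Helper34.SQ

noncomputable section

open Module

variable {G Ω V : Type*} [Group G] [MulAction G Ω] [AddCommGroup V] [Module ℂ V]

/-- the `G`-equivariant maps `Ω → V`. -/
def EqMaps (ρ : G →* (V →ₗ[ℂ] V)) (Ω : Type*) [MulAction G Ω] : Submodule ℂ (Ω → V) where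
  carrier := {f | ∀ (g : G) (x : Ω), f (g • x) = ρ g (f x)}
  add_mem' := by
    intro a b ha hb g x
    rw [Pi.add_apply, Pi.add_apply, ha g x, hb g x, map_add]
  zero_mem' := by
    intro g x
    rw [Pi.zero_apply, Pi.zero_apply, map_zero]
  smul_mem' := by
    intro c a ha g x
    rw [Pi.smul_apply, Pi.smul_apply, ha g x, map_smul]

theorem mem_EqMaps (ρ : G →* (V →ₗ[ℂ] V)) (f : Ω → V) :
    f ∈ EqMaps ρ Ω ↔ ∀ (g : G) (x : Ω), f (g • x) = ρ g (f x) := Iff.rfl

theorem finrank_le_EqMaps [Fintype G] [Fintype Ω] [FiniteDimensional ℂ V]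
    (ρ : G →* (V →ₗ[ℂ] V)) {U : Type*} [AddCommGroup U] [Module ℂ U]
    (Φ : U →ₗ[ℂ] (Ω → V →ₗ[ℂ] ℂ)) (hinj : Function.Injective Φ)
    (heq : ∀ (u : U) (g : G) (x : Ω) (v : V), Φ u (g • x) (ρ g v) = Φ u x v) :
    finrank ℂ U ≤ finrank ℂ (EqMaps ρ Ω) := by
  classical
  -- the pairing
  let P : U →ₗ[ℂ] Module.Dual ℂ (EqMaps ρ Ω) :=
    { toFun := fun u =>
        { toFun := fun f => ∑ x, Φ u x (f.1 x)
          map_add' := fun f f' => by
            simp only [Submodule.coe_add, Pi.add_apply, map_add, Finset.sum_add_distrib]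
          map_smul' := fun c f => by
            simp only [Submodule.coe_smul, Pi.smul_apply, map_smul, Finset.smul_sum,
              RingHom.id_apply] }
      map_add' := fun u u' => by
        ext f
        simp only [map_add, Pi.add_apply, LinearMap.add_apply, LinearMap.coe_mk, AddHom.coe_mk,
          Finset.sum_add_distrib]
      map_smul' := fun c u => by
        ext f
        simp only [map_smul, Pi.smul_apply, LinearMap.smul_apply, LinearMap.coe_mk,
          AddHom.coe_mk, Finset.smul_sum, RingHom.id_apply] }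
  have hP : ∀ u f, P u f = ∑ x, Φ u x (f.1 x) := fun u f => rfl
  have hPinj : Function.Injective P := by
    rw [injective_iff_map_eq_zero]
    intro u hu
    apply hinj
    rw [map_zero]
    funext x0
    ext v
    -- the averaged function
    let f : Ω → V := fun x => ∑ g : G, if g • x0 = x then ρ g v else 0
    have hf : f ∈ EqMaps ρ Ω := by
      intro h x
      change (∑ g : G, if g • x0 = h • x then ρ g v else 0) =
        ρ h (∑ g : G, if g • x0 = x then ρ g v else 0)
      rw [map_sum, ← Equiv.sum_comp (Equiv.mulLeft h) fun g => if g • x0 = h • x then ρ g v else 0]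
      refine Finset.sum_congr rfl fun g _ => ?_
      simp only [Equiv.coe_mulLeft, mul_smul, smul_left_cancel_iff, map_mul]
      split_ifs
      · rfl
      · rw [map_zero]
    have h1 := LinearMap.congr_fun hu ⟨f, hf⟩
    rw [hP] at h1
    have h2 : ∀ x, Φ u x (f x) = ∑ g : G, if g • x0 = x then Φ u x (ρ g v) else 0 := by
      intro x
      change Φ u x (∑ g : G, if g • x0 = x then ρ g v else 0) = _
      rw [map_sum]
      refine Finset.sum_congr rfl fun g _ => ?_
      split_ifs
      · rfl
      · rw [map_zero]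
    have h3 : ∑ x, Φ u x (f x) = (Fintype.card G : ℂ) * Φ u x0 v := by
      rw [Finset.sum_congr rfl fun x _ => h2 x, Finset.sum_comm]
      have h4 : ∀ g : G, (∑ x, if g • x0 = x then Φ u x (ρ g v) else 0) = Φ u x0 v := by
        intro g
        rw [Finset.sum_ite_eq Finset.univ (g • x0) fun x => Φ u x (ρ g v), if_pos
          (Finset.mem_univ _), heq]
      rw [Finset.sum_congr rfl fun g _ => h4 g, Finset.sum_const, Finset.card_univ, nsmul_eq_mul]
    rw [h3] at h1
    have hG : (Fintype.card G : ℂ) ≠ 0 := by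
      exact_mod_cast Fintype.card_ne_zero
    rcases mul_eq_zero.1 h1 with h5 | h5
    · exact absurd h5 hG
    · rw [h5]; rfl
  have : FiniteDimensional ℂ (EqMaps ρ Ω) := inferInstance
  calc finrank ℂ U ≤ finrank ℂ (Module.Dual ℂ (EqMaps ρ Ω)) :=
        LinearMap.finrank_le_finrank_of_injective hPinj
    _ = finrank ℂ (EqMaps ρ Ω) := Subspace.dual_finrank_eq

end

end Pool.Agent.Helper34.SQ
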