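import Pool.Agent.Helper19.SQ.Defs2
import Pool.Agent.Helper34.SQ.GoalsT0
import Pool.Agent.Helper34.SQ.GoalsG

/-!
Project SQ (MP_bb32d1_al), section 12 (graded modules): definitions and goals.

A graded module is a finite dimensional `A`-module `M` with an operator `Θ`,
`Θ (a m) = φ(a) Θ m`, `φ = tor s`, `s` generic, which is the sum of the eigenspaces
`M_μ = {Θ = s^μ}`, `μ ∈ ℤ^n`, on which `K_j = q^{μ_j}`.
-/

set_option autoImplicit false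
set_option linter.unusedSectionVars false

namespace Pool.Agent.Helper34.SQ

noncomputable section

open Finset Matrix Pool.Agent.Helper19.SQ

/-- `ρ'_j = j`. -/
def rhoP (N : ℕ) : Fin (N + 1) → ℤ := fun j => ((j : ℕ) : ℤ)

/-- the positive roots. -/
def phiP (N : ℕ) : Finset (Fin (N + 1) × Fin (N + 1)) := {p | p.1 < p.2}

/-- the sum of the roots in `S`. -/
def sumP {N : ℕ} (S : Finset (Fin (N + 1) × Fin (N + 1))) : Fin (N + 1) → ℤ :=
  ∑ p ∈ S, (Pi.single p.1 1 - Pi.single p.2 1)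

/-- the weight of the monomial `E^b`. -/
def wtE (N : ℕ) (b : ℕ → ℕ → ℕ) : Fin (N + 1) → ℤ := fun p =>
  ∑ j ∈ range (N + 1), (b p j : ℤ) - ∑ i ∈ range (N + 1), (b i p : ℤ)

/-- the linear form which is positive on the positive roots. -/
def hf (N : ℕ) (μ : Fin (N + 1) → ℤ) : ℤ := ∑ j : Fin (N + 1), ((N : ℤ) - ((j : ℕ) : ℤ)) * μ j

/-- `β_M(x) = ∑_{S ⊆ Φ⁺} (-1)^{|S|} dim M_{x + ρ' + ∑_S α}` for the function `dm` of dimensions. -/
def bt {N : ℕ} (dm : (Fin (N + 1) → ℤ) → ℤ) : (Fin (N + 1) → ℤ) → ℤ := fun x =>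
  ∑ S ∈ (phiP N).powerset, (-1) ^ S.card * dm (x + rhoP N + sumP S)

section mods

variable {N l : ℕ} {q : ℂ}

/-- the dimension of the eigenspace `M_μ`. -/
def dmM (N : ℕ) (s : ℕ → ℂˣ) {M : Type} [AddCommGroup M] [Module ℂ M] (Θ : M →ₗ[ℂ] M) :
    (Fin (N + 1) → ℤ) → ℤ := fun μ =>
  (Module.finrank ℂ (Module.End.eigenspace Θ (tw N s μ)) : ℤ)

/-- a graded module. -/
structure GM (hl : l ≠ 0) (s : ℕ → ℂˣ) (M : Type) [AddCommGroup M] [Module ℂ M]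
    [Module (A N l q) M] [IsScalarTower ℂ (A N l q) M] (Θ : M →ₗ[ℂ] M) : Prop where
  fd : FiniteDimensional ℂ M
  eq : ∀ (a : A N l q) (m : M), Θ (a • m) = tor N l q hl s a • Θ m
  sup : ⨆ μ : Fin (N + 1) → ℤ, Module.End.eigenspace Θ (tw N s μ) = ⊤
  wt : ∀ (μ : Fin (N + 1) → ℤ) (m : M), m ∈ Module.End.eigenspace Θ (tw N s μ) →
    ∀ j : Fin (N + 1), gK N l q j • m = (q ^ μ j : ℂ) • m

/-- the standing situation of section 12. -/
structure Sett (N l : ℕ) [NeZero l] (q : ℂ) (hl : l ≠ 0) (s : ℕ → ℂˣ) (D : Dl N l q)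
    (C : Core (A N l q) (Fin (N + 1)) l) : Prop where
  par : Par N l q
  gen : Function.Injective (tw N s)
  c0 : IsC0 D hl s C.toCore0
  fd : FiniteDimensional ℂ (A N l q)
  /-- `e_m v = [ty lam = m] v` for singular `v`. -/
  ev : ∀ (M : Type) [AddCommGroup M] [Module ℂ M] [Module (A N l q) M]
    [IsScalarTower ℂ (A N l q) M] (lam : Fin (N + 1) → ZMod l) (m : ZMod l → ℤ) (v : M),
    Sing q lam v → C.e m • v = if Pool.Agent.Helper19.SQ.ty lam = m then v else 0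
  /-- ZB: the `F^a 1` are a basis of `Z(lam)`. -/
  zb : ∀ lam : Fin (N + 1) → ZMod l,
    LinearIndependent ℂ (fun a : EX N l => mon N q (gF N l q) a.1 • zgen q lam) ∧
    Submodule.span ℂ (Set.range fun a : EX N l => mon N q (gF N l q) a.1 • zgen q lam) = ⊤
  /-- TRI: the `F^a K^κ E^b` span `A`. -/
  tri : ∀ x : A N l q, x ∈ Submodule.span ℂ {y | ∃ (a b : EX N l) (κ : ℕ → ℕ),
      (∀ j, κ j < l) ∧ y = mon N q (gF N l q) a.1 *
        ((List.range (N + 1)).map fun j => gK N l q j ^ κ j).prod * mon N q (gE N l q) b.1}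

end mods

/-- the reduction of an integral weight modulo `l`. -/
def rd {N : ℕ} (l : ℕ) (μ : Fin (N + 1) → ℤ) : Fin (N + 1) → ZMod l := fun j => (μ j : ZMod l)

/-- **TYR** (the two definitions of the type).  `ty (rd μ) = ty l (μ - ρ')`.

PROOF. `xl (rd μ) j = μ_j - j` in `ZMod l`; both sides count the `j` with `μ_j - j ≡ c`.
(`Pool.Agent.Helper19.SQ.ty` and `Pool.Agent.Helper34.SQ.ty`.) -/
def S_TYR : Prop :=
  ∀ (N l : ℕ) [NeZero l] (μ : Fin (N + 1) → ℤ),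
    Pool.Agent.Helper19.SQ.ty (rd l μ) = ty l (μ - rhoP N)

/-- **GADD** (kernel and image of a homomorphism of graded modules).

PROOF. `f` is surjective, `A`-linear and `f Θ = Θ'' f`.  `Θ` is diagonalizable (`sup`), so it is
diagonalizable on the `Θ`-stable subspace `ker f` and on `M''`; eigenspaces: `f` maps
`M_μ` onto `M''_μ` (write a preimage as the sum of its eigencomponents; distinct `μ` have distinct
eigenvalues `tw N s μ` because `tw N s` is injective), with kernel `(ker f)_μ`.  So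
`dim M_μ = dim (ker f)_μ + dim M''_μ` (`LinearMap.finrank_range_add_finrank_ker`).  The other
properties are inherited.  `Θk` is the restriction of `Θ` to `ker f`. -/
def S_GADD : Prop :=
  ∀ (N l : ℕ) (q : ℂ) (hl : l ≠ 0) (s : ℕ → ℂˣ), Function.Injective (tw N s) →
  ∀ (M M'' : Type) [AddCommGroup M] [Module ℂ M] [Module (A N l q) M]
    [IsScalarTower ℂ (A N l q) M] [AddCommGroup M''] [Module ℂ M''] [Module (A N l q) M'']
    [IsScalarTower ℂ (A N l q) M''] (Θ : M →ₗ[ℂ] M) (Θ'' : M'' →ₗ[ℂ] M'')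
    (f : M →ₗ[A N l q] M''), GM (N := N) (q := q) hl s M Θ → Function.Surjective f →
    (∀ m, f (Θ m) = Θ'' (f m)) →
    GM (N := N) (q := q) hl s M'' Θ'' ∧
    ∃ Θk : LinearMap.ker f →ₗ[ℂ] LinearMap.ker f, (∀ m, (Θk m : M) = Θ m) ∧
      GM (N := N) (q := q) hl s (LinearMap.ker f) Θk ∧
      ∀ μ, dmM N s Θ μ = dmM N s Θk μ + dmM N s Θ'' μ

/-- **GSUB** (a `Θ`-stable submodule, given as the range of a homomorphism).

PROOF. As GADD: the map `M → M ⧸ W` is surjective with kernel `W` (so this is GADD for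
`W.mkQ`, up to the identification of `ker` with `W`), or directly. -/
def S_GSUB : Prop :=
  ∀ (N l : ℕ) (q : ℂ) (hl : l ≠ 0) (s : ℕ → ℂˣ), Function.Injective (tw N s) →
  ∀ (M : Type) [AddCommGroup M] [Module ℂ M] [Module (A N l q) M]
    [IsScalarTower ℂ (A N l q) M] (Θ : M →ₗ[ℂ] M) (W : Submodule (A N l q) M),
    GM (N := N) (q := q) hl s M Θ → (∀ m ∈ W, Θ m ∈ W) →
    ∃ (Θw : W →ₗ[ℂ] W) (Θq : (M ⧸ W) →ₗ[ℂ] (M ⧸ W)), (∀ m, (Θw m : M) = Θ m) ∧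
      (∀ m : M, Θq (Submodule.Quotient.mk m) = Submodule.Quotient.mk (Θ m)) ∧
      GM (N := N) (q := q) hl s W Θw ∧ GM (N := N) (q := q) hl s (M ⧸ W) Θq ∧
      ∀ μ, dmM N s Θ μ = dmM N s Θw μ + dmM N s Θq μ

/-- **ZGM** (the graded module `Z(μ)`, `μ ∈ ℤ^n`).

PROOF (hypothesis: `Sett`).  `Θ` is induced by `a ↦ s^μ φ(a)` on `A`, which preserves the left ideal
`Jl q (rd μ)` (`tor_E`, `tor_K`).  `F^a 1` is an eigenvector of `Θ` with the eigenvalue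
`s^(μ - wtE a)` (`tor` multiplies `F^a` by `tw N s (-wtE a)`: root vectors, `rvA_scale`), and
`K_j F^a 1 = q^{(μ - wtE a)_j} F^a 1` (relations `KF`; for `1`: `qz q (μ_j) = q^{μ_j}` since `q^l = 1`).
By ZB these form a basis, so `Z = ⊕ Z_ν` and `dim Z_ν` is the number of the `a` with
`μ - wtE a = ν` (`tw N s` injective). -/
def S_ZGM : Prop :=
  ∀ (N l : ℕ) [NeZero l] (q : ℂ) (hl : l ≠ 0) (s : ℕ → ℂˣ) (D : Dl N l q)
    (C : Core (A N l q) (Fin (N + 1)) l), Sett N l q hl s D C → ∀ μ : Fin (N + 1) → ℤ,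
    ∃ Θ : Zl (N := N) q (rd l μ) →ₗ[ℂ] Zl (N := N) q (rd l μ),
      GM (N := N) (q := q) hl s (Zl (N := N) q (rd l μ)) Θ ∧
      (∀ a : A N l q, Θ (a • zgen q (rd l μ)) = tw N s μ • (tor N l q hl s a • zgen q (rd l μ))) ∧
      ∀ ν, dmM N s Θ ν = #{a : EX N l | μ - wtE N a.1 = ν}

/-- **COMB** (the character of `Z(μ)`; pure combinatorics).

PROOF.  Work in the group algebra `R = AddMonoidAlgebra ℤ (Fin (N+1) → ℤ)` and write `X^ν` for
`single ν 1`.  `∑_S (-1)^|S| X^(sumP S) = ∏_{α ∈ Φ⁺} (1 - X^α)` (`Finset.prod_one_sub...` or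
`Finset.prod_add`), `∑_{a ∈ EX} X^(wtE a) = ∏_{α ∈ Φ⁺} (∑_{c < l} X^(c α))` (an element of `EX N l` is
a function `Φ⁺ → {0, .., l-1}`; `Finset.prod_univ_sum`).  The product is `∏_α (1 - X^(l α))`
(`(1 - y) ∑_{c<l} y^c = 1 - y^l`), whose support consists of elements of `l ℤ^n`.  The number in
the statement is the coefficient of `X^ν` in this product. -/
def S_COMB : Prop :=
  ∀ (N l : ℕ) (ν : Fin (N + 1) → ℤ), 0 < l →
    (∑ S ∈ (phiP N).powerset, (-1 : ℤ) ^ S.card * #{a : EX N l | wtE N a.1 + sumP S = ν}) ≠ 0 →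
    ∀ p, (l : ℤ) ∣ ν p

/-- **BZ** (`β` of `Z(μ)`).  PROOF (from ZGM, COMB, TYR): `bt (dmM Θ) x` is the number in COMB with
`ν = μ - ρ' - x` (`μ - wtE a = x + ρ' + sumP S` iff `wtE a + sumP S = μ - ρ' - x`); if it is not `0`
then `x ≡ μ - ρ'` modulo `l` in all coordinates, so `ty l x = ty l (μ - ρ')`. -/
def S_BZ : Prop :=
  ∀ (N l : ℕ) [NeZero l] (μ x : Fin (N + 1) → ℤ) (dm : (Fin (N + 1) → ℤ) → ℤ),
    (∀ ν, dm ν = #{a : EX N l | μ - wtE N a.1 = ν}) → bt dm x ≠ 0 →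
    ty l x = ty l (μ - rhoP N)

/-- **FSUPP**.

PROOF (from GADD, GSUB, ZGM, BZ, TYR).  Fix `x` with `ty l x = m`, `f₀ = hf (x + ρ')`.  `hf` of a
positive root `(i, j)` is `j - i > 0`.  `S(k)`: for every graded `M` with `e_m M = 0` all whose weights
`ν` (`dmM ν ≠ 0`) satisfy `hf ν < f₀ + k`, `bt x = 0`.  `S(0)`: all the weights `x + ρ' + sumP S` in
`bt` have `hf ≥ f₀`.  `S(k) → S(k+1)`: by induction on `dim M` (all `M` with all weights
`hf ν < f₀ + k + 1`; a GM is finite dimensional).  If no weight has `hf ν = f₀ + k` use `S(k)`.  Otherwise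
take `y ≠ 0` in `M_ν`, `hf ν = f₀ + k`.  `E_i y` is in `M_(ν + α_i)` (`Θ E_i y = s_i s_(i+1)⁻¹ s^ν E_i y`),
`hf (ν + α_i) = f₀ + k + 1`, so `E_i y = 0`, and `K_j y = q^(ν_j) y`: `y` is singular of weight
`rd ν`.  As `e_m y = 0`, `y ≠ 0`: `ty (rd ν) ≠ m` (`ev`), i.e. `ty l (ν - ρ') ≠ m`.  Let
`g : Z(ν) → M`, `g (a 1) = a y` (universal property: `Jl` kills `y`), it commutes with `Θ_Z` (ZGM) and
`Θ`.  GADD for `Z(ν) → range g`: `bt_Z = bt_(ker g) + bt_(range g)` (`bt` is additive in `dm`).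
`bt_Z (x) = 0` (BZ).  The weights of `ker g` are weights of `Z(ν)`: `ν - wtE a`; `hf (wtE a) ≥ 0`
with equality only for `a = 0`, and the weight `ν` does not occur in `ker g` (`Z_ν = ℂ 1`, and
`g 1 = y ≠ 0`; `dim Z_ν = 1 = dim (ker g)_ν + dim (range g)_ν`), so all weights of `ker g` have
`hf < f₀ + k`; `e_m` kills `Z(ν)` (central, kills the generator by `ev`), so `S(k)` gives
`bt_(ker g) (x) = 0`.  Hence `bt_(range g) (x) = 0`.  `M ⧸ range g` (GSUB) is killed by `e_m`, its weights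
are weights of `M`, its dimension is smaller: `bt (x) = 0` by the inner induction.  GSUB:
`bt_M = bt_(range g) + bt_(M/range g)`.  Finally every `M` satisfies the hypothesis for some `k`
(finitely many weights: eigenvalues of `Θ`, `tw N s` injective). -/
def S_FSUPP : Prop :=
  ∀ (N l : ℕ) [NeZero l] (q : ℂ) (hl : l ≠ 0) (s : ℕ → ℂˣ) (D : Dl N l q)
    (C : Core (A N l q) (Fin (N + 1)) l), Sett N l q hl s D C →
  ∀ (M : Type) [AddCommGroup M] [Module ℂ M] [Module (A N l q) M]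
    [IsScalarTower ℂ (A N l q) M] (Θ : M →ₗ[ℂ] M), GM (N := N) (q := q) hl s M Θ →
  ∀ m : ZMod l → ℤ, (∀ x : M, C.e m • x = 0) → ∀ x, ty l x = m → bt (dmM N s Θ) x = 0

/-- **TEN** (the tensor products with `V` and `V*`).

PROOF.  On `Ten D.dl M` put `(Θ' f)_p = s_p Θ(f_p)`: `Θ'(a f)_i = s_i ∑_j φ(δ(a)_ij) Θ f_j` and
`(φ(a) Θ' f)_i = ∑_j δ(φ a)_ij s_j Θ f_j`, `δ(φ a)_ij = s_i s_j⁻¹ φ(δ(a)_ij)` (`φδ` of `Core0`, with
`IsC0`).  The eigenspace at `s^μ` is the set of the `f` with `f_p ∈ M_(μ - ε_p)`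
(`tw N s μ = s_p tw N s (μ - ε_p)`), so its dimension is `∑_p dim M_(μ - ε_p)` and the eigenspaces
span; `K_i` acts on `v_j (x) m` by `q^[i = j] K_i` (`dl_K`, `dK`).  On `Ten D.ep M` put
`(Θ' f)_p = s_p⁻¹ Θ(f_p)`, the same with `φε`, `M_(μ + ε_p)` and `eK`. -/
def S_TEN : Prop :=
  ∀ (N l : ℕ) [NeZero l] (q : ℂ) (hl : l ≠ 0) (s : ℕ → ℂˣ) (D : Dl N l q)
    (C : Core (A N l q) (Fin (N + 1)) l), Sett N l q hl s D C →
  ∀ (M : Type) [AddCommGroup M] [Module ℂ M] [Module (A N l q) M]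
    [IsScalarTower ℂ (A N l q) M] (Θ : M →ₗ[ℂ] M), GM (N := N) (q := q) hl s M Θ →
    (∃ Θ' : Ten D.dl M →ₗ[ℂ] Ten D.dl M, GM (N := N) (q := q) hl s (Ten D.dl M) Θ' ∧
      ∀ μ, dmM N s Θ' μ = ∑ p, dmM N s Θ (μ - Pi.single p 1)) ∧
    ∃ Θ' : Ten D.ep M →ₗ[ℂ] Ten D.ep M, GM (N := N) (q := q) hl s (Ten D.ep M) Θ' ∧
      ∀ μ, dmM N s Θ' μ = ∑ p, dmM N s Θ (μ + Pi.single p 1)

/-- `β ∈ G(m, I)`. -/
def GG {N l : ℕ} {q : ℂ} (hl : l ≠ 0) (s : ℕ → ℂˣ) (C : Core (A N l q) (Fin (N + 1)) l)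
    (m : ZMod l → ℤ) (I : Submodule ℂ (A N l q)) (β : (Fin (N + 1) → ℤ) → ℤ) : Prop :=
  ∃ (M : Type) (_ : AddCommGroup M) (_ : Module ℂ M) (_ : Module (A N l q) M)
    (_ : IsScalarTower ℂ (A N l q) M) (Θ : M →ₗ[ℂ] M), GM (N := N) (q := q) hl s M Θ ∧
    (∀ x : M, C.e m • x = x) ∧ (∀ a ∈ I, ∀ x : M, a • x = 0) ∧ β = bt (dmM N s Θ)

/-- **GSUP**: `β ∈ G(m, I)` has finite support, contained in `ty = m`.

PROOF (from FSUPP). Finite support: `dmM` has finite support (finitely many eigenvalues) and so has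
`bt`.  If `ty l x ≠ m` then `e_(ty x) M = e_(ty x) e_m M = 0` (`e_orth`), so `β(x) = 0` by FSUPP. -/
def S_GSUP : Prop :=
  ∀ (N l : ℕ) [NeZero l] (q : ℂ) (hl : l ≠ 0) (s : ℕ → ℂˣ) (D : Dl N l q)
    (C : Core (A N l q) (Fin (N + 1)) l), Sett N l q hl s D C →
  ∀ (m : ZMod l → ℤ) (I : Submodule ℂ (A N l q)) (β : (Fin (N + 1) → ℤ) → ℤ),
    GG hl s C m I β → (Function.support β).Finite ∧ ∀ x, β x ≠ 0 → ty l x = m

/-- **G1**.

PROOF (from GSUB, FSUPP, TEN, GSUP). `T = Ten D.dl M` with `Θ'` (TEN), `e = e_(m-α)`, `α = al c`.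
`W = e T` is an `A`-submodule (`e` central), `Θ'`-stable (`φe`, `C.φ = tor`).  GSUB: `W` and `T ⧸ W` are
graded and `bt_T = bt_W + bt_(T/W)` (`bt` is additive in `dm`).  `e` acts on `W` as the identity, and
`a ∈ Fi c m I` kills `W`: `a t = (a e) t = ∑_j δ(a e)_ij t_j` and the entries of `δ(a e)` are in `I`
(`D.dl = C.δ`).  `e` kills `T ⧸ W`.  `bt_T (x) = ∑_p β(x - ε_p)` (TEN and the definition of `bt`).  If
`ty l x = m - α`: `bt_(T/W) (x) = 0` by FSUPP, so `bt_W (x) = ∑_p β(x - ε_p)`, and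
`β(x - ε_p) ≠ 0` implies `ty (x - ε_p) = m` (GSUP), where `ty (x - ε_p) = ty x + al (x_p - 1)`, so
`al (x_p - 1) = al c`, `x_p ≡ c + 1` (`l ≥ 3`: the `al c` are distinct): this is `Fc l c β x`.  If
`ty l x ≠ m - α`: `bt_W (x) = 0` (`e_(ty x)` kills `W`, FSUPP), and for `x_p ≡ c + 1`,
`ty (x - ε_p) = ty x + α ≠ m`, so `Fc l c β x = 0`. -/
def S_G1 : Prop :=
  ∀ (N l : ℕ) [NeZero l] (q : ℂ) (hl : l ≠ 0) (s : ℕ → ℂˣ) (D : Dl N l q)
    (C : Core (A N l q) (Fin (N + 1)) l), Sett N l q hl s D C →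
  ∀ (c : ZMod l) (m : ZMod l → ℤ) (I : Submodule ℂ (A N l q)) (β : (Fin (N + 1) → ℤ) → ℤ),
    GG hl s C m I β → GG hl s C (m - al c) (Fi C c m I) (Fc l c β)

/-- **G2**.

PROOF (from FSUPP, TEN, GSUP). `T = Ten D.ep M` (TEN).  `e_(m+α)` kills `T`: `(e t)_i = ∑_j ε(e)_ij t_j`
and `ε(e)_ij ∈ I`.  So for `ty l x = m + α`: `0 = bt_T (x) = ∑_p β(x + ε_p)` (FSUPP), and
`β(x + ε_p) ≠ 0` implies `ty (x + ε_p) = m`, where `ty (x + ε_p) = ty x - al (x_p)`, so `x_p ≡ c`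
(`l ≥ 3`): `Ec l c β x = 0`.  If `ty l x ≠ m + α`: for `x_p ≡ c`, `ty (x + ε_p) = ty x - α ≠ m`, so all
terms of `Ec l c β x` are `0`. -/
def S_G2 : Prop :=
  ∀ (N l : ℕ) [NeZero l] (q : ℂ) (hl : l ≠ 0) (s : ℕ → ℂˣ) (D : Dl N l q)
    (C : Core (A N l q) (Fin (N + 1)) l), Sett N l q hl s D C →
  ∀ (c : ZMod l) (m : ZMod l → ℤ) (I : Submodule ℂ (A N l q)) (β : (Fin (N + 1) → ℤ) → ℤ),
    GG hl s C m I β → (∀ i j, C.ε (C.e (m + al c)) i j ∈ I) → Ec l c β = 0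

/-- **G0**.

PROOF.  For `lam : Fin (N+1) → ZMod l` let `J_lam = I + ∑_j A (K_j - q^lam_j)` (a left ideal).
Some `J_lam ≠ A`: otherwise `1 = y + ∑ a_j (K_j - q^lam_j)`, multiply on the right by the
idempotent `1_lam = ∏_j (l⁻¹ ∑_(t<l) q^(-lam_j t) K_j^t)`, `(K_j - q^lam_j) 1_lam = 0`: `1_lam = y 1_lam ∈ I`
for all `lam`, and `∑ 1_lam = 1`, so `1 ∈ I`.  Take such a `lam`, `μ ∈ ℤ^n` with `rd μ = lam` and
`M = A ⧸ J_lam ≠ 0`, `Θ` induced by `a ↦ s^μ φ(a)` (`φ` preserves `I` and `K_j`).  By TRI, `M` is spanned by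
the classes of `F^a E^b` (`K^κ` acts on `E^b 1` by a scalar), which are eigenvectors of `Θ` for
`s^(μ + wtE b - wtE a)`, with `K_j = q^((μ + wtE b - wtE a)_j)`: `M` is graded (`wt` for a general
eigenvector: the eigenspace of `s^ν` is spanned by the `F^a E^b 1` with `μ + wtE b - wtE a = ν`,
as `tw N s` is injective).  `e_m` acts as `1` because `(1 - e_m) a ∈ I`, `I` kills `M` because
`I A ⊆ I`.  `β ≠ 0`: let `ν` be a weight of `M` with `hf ν` maximal; then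
`bt (ν - ρ') = ∑_S (-1)^|S| dim M_(ν + sumP S) = dim M_ν ≠ 0` (`hf (sumP S) > 0` for `S ≠ ∅`). -/
def S_G0 : Prop :=
  ∀ (N l : ℕ) [NeZero l] (q : ℂ) (hl : l ≠ 0) (s : ℕ → ℂˣ) (D : Dl N l q)
    (C : Core (A N l q) (Fin (N + 1)) l), Sett N l q hl s D C →
  ∀ (m : ZMod l → ℤ) (I : Submodule ℂ (A N l q)), TwoS I → (1 : A N l q) ∉ I →
    (∀ a ∈ I, tor N l q hl s a ∈ I) → 1 - C.e m ∈ I → ∃ β, β ≠ 0 ∧ GG hl s C m I β

/-- **MAIN12** (the induction step of section 13): if `Tr_ζ(m') = 0` for all `m'` with larger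
`∑ m'²` then a nonzero `τ ∈ Tr_ζ(m)` forces `m = n δ_c`.

PROOF (from STEP, G0, G1, G2, GSUP, CH, IDL). Let `τ ≠ 0`, and let `c` with `m_c` maximal.  `e_m ≠ 0`
(otherwise `τ = 0`), so `m ∈ types`.  Define recursively `m^0 = m`, `τ_0 = τ`,
`h_t = m^t_(c+t) - m^t_(c+t+1)` (a natural number), `τ_(t+1) = Ftn (c+t) m^t h_t τ_t`,
`m^(t+1) = m^t - h_t al (c+t)`.  By induction: `m^t_(c+t) = m_c ≥ m^t_x` for all `x`
(`m^(t+1)` is `m^t` with the values at `c+t`, `c+t+1` exchanged), `∑ (m^t)² = ∑ m²`, and STEP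
applies: `ε(e_(m^t + al (c+t)))_ij ∈ I_t = It τ_t`, `τ_(t+1) ∈ Tr_ζ(m^(t+1))`,
`I_(t+1)^(h_t!) ≤ Fin' (c+t) m^t h_t I_t`.  `I_0` is two-sided, contains `1 - e_m` (IDL), not `1`
(`τ ≠ 0`), and is `φ`-stable (`τ(φ(x) y) = ζ τ(x φ⁻¹(y))`, as `C.φ = tor`).  `β_0 ≠ 0` in `G(m, I_0)` (G0).
`β_(t+1) = (Fc (c+t))^(h_t) β_t`.  By induction there is `k_t ≥ 1` with `β_t ∈ G(m^t, I_t^(k_t))`:
G1 (`h_t` times) gives `β_(t+1) ∈ G(m^(t+1), Fin' (c+t) m^t h_t (I_t^(k_t)))`, and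
`Fin' (I^k) ≥ (Fin' I)^k ≥ (I_(t+1)^(h_t!))^k` (IDL; `G(m, I)` is decreasing in `I`).
`ε(e)` is idempotent, so its entries are in `I_t^(k_t)`: G2 gives `Ec (c+t) β_t = 0`.  CH: every `x` with
`β_0(x) ≠ 0` has all `x_p ≡ c`; there is one, and `ty l x = m` (GSUP), so
`m = fun x ↦ if x = c then N + 1 else 0`. -/
def S_MAIN12 : Prop :=
  ∀ (N l : ℕ) [NeZero l] (q : ℂ) (hl : l ≠ 0) (s : ℕ → ℂˣ) (D : Dl N l q)
    (C : Core (A N l q) (Fin (N + 1)) l), Sett N l q hl s D C →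
  ∀ (ζ : ℂ) (m : ZMod l → ℤ),
    (∀ m' : ZMod l → ℤ, ∑ x, m x ^ 2 < ∑ x, m' x ^ 2 → TrZero C ζ m') →
    ∀ τ : A N l q →ₗ[ℂ] ℂ, IsTrz C ζ m τ → τ ≠ 0 →
    ∃ c : ZMod l, m = fun x => if x = c then ((N : ℤ) + 1) else 0

end

end Pool.Agent.Helper34.SQ
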