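import Pool.Agent.Helper34.SQ.Fin0

/-!
Project SQ (MP_bb32d1_al), stage C (lower bound), helper34: FIN.  From the twisted characters
`Th` on an algebra `FB` over `DR n` with reduction `A`: `dim DRmaps ≤` the dimension of the space
of traces on `A`.
-/

set_option autoImplicit false
set_option linter.unusedSectionVars false

namespace Pool.Agent.Helper34.SQ

noncomputable section

open Pool.Agent.Helper19.SQ MvPolynomial

/-- the space of traces on `A`. -/
def Trs (A : Type) [Ring A] [Algebra ℂ A] : Submodule ℂ (A →ₗ[ℂ] ℂ) where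
  carrier := {τ | ∀ x y, τ (x * y) = τ (y * x)}
  add_mem' {a b} ha hb x y := by
    rw [LinearMap.add_apply, LinearMap.add_apply, ha x y, hb x y]
  zero_mem' x y := by rw [LinearMap.zero_apply, LinearMap.zero_apply]
  smul_mem' c a ha x y := by
    rw [LinearMap.smul_apply, LinearMap.smul_apply, ha x y]

theorem mem_Trs (A : Type) [Ring A] [Algebra ℂ A] (τ : A →ₗ[ℂ] ℂ) :
    τ ∈ Trs A ↔ ∀ x y, τ (x * y) = τ (y * x) := Iff.rfl

/-- the data of the lower bound. -/
structure LB (n l : ℕ) [NeZero l] (A FB : Type) [Ring A] [Algebra ℂ A] [Ring FB]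
    [Algebra (DR n) FB] where
  l3 : 3 ≤ l
  hn : n < l
  z : ZMod l → ℂ
  zinj : Function.Injective z
  z0 : ∀ a, z a ≠ 0
  ρ : ℂ
  zs : ∀ c, z (c + 1) = ρ * z c
  ρ1 : ρ ≠ 1
  κ : Fin n → DR n
  s : Fin n → DR n
  si : Fin n → DR n
  hκ : ∀ j, κ j = 1 + xq n j
  hs : ∀ j, s j = 1 + yq n j
  hsi : ∀ j, s j * si j = 1
  red : FB →+* A
  surj : Function.Surjective red
  red_alg : ∀ b : DR n, red (algebraMap (DR n) FB b) = algebraMap ℂ A (aug n b)
  Th : FB →ₗ[DR n] Tup n l (DR n)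
  fA : A → A
  eA : A → A
  cA : A
  fB : FB → FB
  eB : FB → FB
  cB : FB
  red_f : ∀ a, red (fB a) = fA (red a)
  red_e : ∀ a, red (eB a) = eA (red a)
  red_c : red cB = cA
  Th_f : ∀ a, Th (fB a) = fun x => ∑ j, s j * Th a (Function.update x j (x j + 1))
  Th_e : ∀ a, Th (eB a) = fun x => ∑ j, si j * Th a (Function.update x j (x j - 1))
  Th_c : ∀ a, Th (cB * a) = fun x => (∑ j, algebraMap ℂ (DR n) (z (x j)) * κ j ^ 2) * Th a x
  comm : ∀ a b, Th (a * b - b * a) ∈ (RingHom.ker (aug n)) • LinearMap.range Th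
  ker : ∀ a, red a = 0 → Th a ∈ (RingHom.ker (aug n)) • LinearMap.range Th
  D : DR n
  Th_one : Th 1 = fun _ => D
  hD : aug n D ≠ 0
  span : ∀ S : Submodule ℂ A, 1 ∈ S → (∀ a ∈ S, fA a ∈ S) → (∀ a ∈ S, eA a ∈ S) →
    (∀ a ∈ S, cA * a ∈ S) → ∀ τ : A →ₗ[ℂ] ℂ, (∀ x y, τ (x * y) = τ (y * x)) →
    (∀ a ∈ S, τ a = 0) → τ = 0

section

variable {n l : ℕ} [NeZero l] {A FB : Type} [Ring A] [Algebra ℂ A] [Ring FB] [Algebra (DR n) FB]
  (L : LB n l A FB)

theorem LB.rq_s (σ : Equiv.Perm (Fin n)) (j : Fin n) : rq σ (L.s j) = L.s (σ j) := by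
  rw [L.hs, L.hs, map_add, map_one, rq_yq]

theorem LB.rq_κ (σ : Equiv.Perm (Fin n)) (j : Fin n) : rq σ (L.κ j) = L.κ (σ j) := by
  rw [L.hκ, L.hκ, map_add, map_one, rq_xq]

theorem LB.rq_si (σ : Equiv.Perm (Fin n)) (j : Fin n) : rq σ (L.si j) = L.si (σ j) := by
  have h1 : rq σ (L.s j) * rq σ (L.si j) = 1 := by rw [← map_mul, L.hsi, map_one]
  rw [L.rq_s] at h1
  calc rq σ (L.si j) = (L.s (σ j) * L.si (σ j)) * rq σ (L.si j) := by rw [L.hsi, one_mul]
    _ = L.si (σ j) * (L.s (σ j) * rq σ (L.si j)) := by ring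
    _ = L.si (σ j) := by rw [h1, mul_one]

/-- the elements of `FB` whose character is `D w`, `w` equivariant. -/
def LB.good (a : FB) (w : Tup n l (DR n)) : Prop := w ∈ DRmaps n l ∧ L.Th a = L.D • w

theorem LB.good_one : L.good 1 1 := by
  refine ⟨one_mem_DRmaps, ?_⟩
  rw [L.Th_one]
  funext x
  rw [Pi.smul_apply, Pi.one_apply, smul_eq_mul, mul_one]

theorem LB.good_f {a : FB} {w : Tup n l (DR n)} (h : L.good a w) :
    L.good (L.fB a) (fun x => ∑ j, L.s j * w (Function.update x j (x j + 1))) := by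
  refine ⟨step_mem L.s L.rq_s 1 w h.1, ?_⟩
  rw [L.Th_f, h.2]
  funext x
  rw [Pi.smul_apply, smul_eq_mul, Finset.mul_sum]
  refine Finset.sum_congr rfl fun j _ => ?_
  rw [Pi.smul_apply, smul_eq_mul]
  ring

theorem LB.good_e {a : FB} {w : Tup n l (DR n)} (h : L.good a w) :
    L.good (L.eB a) (fun x => ∑ j, L.si j * w (Function.update x j (x j - 1))) := by
  refine ⟨?_, ?_⟩
  · have := step_mem L.si L.rq_si (-1) w h.1
    simpa only [← sub_eq_add_neg] using this
  rw [L.Th_e, h.2]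
  funext x
  rw [Pi.smul_apply, smul_eq_mul, Finset.mul_sum]
  refine Finset.sum_congr rfl fun j _ => ?_
  rw [Pi.smul_apply, smul_eq_mul]
  ring

theorem LB.good_c {a : FB} {w : Tup n l (DR n)} (h : L.good a w) :
    L.good (L.cB * a)
      (fun x => (∑ j, algebraMap ℂ (DR n) (L.z (x j)) * L.κ j ^ 2) * w x) := by
  refine ⟨mult_mem L.z L.κ L.rq_κ w h.1, ?_⟩
  rw [L.Th_c, h.2]
  funext x
  rw [Pi.smul_apply, Pi.smul_apply, smul_eq_mul, smul_eq_mul]
  ring

theorem LB.good_add {a b : FB} {v w : Tup n l (DR n)} (ha : L.good a v) (hb : L.good b w) :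
    L.good (a + b) (v + w) :=
  ⟨(DRmaps n l).add_mem ha.1 hb.1, by rw [map_add, ha.2, hb.2, smul_add]⟩

theorem LB.good_smul {a : FB} {v : Tup n l (DR n)} (c : ℂ) (ha : L.good a v) :
    L.good (algebraMap (DR n) FB (algebraMap ℂ (DR n) c) * a) (c • v) := by
  refine ⟨(DRmaps n l).smul_mem c ha.1, ?_⟩
  rw [← Algebra.smul_def, map_smul, ha.2]
  funext x
  have h : c • v x = algebraMap ℂ (DR n) c * v x := Algebra.smul_def c (v x)
  calc algebraMap ℂ (DR n) c * (L.D * v x) = L.D * (algebraMap ℂ (DR n) c * v x) := by ring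
    _ = L.D * (c • v x) := congrArg (fun t => L.D * t) h.symm

theorem LB.good_zero : L.good 0 0 :=
  ⟨(DRmaps n l).zero_mem, by rw [map_zero, smul_zero]⟩

/-- all equivariant functions occur. -/
theorem LB.good_all (w : Tup n l (DR n)) (hw : w ∈ DRmaps n l) : ∃ a, L.good a w := by
  let W : Submodule ℂ (Tup n l (DR n)) :=
    { carrier := {w | ∃ a, L.good a w}
      add_mem' := by
        rintro v w ⟨a, ha⟩ ⟨b, hb⟩
        exact ⟨a + b, L.good_add ha hb⟩
      zero_mem' := ⟨0, L.good_zero⟩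
      smul_mem' := by
        rintro c v ⟨a, ha⟩
        exact ⟨_, L.good_smul c ha⟩ }
  have h := model n l L.l3 L.hn L.z L.zinj L.z0 L.ρ L.zs L.ρ1 L.κ L.s L.si L.hκ L.hs L.hsi W
    ⟨1, L.good_one⟩ (fun u ⟨a, ha⟩ => ⟨_, L.good_f ha⟩) (fun u ⟨a, ha⟩ => ⟨_, L.good_e ha⟩)
    (fun u ⟨a, ha⟩ => ⟨_, L.good_c ha⟩)
  exact h hw

/-- the span over `DR n` of the `D w`. -/
def LB.N1 : Submodule (DR n) (Tup n l (DR n)) :=
  Submodule.span (DR n) {u | ∃ w ∈ DRmaps n l, u = L.D • w}

theorem LB.good_N1 {a : FB} {w : Tup n l (DR n)} (h : L.good a w) : L.Th a ∈ L.N1 :=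
  Submodule.subset_span ⟨w, h.1, h.2⟩

/-- one step: the characters are in `N1 + m L`. -/
theorem LB.range_le : LinearMap.range L.Th ≤
    L.N1 ⊔ (RingHom.ker (aug n)) • LinearMap.range L.Th := by
  set Q := L.N1 ⊔ (RingHom.ker (aug n)) • LinearMap.range L.Th with hQ
  -- the elements of `A` with a lift whose character is in `Q`
  let S2 : Submodule ℂ A :=
    { carrier := {a | ∃ b, L.red b = a ∧ L.Th b ∈ Q}
      add_mem' := by
        rintro a b ⟨a', ha, ha'⟩ ⟨b', hb, hb'⟩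
        exact ⟨a' + b', by rw [map_add, ha, hb], by rw [map_add]; exact Q.add_mem ha' hb'⟩
      zero_mem' := ⟨0, map_zero _, by rw [map_zero]; exact Q.zero_mem⟩
      smul_mem' := by
        rintro c a ⟨a', ha, ha'⟩
        refine ⟨algebraMap (DR n) FB (algebraMap ℂ (DR n) c) * a', ?_, ?_⟩
        · rw [map_mul, L.red_alg, AlgHom.commutes, ha, Algebra.smul_def]
          rfl
        · rw [← Algebra.smul_def, map_smul]
          exact Q.smul_mem _ ha' }
  let S1 : Submodule ℂ A :=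
    { carrier := {a | ∃ b w, L.red b = a ∧ L.good b w}
      add_mem' := by
        rintro a b ⟨a', w, ha, ha'⟩ ⟨b', w', hb, hb'⟩
        exact ⟨a' + b', w + w', by rw [map_add, ha, hb], L.good_add ha' hb'⟩
      zero_mem' := ⟨0, 0, map_zero _, L.good_zero⟩
      smul_mem' := by
        rintro c a ⟨a', w, ha, ha'⟩
        refine ⟨algebraMap (DR n) FB (algebraMap ℂ (DR n) c) * a', c • w, ?_, L.good_smul c ha'⟩
        rw [map_mul, L.red_alg, AlgHom.commutes, ha, Algebra.smul_def]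
        rfl }
  have h12 : S1 ≤ S2 := by
    rintro a ⟨b, w, hb, hw⟩
    exact ⟨b, hb, Submodule.mem_sup_left (L.good_N1 hw)⟩
  have hcomm : ∀ x y, x * y - y * x ∈ S2 := by
    intro x y
    obtain ⟨x', rfl⟩ := L.surj x
    obtain ⟨y', rfl⟩ := L.surj y
    exact ⟨x' * y' - y' * x', by rw [map_sub, map_mul, map_mul],
      Submodule.mem_sup_right (L.comm x' y')⟩
  have htop : S2 = ⊤ := by
    by_contra hne
    obtain ⟨τ, hτ, hker⟩ := Submodule.exists_le_ker_of_lt_top S2 (lt_top_iff_ne_top.2 hne)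
    apply hτ
    refine L.span S1 ⟨1, 1, map_one _, L.good_one⟩ ?_ ?_ ?_ τ ?_ ?_
    · rintro a ⟨b, w, rfl, hw⟩
      exact ⟨L.fB b, _, L.red_f b, L.good_f hw⟩
    · rintro a ⟨b, w, rfl, hw⟩
      exact ⟨L.eB b, _, L.red_e b, L.good_e hw⟩
    · rintro a ⟨b, w, rfl, hw⟩
      exact ⟨L.cB * b, _, by rw [map_mul, L.red_c], L.good_c hw⟩
    · intro x y
      have h := hker (hcomm x y)
      rw [LinearMap.mem_ker, map_sub, sub_eq_zero] at h
      exact h
    · intro a ha
      exact hker (h12 ha)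
  rintro u ⟨a, rfl⟩
  obtain ⟨b, hb, hbQ⟩ : L.red a ∈ S2 := by rw [htop]; exact Submodule.mem_top
  have h1 : L.Th (a - b) ∈ Q :=
    Submodule.mem_sup_right (L.ker (a - b) (by rw [map_sub, hb, sub_self]))
  have h2 := Q.add_mem h1 hbQ
  rwa [map_sub, sub_add_cancel] at h2

theorem iter_le {R M : Type*} [CommRing R] [AddCommGroup M] [Module R M] (I : Ideal R)
    (N P : Submodule R M) (k : ℕ) (hk : I ^ k = ⊥) (h : P ≤ N ⊔ I • P) : P ≤ N := by
  have h1 : ∀ k : ℕ, P ≤ N ⊔ I ^ k • P := by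
    intro k
    induction k with
    | zero =>
      rw [pow_zero, Ideal.one_eq_top, Submodule.top_smul]
      exact le_sup_right
    | succ k ih =>
      refine ih.trans (sup_le le_sup_left ?_)
      refine (Submodule.smul_mono le_rfl h).trans ?_
      rw [Submodule.smul_sup, ← Submodule.smul_assoc, smul_eq_mul, ← pow_succ]
      exact sup_le (Submodule.smul_le_right.trans le_sup_left) le_sup_right
  have h2 := h1 k
  rw [hk, Submodule.bot_smul, sup_bot_eq] at h2
  exact h2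

theorem LB.range_le_N1 : LinearMap.range L.Th ≤ L.N1 := by
  obtain ⟨k, hk⟩ := ker_aug_nil n
  exact iter_le _ _ _ k hk L.range_le

/-- the average kills `m N1`. -/
theorem LB.avT_ker (u : Tup n l (DR n)) (hu : u ∈ (RingHom.ker (aug n)) • L.N1) :
    avT n l u = 0 := by
  refine Submodule.smul_induction_on hu ?_ ?_
  · intro b hb v hv
    rw [RingHom.mem_ker] at hb
    refine Submodule.span_induction (p := fun v _ => ∀ c : DR n, avT n l ((c * b) • v) = 0)
      ?_ ?_ ?_ ?_ hv 1 |> fun h => by rwa [one_mul] at h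
    · rintro v ⟨w, hw, rfl⟩ c
      rw [smul_smul, avT_smul _ _ hw, map_mul, map_mul, hb, mul_zero, zero_mul, zero_smul]
    · intro c
      rw [smul_zero, map_zero]
    · intro v w _ _ hv hw c
      rw [smul_add, map_add, hv c, hw c, add_zero]
    · intro a v _ hv c
      have h := hv (c * a)
      rw [smul_smul]
      rw [show c * b * a = c * a * b from by ring]
      exact h
  · intro v w hv hw
    rw [map_add, hv, hw, add_zero]

theorem LB.avT_ker' (u : Tup n l (DR n)) (hu : u ∈ (RingHom.ker (aug n)) • LinearMap.range L.Th) :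
    avT n l u = 0 := L.avT_ker u (Submodule.smul_mono le_rfl L.range_le_N1 hu)

/-- the map from `A` to the equivariant functions. -/
def LB.Psi : A →ₗ[ℂ] (DRmaps n l) where
  toFun a := ⟨avT n l (L.Th (Function.surjInv L.surj a)), avT_mem _⟩
  map_add' a b := by
    apply Subtype.ext
    rw [Submodule.coe_add]
    simp only
    rw [← map_add, ← map_add, ← sub_eq_zero, ← map_sub, ← map_sub]
    refine L.avT_ker' _ (L.ker _ ?_)
    rw [map_sub, map_add, Function.surjInv_eq L.surj, Function.surjInv_eq L.surj, Function.surjInv_eq L.surj, sub_self]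
  map_smul' c a := by
    apply Subtype.ext
    rw [Submodule.coe_smul]
    simp only [RingHom.id_apply]
    have h1 : c • L.Th (Function.surjInv L.surj a) =
        L.Th (algebraMap (DR n) FB (algebraMap ℂ (DR n) c) * Function.surjInv L.surj a) := by
      rw [← Algebra.smul_def, map_smul]
      funext x
      exact Algebra.smul_def c (L.Th (Function.surjInv L.surj a) x)
    rw [← map_smul, h1, ← sub_eq_zero, ← map_sub, ← map_sub]
    refine L.avT_ker' _ (L.ker _ ?_)
    rw [map_sub, map_mul, L.red_alg, AlgHom.commutes, Function.surjInv_eq L.surj,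
      Function.surjInv_eq L.surj, Algebra.smul_def, sub_eq_zero]
    rfl

theorem LB.Psi_red (a : FB) : (L.Psi (L.red a) : Tup n l (DR n)) = avT n l (L.Th a) := by
  have h : (L.Psi (L.red a) : Tup n l (DR n)) =
      avT n l (L.Th (Function.surjInv L.surj (L.red a))) := rfl
  rw [h, ← sub_eq_zero, ← map_sub, ← map_sub]
  refine L.avT_ker' _ (L.ker _ ?_)
  rw [map_sub, Function.surjInv_eq L.surj, sub_self]

theorem LB.Psi_comm (a b : A) : L.Psi (a * b) = L.Psi (b * a) := by
  obtain ⟨x, rfl⟩ := L.surj a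
  obtain ⟨y, rfl⟩ := L.surj b
  apply Subtype.ext
  rw [← map_mul, ← map_mul, L.Psi_red, L.Psi_red, ← sub_eq_zero, ← map_sub, ← map_sub]
  exact L.avT_ker' _ (L.comm x y)

theorem LB.Psi_surj : Function.Surjective L.Psi := by
  intro w
  obtain ⟨a, ha⟩ := L.good_all w.1 w.2
  refine ⟨(aug n L.D)⁻¹ • L.red a, ?_⟩
  apply Subtype.ext
  rw [map_smul, Submodule.coe_smul, L.Psi_red, ha.2, avT_smul _ _ w.2, smul_smul,
    inv_mul_cancel₀ L.hD, one_smul]

/-- **FIN**. -/
theorem fin_bound [FiniteDimensional ℂ A] (L : LB n l A FB) :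
    Module.finrank ℂ (DRmaps n l) ≤ Module.finrank ℂ (Trs A) := by
  have hfin : FiniteDimensional ℂ (DR n) := Pool.Agent.Helper95.SQ.s_fin n
  have h1 : Module.finrank ℂ (Module.Dual ℂ (DRmaps n l)) = Module.finrank ℂ (DRmaps n l) :=
    Subspace.dual_finrank_eq
  rw [← h1]
  let Φ : Module.Dual ℂ (DRmaps n l) →ₗ[ℂ] Trs A :=
    { toFun := fun lam => ⟨lam ∘ₗ L.Psi, fun x y => by
        rw [LinearMap.comp_apply, LinearMap.comp_apply, L.Psi_comm]⟩
      map_add' := fun _ _ => rfl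
      map_smul' := fun _ _ => rfl }
  refine LinearMap.finrank_le_finrank_of_injective (f := Φ) ?_
  intro lam mu h
  have h2 : lam ∘ₗ L.Psi = mu ∘ₗ L.Psi := congrArg Subtype.val h
  refine LinearMap.ext fun w => ?_
  obtain ⟨a, rfl⟩ := L.Psi_surj w
  exact LinearMap.congr_fun h2 a

end

end

end Pool.Agent.Helper34.SQ
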