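import Pool.Agent.Helper4.SQ.GoalsR2

/-!
# MP_bb32d1_al, stage B: packets BLE and CHX
-/

set_option autoImplicit false
set_option linter.unusedSectionVars false

namespace Pool.Agent.Helper34.SQ

noncomputable section

open Matrix Pool.Agent.Helper19.SQ Pool.Agent.Helper41.SQ Pool.Agent.Helper4.SQ

theorem sBLE : S_BLE := by
  classical
  intro A _ _ ι _ _ l C c m
  -- (a)
  have ha : ∀ (Z : Matrix ι ι A) (a : A),
      vv C.ε (Z * Matrix.diagonal fun _ => a) = vv C.ε Z * C.ε a := by
    intro Z a
    ext K I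
    rw [vv_apply, Matrix.mul_apply]
    simp only [vv_apply, Finset.sum_mul]
    rw [Finset.sum_comm]
    refine Finset.sum_congr rfl fun P _ => ?_
    rw [Matrix.mul_diagonal, map_mul, Matrix.mul_apply]
  -- (b)
  have hb : ∀ a b : A, vv C.ε (C.δ b * Matrix.diagonal fun _ => a) =
      (Matrix.diagonal fun _ => b) * C.ε a := by
    intro a b
    ext K I
    rw [ha, Matrix.mul_apply, Matrix.diagonal_mul]
    have h1 : ∀ J, vv C.ε (C.δ b) K J = if J = K then b else 0 := by
      intro J
      rw [vv_apply]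
      exact C.cap0 b K J
    simp only [h1, ite_mul, zero_mul, Finset.sum_ite_eq', Finset.mem_univ, if_true]
  have h1 : ∀ m', vv C.ε (pev (C.pc c) C.X) * C.ε (C.e m') =
      (Matrix.diagonal fun _ => C.e (m' - al c)) * C.ε (C.e m') := by
    intro m'
    rw [← ha, C.BL1 c m', hb]
  have hsum : ∑ m' ∈ C.types, C.ε (C.e m') = 1 := by
    rw [← map_sum, C.e_sum, map_one]
  have h2 : vv C.ε (pev (C.pc c) C.X) =
      ∑ m' ∈ C.types, (Matrix.diagonal fun _ => C.e (m' - al c)) * C.ε (C.e m') := by
    calc vv C.ε (pev (C.pc c) C.X)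
        = vv C.ε (pev (C.pc c) C.X) * ∑ m' ∈ C.types, C.ε (C.e m') := by rw [hsum, mul_one]
      _ = _ := by
        rw [Finset.mul_sum]
        exact Finset.sum_congr rfl fun m' _ => h1 m'
  rw [h2, Finset.sum_mul]
  have h3 : ∀ m', ((Matrix.diagonal fun _ : ι => C.e (m' - al c)) * C.ε (C.e m')) *
      (Matrix.diagonal fun _ => C.e m) =
      if m' = m + al c then C.ε (C.e m') * Matrix.diagonal (fun _ => C.e m) else 0 := by
    intro m'
    rw [mul_assoc, ← diag_comm (C.e_cen m) (C.ε (C.e m')), ← mul_assoc,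
      Matrix.diagonal_mul_diagonal]
    by_cases h : m' = m + al c
    · subst h
      rw [if_pos rfl, add_sub_cancel_right]
      simp only [C.e_idem]
    · rw [if_neg h]
      have h4 : m' - al c ≠ m := fun h5 => h (by rw [← h5, sub_add_cancel])
      simp only [C.e_orth _ _ h4]
      rw [Matrix.diagonal_zero, zero_mul]
  rw [Finset.sum_congr rfl fun m' _ => h3 m', Finset.sum_ite_eq']
  by_cases h : m + al c ∈ C.types
  · rw [if_pos h]
  · rw [if_neg h, C.e_types _ h, map_zero, zero_mul]

theorem sCHX (hCHARV : S_CHARV) : S_CHX := by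
  intro N l q H M _ _ _ _ _ Y hY hnil a
  obtain ⟨k, hk⟩ := hnil
  have hc : Commute (H a) Y := (hY a).symm
  have hZ : (H a * Y) ^ k = 0 := by rw [hc.mul_pow, hk, mul_zero]
  rw [← (hCHARV N l q H M).1]
  have hpow : ∀ j : ℕ, (actM (H := H) (M := M) (H a * Y)) ^ j =
      actM (H := H) (M := M) ((H a * Y) ^ j) := by
    intro j
    induction j with
    | zero =>
      rw [pow_zero, pow_zero]
      ext f : 1
      rw [actM_one]
      rfl
    | succ j ih =>
      rw [pow_succ, pow_succ, ih]
      ext f : 1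
      rw [actM_mul]
      rfl
  have h0 : IsNilpotent (actM (H := H) (M := M) (H a * Y)) := by
    refine ⟨k, ?_⟩
    rw [hpow, hZ]
    ext f : 1
    funext i
    rw [actM_apply]
    simp only [Matrix.zero_apply, zero_smul, Finset.sum_const_zero]
    rfl
  have h1 := LinearMap.isNilpotent_trace_of_isNilpotent h0
  exact h1.eq_zero

end

end Pool.Agent.Helper34.SQ
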