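import Pool.Agent.Helper41.SQ.NBasic

/-!
# MP_bb32d1_al, stage B: the cocenter lemma (`t_run`, `t_coc`)

Elements `X_i`, `R_i` of an algebra with the affine Hecke relations `HeckeRel`; a linear form `θ`
with `θ (xy) = θ (yx)` on a subalgebra `S` containing them.  If `θ` vanishes on the polynomials
in the `X_i`, it vanishes on `f R_0 R_1 ⋯ R_{p-2}`, `f` a polynomial in the `X_i`.
-/

set_option autoImplicit false
set_option linter.unusedSectionVars false

namespace Pool.Agent.Helper34.SQ

noncomputable section

open Polynomial Pool.Agent.Helper41.SQ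

section coc

variable {B : Type} [Ring B] [Algebra ℂ B]

/-! ### monomials -/

theorem mono_succ' (X : ℕ → B) (k : ℕ → ℕ) (p : ℕ) :
    mono X k (p + 1) = mono X k p * X p ^ k p := by
  rw [mono, run_succ, Nat.zero_add]; rfl

theorem mono_congr {X : ℕ → B} {k k' : ℕ → ℕ} {p : ℕ} (h : ∀ i < p, k i = k' i) :
    mono X k p = mono X k' p :=
  run_congr fun i _ h2 => by rw [h i (by omega)]

theorem mono_zero_fun (X : ℕ → B) (p : ℕ) : mono X (fun _ => 0) p = 1 := by
  induction p with
  | zero => rfl
  | succ p ih => rw [mono_succ', ih, pow_zero, mul_one]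

/-- an element commuting with the `X_i` commutes with the monomials. -/
theorem mono_comm {X : ℕ → B} {p : ℕ} {y : B} (h : ∀ i < p, y * X i = X i * y) (k : ℕ → ℕ) :
    y * mono X k p = mono X k p * y :=
  run_commute fun i _ h2 => by
    have h3 : Commute y (X i) := h i (by omega)
    exact (h3.pow_right (k i)).eq

/-- `mono * X_r` is a monomial. -/
theorem mono_mul_X {X : ℕ → B} {p : ℕ} (hX : ∀ i k, i < p → k < p → X i * X k = X k * X i)
    (k : ℕ → ℕ) {r : ℕ} (hr : r < p) :
    mono X k p * X r = mono X (fun i => if i = r then k i + 1 else k i) p := by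
  induction p with
  | zero => omega
  | succ p ih =>
    rw [mono_succ', mono_succ']
    by_cases h : r = p
    · subst h
      rw [if_pos rfl, mul_assoc, ← pow_succ]
      congr 1
      exact mono_congr fun i hi => by rw [if_neg (by omega)]
    · have h1 : Commute (X p ^ k p) (X r) := by
        have : Commute (X p) (X r) := hX p r (by omega) hr
        exact this.pow_left _
      rw [mul_assoc, h1.eq, ← mul_assoc,
        ih (fun i k hi hk => hX i k (by omega) (by omega)) (by omega), if_neg (by omega)]

/-- induction over monomials. -/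
theorem mono_induct {X : ℕ → B} {p : ℕ} (Q : B → Prop) (h1 : Q 1)
    (hX : ∀ k r, r < p → Q (mono X k r) → Q (mono X k (r + 1)))
    (k : ℕ → ℕ) : Q (mono X k p) := by
  have : ∀ r ≤ p, Q (mono X k r) := by
    intro r
    induction r with
    | zero => intro _; exact h1
    | succ r ih => intro hr; exact hX k r (by omega) (ih (by omega))
  exact this p le_rfl

theorem mono_le (X : ℕ → B) (k : ℕ → ℕ) {m p : ℕ} (h : m ≤ p) :
    mono X k m = mono X (fun i => if i < m then k i else 0) p := by
  induction p with
  | zero =>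
    obtain rfl : m = 0 := by omega
    rfl
  | succ p ih =>
    by_cases h1 : m = p + 1
    · subst h1
      exact mono_congr fun i hi => by rw [if_pos hi]
    · rw [ih (by omega), mono_succ', if_neg (by omega), pow_zero, mul_one]

/-- products of monomials. -/
theorem mono_mul_pow {X : ℕ → B} {p : ℕ} (hX : ∀ i k, i < p → k < p → X i * X k = X k * X i)
    (k : ℕ → ℕ) {r : ℕ} (hr : r < p) (n : ℕ) :
    mono X k p * X r ^ n = mono X (fun i => if i = r then k i + n else k i) p := by
  induction n with
  | zero => rw [pow_zero, mul_one]; exact mono_congr fun i _ => by simp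
  | succ n ih =>
    rw [pow_succ, ← mul_assoc, ih, mono_mul_X hX _ hr]
    refine mono_congr fun i _ => ?_
    by_cases h : i = r
    · simp [h, add_assoc]
    · simp [h]

theorem mono_split (X : ℕ → B) (k : ℕ → ℕ) (m n : ℕ) :
    mono X k (m + n) = mono X k m * mono (fun i => X (m + i)) (fun i => k (m + i)) n := by
  rw [mono, run_add, mono, mono]
  congr 1
  rw [Nat.zero_add]
  have := run_shift (fun i => X i ^ k i) 0 m n
  simpa using this.symm

/-! ### the relations -/

theorem hk_RXi {w : ℂ} {p : ℕ} {X R : ℕ → B} (H : HeckeRel w p X R) {i : ℕ}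
    (hi : i + 1 < p) : R i * X i = X (i + 1) * R i + w • X i := by
  have h1 : (R i - w • 1) * R i = 1 := by
    rw [sub_mul, H.quad i hi, smul_mul_assoc, one_mul]; abel
  have h2 : (R i - w • 1) * X i = X (i + 1) * R i := by
    conv_lhs => rw [H.slide i hi]
    rw [← mul_assoc, ← mul_assoc, h1, one_mul]
  rw [← h2, sub_mul, smul_mul_assoc, one_mul]; abel

theorem hk_RXi1 {w : ℂ} {p : ℕ} {X R : ℕ → B} (H : HeckeRel w p X R) {i : ℕ}
    (hi : i + 1 < p) : R i * X (i + 1) = X i * R i - w • X i := by
  have h1 : R i * (R i - w • 1) = 1 := by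
    rw [mul_sub, H.quad i hi, mul_smul_comm, mul_one]; abel
  have h2 : X i * (R i - w • 1) = R i * X (i + 1) := by
    conv_lhs => rw [H.slide i hi]
    rw [mul_assoc, h1, mul_one]
  rw [← h2, mul_sub, mul_smul_comm, mul_one]

theorem hk_RXpow {w : ℂ} {p : ℕ} {X R : ℕ → B} (H : HeckeRel w p X R) {i : ℕ}
    (hi : i + 1 < p) (K : ℕ) :
    R i * X (i + 1) ^ K =
      X i ^ K * R i - w • ∑ s ∈ Finset.range K, X i ^ (K - s) * X (i + 1) ^ s := by
  induction K with
  | zero => simp
  | succ K ih =>
    rw [pow_succ, ← mul_assoc, ih, sub_mul, smul_mul_assoc, mul_assoc, hk_RXi1 H hi, mul_sub,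
      Finset.sum_range_succ', Finset.sum_mul]
    have e1 : ∑ s ∈ Finset.range K, X i ^ (K - s) * X (i + 1) ^ s * X (i + 1) =
        ∑ s ∈ Finset.range K, X i ^ (K + 1 - (s + 1)) * X (i + 1) ^ (s + 1) := by
      refine Finset.sum_congr rfl fun s _ => ?_
      rw [mul_assoc, ← pow_succ, Nat.add_sub_add_right]
    rw [e1, smul_add, mul_smul_comm, ← mul_assoc, ← pow_succ]
    simp only [Nat.sub_zero, pow_zero, mul_one]
    abel

theorem hk_mono_le {w : ℂ} {p p' : ℕ} {X R : ℕ → B} (H : HeckeRel w p X R) (h : p' ≤ p) :
    HeckeRel w p' X R where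
  XX i k hi hk := H.XX i k (by omega) (by omega)
  quad i hi := H.quad i (by omega)
  slide i hi := H.slide i (by omega)
  RX i k hi hk h1 h2 := H.RX i k (by omega) (by omega) h1 h2
  far i k h1 h2 := H.far i k h1 (by omega)
  braid i hi := H.braid i (by omega)

theorem hk_shift {w : ℂ} {m n p : ℕ} {X R : ℕ → B} (H : HeckeRel w p X R)
    (h : m + n ≤ p) : HeckeRel w n (fun i => X (m + i)) (fun i => R (m + i)) where
  XX i k hi hk := H.XX _ _ (by omega) (by omega)
  quad i hi := H.quad _ (by omega)
  slide i hi := H.slide _ (by omega)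
  RX i k hi hk h1 h2 := H.RX _ _ (by omega) (by omega) (by omega) (by omega)
  far i k h1 h2 := H.far _ _ (by omega) (by omega)
  braid i hi := H.braid _ (by omega)

/-- `R_r W = W R_{r-1}`. -/
theorem hk_R_run {w : ℂ} {p : ℕ} {X R : ℕ → B} (H : HeckeRel w p X R) {n r : ℕ}
    (hn : n < p) (hr : r + 1 < n) : R (r + 1) * run R 0 n = run R 0 n * R r := by
  induction n with
  | zero => omega
  | succ n ih =>
    by_cases h : r + 1 < n
    · rw [run_succ, ← mul_assoc, ih (by omega) h, mul_assoc, mul_assoc, Nat.zero_add,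
        H.far r n h (by omega)]
    · obtain rfl : n = r + 1 := by omega
      rw [run_succ, run_succ, Nat.zero_add, Nat.zero_add]
      have e2 : R (r + 1) * run R 0 r = run R 0 r * R (r + 1) :=
        run_commute fun i _ h2 => (H.far i (r + 1) (by omega) (by omega)).symm
      calc R (r + 1) * (run R 0 r * R r * R (r + 1))
          = (R (r + 1) * run R 0 r) * (R r * R (r + 1)) := by simp only [mul_assoc]
        _ = run R 0 r * (R (r + 1) * R r * R (r + 1)) := by rw [e2]; simp only [mul_assoc]
        _ = run R 0 r * (R r * R (r + 1) * R r) := by rw [H.braid r (by omega)]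
        _ = run R 0 r * R r * R (r + 1) * R r := by simp only [mul_assoc]

theorem run_mem {S : Subalgebra ℂ B} {R : ℕ → B} {s n : ℕ}
    (h : ∀ i, s ≤ i → i < s + n → R i ∈ S) : run R s n ∈ S := by
  induction n with
  | zero => exact Subalgebra.one_mem _
  | succ n ih =>
    rw [run_succ]
    exact Subalgebra.mul_mem _ (ih fun i h1 h2 => h i h1 (by omega)) (h _ (by omega) (by omega))

theorem mono_mem {S : Subalgebra ℂ B} {X : ℕ → B} {p : ℕ} (h : ∀ i < p, X i ∈ S) (k : ℕ → ℕ) :
    mono X k p ∈ S :=
  run_mem fun i _ h2 => Subalgebra.pow_mem _ (h i (by omega)) _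

end coc

/-- the induction step. -/
theorem t_run (B : Type) [Ring B] [Algebra ℂ B] (θ : B →ₗ[ℂ] ℂ) (S : Subalgebra ℂ B) (w : ℂ)
    (p : ℕ) (X R : ℕ → B) (H : HeckeRel w p X R) (hw : w ≠ 0) (hp : 2 ≤ p)
    (hXS : ∀ i < p, X i ∈ S) (hRS : ∀ i, i + 1 < p → R i ∈ S)
    (hθ : ∀ a ∈ S, ∀ b ∈ S, θ (a * b) = θ (b * a))
    (hinv : ∀ i < p, ∃ g : Polynomial ℂ, g.coeff 0 = 0 ∧ aeval (X i) g = 1)
    (hlow : ∀ r, r + 1 < p → ∀ k,
      θ (mono X k p * (run R 0 r * run R (r + 1) (p - 2 - r))) = 0) :
    ∀ k, θ (mono X k p * run R 0 (p - 1)) = 0 := by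
  set W := run R 0 (p - 1) with hW
  have hWS : W ∈ S := run_mem fun i _ h2 => hRS i (by omega)
  -- (*)
  have star : ∀ k r, r + 1 < p → θ (mono X k p * X r * W) = θ (mono X k p * X (r + 1) * W) := by
    intro k r hr
    have hsplit : W = run R 0 r * R r * run R (r + 1) (p - 2 - r) := by
      rw [hW]
      have e : p - 1 = r + (1 + (p - 2 - r)) := by omega
      rw [e, run_add, run_add, run_one, Nat.zero_add, ← mul_assoc]
    have hc2 : X r * run R (r + 1) (p - 2 - r) = run R (r + 1) (p - 2 - r) * X r :=
      run_commute fun i h1 h2 => (H.RX i r (by omega) (by omega) (by omega) (by omega)).symm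
    have hc1 : X (r + 1) * run R 0 r = run R 0 r * X (r + 1) :=
      run_commute fun i h1 h2 => (H.RX i (r + 1) (by omega) (by omega) (by omega) (by omega)).symm
    have hWX : W * X r = X (r + 1) * W + w • (run R 0 r * run R (r + 1) (p - 2 - r) * X r) := by
      rw [hsplit, mul_assoc, ← hc2, ← mul_assoc, mul_assoc _ (R r), hk_RXi H hr]
      simp only [mul_add, add_mul, mul_smul_comm, smul_mul_assoc]
      congr 1
      · rw [← mul_assoc (run R 0 r), ← hc1]; simp only [mul_assoc]
      · rw [mul_assoc (run R 0 r), hc2, ← mul_assoc]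
    have hmS := mono_mem hXS k
    have hXr : X r ∈ S := hXS r (by omega)
    have e1 : θ (mono X k p * X r * W) = θ (mono X k p * W * X r) := by
      rw [← mono_comm (fun i hi => H.XX r i (by omega) hi), mul_assoc, hθ _ hXr _
        (Subalgebra.mul_mem _ hmS hWS)]
    rw [e1, mul_assoc, hWX, mul_add, map_add, ← mul_assoc, mul_smul_comm, map_smul]
    have e2 : θ (mono X k p * (run R 0 r * run R (r + 1) (p - 2 - r) * X r)) = 0 := by
      rw [← mul_assoc, hθ _ _ _ hXr, ← mul_assoc, mono_comm (fun i hi => H.XX r i (by omega) hi),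
        mono_mul_X H.XX k (by omega)]
      · exact hlow r hr _
      · exact Subalgebra.mul_mem _ hmS (Subalgebra.mul_mem _
          (run_mem fun i _ h2 => hRS i (by omega)) (run_mem fun i _ h2 => hRS i (by omega)))
    rw [e2, smul_zero, add_zero]
  -- all exponents may be moved to the last variable
  have star2 : ∀ n r, r + n + 1 = p → ∀ k,
      θ (mono X k p * X r * W) = θ (mono X k p * X (p - 1) * W) := by
    intro n
    induction n with
    | zero =>
      intro r hr k
      obtain rfl : r = p - 1 := by omega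
      rfl
    | succ n ih =>
      intro r hr k
      rw [star k r (by omega), ih (r + 1) (by omega) k]
  have star3 : ∀ r < p, ∀ n k,
      θ (mono X k p * X r ^ n * W) = θ (mono X k p * X (p - 1) ^ n * W) := by
    intro r hr n
    induction n with
    | zero => intro k; rw [pow_zero, pow_zero]
    | succ n ih =>
      intro k
      have c1 : Commute (X r ^ n) (X r) := (Commute.refl _).pow_left _
      have c2 : Commute (X (p - 1) ^ n) (X r) := by
        have : Commute (X (p - 1)) (X r) := H.XX _ _ (by omega) hr
        exact this.pow_left _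
      rw [pow_succ, c1.eq, ← mul_assoc, mono_mul_X H.XX k hr, ih, ← mono_mul_X H.XX k hr,
        mul_assoc (mono X k p), ← c2.eq, ← mul_assoc, mono_mul_pow H.XX k (by omega) n,
        star2 (p - 1 - r) r (by omega), ← mono_mul_pow H.XX k (by omega) n, mul_assoc (mono X k p),
        ← pow_succ]
  have star4 : ∀ k, ∃ K, θ (mono X k p * W) = θ (X (p - 1) ^ K * W) := by
    intro k
    have key : ∀ r ≤ p, ∃ K, ∀ k',
        θ (mono X k' p * mono X k r * W) = θ (mono X k' p * X (p - 1) ^ K * W) := by
      intro r
      induction r with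
      | zero =>
        intro _
        exact ⟨0, fun k' => by rw [pow_zero]; rfl⟩
      | succ r ih =>
        intro hr
        obtain ⟨K, hK⟩ := ih (by omega)
        refine ⟨k r + K, fun k' => ?_⟩
        have hc : X r ^ k r * mono X k r = mono X k r * X r ^ k r :=
          mono_comm (fun i hi => by
            have : Commute (X r) (X i) := H.XX r i (by omega) (by omega)
            exact (this.pow_left _).eq) k
        have hc2 : Commute (X (p - 1) ^ K) (X r ^ k r) := by
          have : Commute (X (p - 1)) (X r) := H.XX _ _ (by omega) (by omega)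
          exact this.pow_pow _ _
        rw [mono_succ', ← hc, ← mul_assoc, mono_mul_pow H.XX k' (by omega), hK,
          ← mono_mul_pow H.XX k' (by omega), mul_assoc (mono X k' p), ← hc2.eq, ← mul_assoc,
          mono_mul_pow H.XX k' (by omega), star3 r (by omega), ← mono_mul_pow H.XX k' (by omega),
          mul_assoc (mono X k' p), ← pow_add, Nat.add_comm K]
    obtain ⟨K, hK⟩ := key p le_rfl
    refine ⟨K, ?_⟩
    have := hK (fun _ => 0)
    rwa [mono_zero_fun, one_mul, one_mul] at this
  -- the main computation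
  have main : ∀ K, 1 ≤ K → θ (X (p - 1) ^ K * W) = 0 := by
    intro K hK
    set t := θ (X (p - 1) ^ K * W) with ht
    have hpow : ∀ r, r + 1 < p → ∀ s < K, θ (X r ^ (K - s) * X (r + 1) ^ s * W) = t := by
      intro r hr s hs
      have h1 := star3 (r + 1) (by omega) s (fun i => if i = r then K - s else 0)
      have h2 := star3 r (by omega) (K - s) (fun i => if i = p - 1 then s else 0)
      have e1 : mono X (fun i => if i = r then K - s else 0) p = X r ^ (K - s) := by
        have := mono_mul_pow H.XX (fun _ => 0) (show r < p by omega) (K - s)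
        rw [mono_zero_fun, one_mul] at this
        rw [this]
        exact mono_congr fun i _ => by by_cases h : i = r <;> simp [h]
      have e2 : mono X (fun i => if i = p - 1 then s else 0) p = X (p - 1) ^ s := by
        have := mono_mul_pow H.XX (fun _ => 0) (show p - 1 < p by omega) s
        rw [mono_zero_fun, one_mul] at this
        rw [this]
        exact mono_congr fun i _ => by by_cases h : i = p - 1 <;> simp [h]
      have hc : Commute (X r ^ (K - s)) (X (p - 1) ^ s) := by
        have : Commute (X r) (X (p - 1)) := H.XX _ _ (by omega) (by omega)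
        exact this.pow_pow _ _
      rw [e1] at h1
      rw [e2] at h2
      rw [h1, hc.eq, h2, ← pow_add, ht]
      congr 3
      omega
    have hRr : ∀ r, r + 1 < p →
        θ (R r * X (r + 1) ^ K * W) = θ (X r ^ K * R r * W) - w * (K * t) := by
      intro r hr
      rw [hk_RXpow H hr, sub_mul, map_sub, smul_mul_assoc, map_smul, Finset.sum_mul, map_sum,
        Finset.sum_congr rfl fun s hs => hpow r hr s (Finset.mem_range.1 hs)]
      simp
    have hXpS : ∀ r < p, X r ^ K ∈ S := fun r hr => Subalgebra.pow_mem _ (hXS r hr) _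
    have hmono : ∀ r < p, ∃ k, X r ^ K = mono X k p := by
      intro r hr
      have := mono_mul_pow H.XX (fun _ => 0) hr K
      rw [mono_zero_fun, one_mul] at this
      exact ⟨_, this⟩
    -- (α)
    have ha : θ (X (p - 1) ^ K * W * R (p - 2)) = w * t := by
      have e : p - 1 = (p - 2) + 1 := by omega
      have hWs : W = run R 0 (p - 2) * R (p - 2) := by
        rw [hW]
        conv_lhs => rw [e, run_succ, Nat.zero_add]
      have e3 : W * R (p - 2) = run R 0 (p - 2) * run R (p - 2 + 1) (p - 2 - (p - 2)) + w • W := by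
        rw [Nat.sub_self, run_zero, mul_one, hWs, mul_assoc, H.quad _ (by omega), mul_add, mul_one,
          mul_smul_comm]
      obtain ⟨k, hk⟩ := hmono (p - 1) (by omega)
      rw [mul_assoc, e3, mul_add, map_add, mul_smul_comm, map_smul, ← ht, hk, hlow _ (by omega),
        zero_add, smul_eq_mul]
    have ha' : θ (X (p - 2) ^ K * R (p - 2) * W) = w * t + w * (K * t) := by
      have h1 := hRr (p - 2) (by omega)
      have e : p - 2 + 1 = p - 1 := by omega
      rw [e, mul_assoc, hθ _ (hRS _ (by omega)) _
        (Subalgebra.mul_mem _ (hXpS _ (by omega)) hWS), ha] at h1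
      rw [h1]; ring
    -- (γ)
    have hc : θ (X 0 ^ K * R 0 * W) = w * t := by
      have hWs : W = R 0 * run R 1 (p - 2) := by
        have e : p - 1 = (p - 2) + 1 := by omega
        rw [hW, e, run_succ_left]
      have e3 : R 0 * W = run R 0 0 * run R (0 + 1) (p - 2 - 0) + w • W := by
        rw [run_zero, one_mul, Nat.sub_zero, hWs, ← mul_assoc, H.quad _ (by omega), add_mul,
          one_mul, smul_mul_assoc]
      obtain ⟨k, hk⟩ := hmono 0 (by omega)
      rw [mul_assoc, e3, mul_add, map_add, mul_smul_comm, map_smul, hk, hlow _ (by omega),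
        zero_add, smul_eq_mul, ← hk]
      congr 1
      have h2 := star3 0 (by omega) K (fun _ => 0)
      rw [mono_zero_fun, one_mul, one_mul] at h2
      exact h2
    -- (β)
    have hb : ∀ r, r + 1 < p → θ (X r ^ K * R r * W) = w * t - r * (w * (K * t)) := by
      intro r
      induction r with
      | zero => intro _; rw [hc]; simp
      | succ r ih =>
        intro hr
        have h1 := hRr r (by omega)
        have e1 : R (r + 1) * W = W * R r := hk_R_run H (by omega) (by omega)
        rw [mul_assoc, e1, ← mul_assoc, hθ _ (Subalgebra.mul_mem _ (hXpS _ (by omega)) hWS) _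
          (hRS _ (by omega)), ← mul_assoc, h1, ih (by omega)]
        push_cast
        ring
    have h1 := hb (p - 2) (by omega)
    rw [ha'] at h1
    have hp2 : ((p - 2 : ℕ) : ℂ) = (p : ℂ) - 2 := by
      rw [Nat.cast_sub hp]; norm_num
    rw [hp2] at h1
    have h2 : ((p : ℂ) - 1) * ((K : ℂ) * (w * t)) = 0 := by linear_combination h1
    have hp1 : (p : ℂ) - 1 ≠ 0 := by
      have : (p : ℂ) ≠ 1 := by
        intro h
        have : p = 1 := by exact_mod_cast h
        omega
      exact sub_ne_zero.2 this
    have hK0 : (K : ℂ) ≠ 0 := by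
      have : K ≠ 0 := by omega
      exact_mod_cast this
    simpa [hp1, hK0, hw] using h2
  have main0 : ∀ K, θ (X (p - 1) ^ K * W) = 0 := by
    intro K
    rcases Nat.eq_zero_or_pos K with rfl | hK
    · obtain ⟨g, hg0, hg⟩ := hinv (p - 1) (by omega)
      rw [pow_zero, ← hg, aeval_eq_sum_range, Finset.sum_mul, map_sum]
      refine Finset.sum_eq_zero fun i _ => ?_
      rcases Nat.eq_zero_or_pos i with rfl | hi
      · rw [hg0, zero_smul, zero_mul, map_zero]
      · rw [smul_mul_assoc, map_smul, main i hi, smul_zero]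
    · exact main K hK
  intro k
  obtain ⟨K, hK⟩ := star4 k
  rw [hK, main0]

/-- **the cocenter lemma**. -/
theorem t_coc (B : Type) [Ring B] [Algebra ℂ B] (θ : B →ₗ[ℂ] ℂ) (S : Subalgebra ℂ B) (w : ℂ)
    (p : ℕ) (X R : ℕ → B) (H : HeckeRel w p X R) (hw : w ≠ 0) (hp : 1 ≤ p)
    (hXS : ∀ i < p, X i ∈ S) (hRS : ∀ i, i + 1 < p → R i ∈ S)
    (hθ : ∀ a ∈ S, ∀ b ∈ S, θ (a * b) = θ (b * a))
    (hinv : ∀ i < p, ∃ g : Polynomial ℂ, g.coeff 0 = 0 ∧ aeval (X i) g = 1)
    (h0 : ∀ k, θ (mono X k p) = 0) :
    ∀ k, θ (mono X k p * run R 0 (p - 1)) = 0 := by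
  induction p using Nat.strong_induction_on generalizing θ S X R with
  | _ p ih =>
    by_cases hp1 : p = 1
    · subst hp1
      intro k
      rw [Nat.sub_self, run_zero, mul_one]
      exact h0 k
    have hp2 : 2 ≤ p := by omega
    refine t_run B θ S w p X R H hw hp2 hXS hRS hθ hinv ?_
    intro r hr k
    have hsplit : mono X k p = mono X k (r + 1) *
        mono (fun i => X (r + 1 + i)) (fun i => k (r + 1 + i)) (p - 1 - r) := by
      rw [← mono_split]
      congr 1
      omega
    set f1 := mono X k (r + 1) with hf1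
    set f2 := mono (fun i => X (r + 1 + i)) (fun i => k (r + 1 + i)) (p - 1 - r) with hf2
    have hf2S : f2 ∈ S := mono_mem (fun i hi => hXS _ (by omega)) _
    have hrun2S : run R (r + 1) (p - 2 - r) ∈ S := run_mem fun i _ h2 => hRS i (by omega)
    have hc2 : run R 0 r * f2 = f2 * run R 0 r := by
      refine (run_commute fun i _ h2 => ?_).symm
      refine (mono_comm (fun s hs => ?_) _).symm
      exact H.RX _ _ (by omega) (by omega) (by omega) (by omega)
    set Y := f2 * run R (r + 1) (p - 2 - r) with hY
    have hYS : Y ∈ S := Subalgebra.mul_mem _ hf2S hrun2S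
    have hXY : ∀ i < r + 1, X i * Y = Y * X i := by
      intro i hi
      have h1 : X i * f2 = f2 * X i :=
        mono_comm (fun s hs => H.XX _ _ (by omega) (by omega)) _
      have h2 : X i * run R (r + 1) (p - 2 - r) = run R (r + 1) (p - 2 - r) * X i :=
        run_commute fun s h3 h4 => (H.RX s i (by omega) (by omega) (by omega) (by omega)).symm
      rw [hY, ← mul_assoc, h1, mul_assoc, h2, ← mul_assoc]
    have hRY : ∀ i, i + 1 < r + 1 → R i * Y = Y * R i := by
      intro i hi
      have h1 : R i * f2 = f2 * R i :=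
        mono_comm (fun s hs => H.RX _ _ (by omega) (by omega) (by omega) (by omega)) _
      have h2 : R i * run R (r + 1) (p - 2 - r) = run R (r + 1) (p - 2 - r) * R i :=
        run_commute fun s h3 h4 => H.far i s (by omega) (by omega)
      rw [hY, ← mul_assoc, h1, mul_assoc, h2, ← mul_assoc]
    have hgoal : mono X k p * (run R 0 r * run R (r + 1) (p - 2 - r)) =
        f1 * run R 0 (r + 1 - 1) * Y := by
      rw [hsplit, hY, Nat.add_sub_cancel]
      calc f1 * f2 * (run R 0 r * run R (r + 1) (p - 2 - r))
          = f1 * (f2 * run R 0 r) * run R (r + 1) (p - 2 - r) := by simp only [mul_assoc]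
        _ = f1 * (run R 0 r * f2) * run R (r + 1) (p - 2 - r) := by rw [hc2]
        _ = _ := by simp only [mul_assoc]
    rw [hgoal]
    -- the first functional
    set θ' : B →ₗ[ℂ] ℂ := θ.comp (LinearMap.mulRight ℂ Y) with hθ'
    set S' : Subalgebra ℂ B := S ⊓ Subalgebra.centralizer ℂ {Y} with hS'
    have hmemS' : ∀ z, z ∈ S → z * Y = Y * z → z ∈ S' := by
      intro z hz h
      refine ⟨hz, ?_⟩
      intro y hy
      rw [Set.mem_singleton_iff.1 hy]
      exact h.symm
    have key := ih (r + 1) (by omega) θ' S' X R (hk_mono_le H (by omega)) (by omega)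
      (fun i hi => hmemS' _ (hXS i (by omega)) (hXY i hi))
      (fun i hi => hmemS' _ (hRS i (by omega)) (hRY i hi))
      ?_ (fun i hi => hinv i (by omega)) ?_ k
    · exact key
    · rintro a ⟨haS, haY⟩ b ⟨hbS, hbY⟩
      have hbY' : Y * b = b * Y := hbY Y rfl
      change θ (a * b * Y) = θ (b * a * Y)
      rw [mul_assoc, ← hbY', ← mul_assoc, hθ _ (Subalgebra.mul_mem _ haS hYS) _ hbS, mul_assoc]
    · intro k1
      change θ (mono X k1 (r + 1) * Y) = 0
      -- the second functional
      set g1 := mono X k1 (r + 1) with hg1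
      have hg1S : g1 ∈ S := mono_mem (fun i hi => hXS i (by omega)) _
      set θ'' : B →ₗ[ℂ] ℂ := θ.comp (LinearMap.mulLeft ℂ g1) with hθ''
      set S'' : Subalgebra ℂ B := S ⊓ Subalgebra.centralizer ℂ {g1} with hS''
      have hmemS'' : ∀ z, z ∈ S → z * g1 = g1 * z → z ∈ S'' := by
        intro z hz h
        refine ⟨hz, ?_⟩
        intro y hy
        rw [Set.mem_singleton_iff.1 hy]
        exact h.symm
      have key2 := ih (p - 1 - r) (by omega) θ'' S'' (fun i => X (r + 1 + i))
        (fun i => R (r + 1 + i)) (hk_shift H (by omega)) (by omega)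
        (fun i hi => hmemS'' _ (hXS _ (by omega))
          (mono_comm (fun s hs => H.XX _ _ (by omega) (by omega)) _))
        (fun i hi => hmemS'' _ (hRS _ (by omega))
          (mono_comm (fun s hs => H.RX _ _ (by omega) (by omega) (by omega) (by omega)) _))
        ?_ (fun i hi => hinv _ (by omega)) ?_ (fun i => k (r + 1 + i))
      · have e : p - 1 - r - 1 = p - 2 - r := by omega
        rw [e, run_shift, Nat.add_zero] at key2
        exact key2
      · rintro a ⟨haS, haY⟩ b ⟨hbS, hbY⟩
        have hbY' : g1 * b = b * g1 := hbY g1 rfl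
        change θ (g1 * (a * b)) = θ (g1 * (b * a))
        rw [← mul_assoc, hθ _ (Subalgebra.mul_mem _ hg1S haS) _ hbS, ← mul_assoc, ← hbY',
          mul_assoc]
      · intro k2
        change θ (g1 * mono (fun i => X (r + 1 + i)) k2 (p - 1 - r)) = 0
        have e : g1 * mono (fun i => X (r + 1 + i)) k2 (p - 1 - r) =
            mono X (fun i => if i < r + 1 then k1 i else k2 (i - (r + 1))) p := by
          have e1 : p = (r + 1) + (p - 1 - r) := by omega
          conv_rhs => rw [e1, mono_split]
          congr 1
          · exact mono_congr fun i hi => by rw [if_pos hi]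
          · exact mono_congr fun i hi => by
              rw [if_neg (by omega), Nat.add_sub_cancel_left]
        rw [e]
        exact h0 _

end

end Pool.Agent.Helper34.SQ
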