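import Pool.Agent.Helper34.SQ.GoalsM
import Pool.Agent.Helper86.SQ.STEP
import Pool.Agent.Helper84.SQ.MAIN12

/-!
# MP_bb32d1_al, stage B: the theorem of section 12 for a family of traces

`Fam C ζ P` : `P m` is a set of traces of the block `m`, stable under the `F_c`, with the kill
properties.  `t_stepT` and `t_main12T` are `STEP` and `MAIN12` for such a family (the family of
all traces is the case of stage A).
-/

set_option autoImplicit false
set_option linter.unusedSectionVars false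

namespace Pool.Agent.Helper34.SQ

noncomputable section

open Finset Matrix Pool.Agent.Helper19.SQ

section fam

variable {A : Type} [Ring A] [Algebra ℂ A] {ι : Type} [Fintype ι] [DecidableEq ι] {l : ℕ}

/-- `P m' = 0` for all `m'` with `∑ m'² > ∑ m²`. -/
def ZeroAbove [NeZero l] (P : (ZMod l → ℤ) → (A →ₗ[ℂ] ℂ) → Prop) (m : ZMod l → ℤ) : Prop :=
  ∀ m' : ZMod l → ℤ, ∑ x, m x ^ 2 < ∑ x, m' x ^ 2 → ∀ τ, P m' τ → τ = 0

/-- a family of traces with the kill properties. -/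
structure Fam [NeZero l] (C : Core A ι l) (ζ : ℂ) (P : (ZMod l → ℤ) → (A →ₗ[ℂ] ℂ) → Prop) :
    Prop where
  trz : ∀ m τ, P m τ → IsTrz C ζ m τ
  stF : ∀ c m τ, P m τ → P (m - al c) (Ft C c m τ)
  killE : ∀ c m τ, P m τ → ZeroAbove P m → m (c + 1) ≤ m c →
    ∀ y b i j, τ (y * C.ε (b * C.e (m + al c)) i j) = 0
  killF : ∀ c m τ, P m τ → ZeroAbove P m → m c ≤ m (c + 1) →
    ∀ y b i j, τ (y * C.δ (b * C.e (m - al c)) i j) = 0

/-- **STEP** for a family. -/
theorem t_stepT [NeZero l] (hl : 2 ≤ l) (hTRF : S_TRF) (hSL2 : S_SL2) (hIDL : S_IDL)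
    (hIT : S_IT) (C : Core A ι l) (ζ : ℂ) (P : (ZMod l → ℤ) → (A →ₗ[ℂ] ℂ) → Prop)
    (hP : Fam C ζ P) (c : ZMod l) (m : ZMod l → ℤ) (h : ℕ) (hh : (h : ℤ) = m c - m (c + 1))
    (hT : ZeroAbove P m) (τ : A →ₗ[ℂ] ℂ) (hτP : P m τ) :
    (∀ i j, C.ε (C.e (m + al c)) i j ∈ It τ) ∧
    P (m - (h : ℤ) • al c) (Ftn C c m h τ) ∧
    (It (Ftn C c m h τ)) ^ h.factorial ≤ Fin' C c m h (It τ) := by
  have hτ := hP.trz _ _ hτP
  -- blocks
  have hFk : ∀ k : ℕ, P (m - (k : ℤ) • al c) (Ftn C c m k τ) := by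
    intro k
    induction k with
    | zero =>
      have : m - ((0 : ℕ) : ℤ) • al c = m := by simp
      rw [this]
      exact hτP
    | succ k ih =>
      have h1 := hP.stF c _ _ ih
      have h2 : (m - (k : ℤ) • al c) - al c = m - ((k + 1 : ℕ) : ℤ) • al c := by
        push_cast
        rw [add_smul, one_smul]
        abel
      rw [h2] at h1
      exact h1
  have hτP' := hFk h
  have hτ' := hP.trz _ _ hτP'
  have hh0 : (0 : ℤ) ≤ h := Int.natCast_nonneg h
  have hk1 := hP.killE c m τ hτP hT (by linarith)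
  have hsq : ∑ x, (m - (h : ℤ) • al c) x ^ 2 = ∑ x, m x ^ 2 := by
    have e0 : m - (h : ℤ) • al c = m + (-(h : ℤ)) • al c := by
      rw [neg_smul]
      abel
    rw [e0, Helper86.SQ.sum_sq hl, ← hh]
    ring
  have hT' : ZeroAbove P (m - (h : ℤ) • al c) := by
    intro m' hm'
    rw [hsq] at hm'
    exact hT m' hm'
  have hle : (m - (h : ℤ) • al c) c ≤ (m - (h : ℤ) • al c) (c + 1) := by
    rw [Helper84.SQ.swap_sub hl c m h hh]
    simp only [Function.comp, Equiv.swap_apply_left, Equiv.swap_apply_right]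
    linarith
  have hk2 := hP.killF c (m - (h : ℤ) • al c) _ hτP' hT' hle
  have hE0 : Et C c m τ = 0 := by
    ext x
    rw [Et_apply, Matrix.trace, map_sum, LinearMap.zero_apply]
    refine Finset.sum_eq_zero (fun i _ => ?_)
    have := hk1 1 x i i
    rw [one_mul] at this
    exact this
  refine ⟨?_, hτP', ?_⟩
  · intro i j
    rw [mem_It]
    intro y
    rw [hτ.tr]
    have := hk1 y 1 i j
    rw [one_mul] at this
    exact this
  · -- the ideals
    have hTop : Fi C c (m - (h : ℤ) • al c) (It (Ftn C c m h τ)) = ⊤ := by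
      rw [eq_top_iff]
      intro a _
      rw [mem_Fi]
      intro i j
      rw [mem_It]
      intro y
      rw [hτ'.tr]
      exact hk2 y a i j
    obtain ⟨-, -, -, -, -, -, -, -, i9, i10, -, -⟩ := hIDL A ι l C c (m - (h : ℤ) • al c)
    have h1 := hIT A ι l C c (m - (h : ℤ) • al c) (It (Ftn C c m h τ)) (i9 ζ _ hτ')
      (i10 ζ _ hτ') hTop h
    rw [sub_add_cancel] at h1
    refine h1.trans ?_
    -- traces `E^k τ'`
    have hEk : ∀ k : ℕ, IsTrz C ζ ((m - (h : ℤ) • al c) + (k : ℤ) • al c)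
        (Etn C c (m - (h : ℤ) • al c) k (Ftn C c m h τ)) := by
      intro k
      induction k with
      | zero =>
        have : (m - (h : ℤ) • al c) + ((0 : ℕ) : ℤ) • al c = m - (h : ℤ) • al c := by simp
        rw [this]
        exact hτ'
      | succ k ih =>
        have h1 := (hTRF A ι l C ζ c _ _ ih).2
        have h2 : (m - (h : ℤ) • al c + (k : ℤ) • al c) + al c =
            m - (h : ℤ) • al c + ((k + 1 : ℕ) : ℤ) • al c := by
          push_cast
          rw [add_smul, one_smul]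
          abel
        rw [h2] at h1
        exact h1
    have hEle : ∀ k : ℕ, Ein' C c (m - (h : ℤ) • al c) k (It (Ftn C c m h τ)) ≤
        It (Etn C c (m - (h : ℤ) • al c) k (Ftn C c m h τ)) := by
      intro k
      induction k with
      | zero => exact le_refl _
      | succ k ih =>
        obtain ⟨-, -, -, i4, -, -, -, -, -, -, -, i12⟩ :=
          hIDL A ι l C c ((m - (h : ℤ) • al c) + (k : ℤ) • al c)
        exact (i4 _ _ ih).trans (i12 ζ _ (hEk k))
    have hfin : Ein' C c (m - (h : ℤ) • al c) h (It (Ftn C c m h τ)) ≤ It τ := by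
      refine (hEle h).trans ?_
      rw [hSL2 A ι l hl C ζ c m τ hτ hE0 h hh]
      intro x hx
      rw [mem_It] at hx ⊢
      intro y
      have h3 := hx y
      rw [LinearMap.smul_apply, smul_eq_mul] at h3
      have h4 : ((h.factorial : ℂ) ^ 2) ≠ 0 := by
        have : (h.factorial : ℂ) ≠ 0 := by exact_mod_cast h.factorial_ne_zero
        exact pow_ne_zero 2 this
      exact (mul_eq_zero.1 h3).resolve_left h4
    -- monotonicity of `F^k`
    have hmono : ∀ k : ℕ, ∀ I J : Submodule ℂ A, I ≤ J → Fin' C c m k I ≤ Fin' C c m k J := by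
      intro k
      induction k with
      | zero => exact fun I J hIJ => hIJ
      | succ k ih =>
        intro I J hIJ
        obtain ⟨-, -, i3, -⟩ := hIDL A ι l C c (m - (k : ℤ) • al c)
        exact i3 _ _ (ih I J hIJ)
    exact hmono h _ _ hfin

end fam

/-- **MAIN12** for a family. -/
theorem t_main12T (hTRF : S_TRF) (hSL2 : S_SL2) (hIDL : S_IDL) (hIT : S_IT) (hCH : S_CH)
    (hGSUP : S_GSUP) (hG1 : S_G1) (hG2 : S_G2) (hG0 : S_G0)
    (N l : ℕ) [NeZero l] (q : ℂ) (hl : l ≠ 0) (s : ℕ → ℂˣ) (D : Dl N l q)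
    (C : Core (A N l q) (Fin (N + 1)) l) (hS : Sett N l q hl s D C) (ζ : ℂ)
    (P : (ZMod l → ℤ) → (A N l q →ₗ[ℂ] ℂ) → Prop) (hP : Fam C ζ P) (m : ZMod l → ℤ)
    (hTr : ZeroAbove P m) (τ : A N l q →ₗ[ℂ] ℂ) (hτP : P m τ) (hτ0 : τ ≠ 0) :
    ∃ c : ZMod l, m = fun x => if x = c then ((N : ℤ) + 1) else 0 := by
  have hτ := hP.trz _ _ hτP
  have hl2 : 2 ≤ l := by have := hS.par.h3; omega
  obtain ⟨c, hc⟩ := Finite.exists_max m
  -- the sequence
  set st := Helper84.SQ.stt C c m τ with hst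
  let mm : ℕ → ZMod l → ℤ := fun t => (st t).1
  let tt : ℕ → (A N l q →ₗ[ℂ] ℂ) := fun t => (st t).2
  let hh : ℕ → ℕ := fun t => (mm t (c + (t : ZMod l)) - mm t (c + (t : ZMod l) + 1)).toNat
  have hm0 : mm 0 = m := rfl
  have ht0 : tt 0 = τ := rfl
  have hms : ∀ t, mm (t + 1) = mm t - ((hh t : ℕ) : ℤ) • al (c + (t : ZMod l)) := fun t => rfl
  have hts : ∀ t, tt (t + 1) = Ftn C (c + (t : ZMod l)) (mm t) (hh t) (tt t) := fun t => rfl
  have hza : ∀ t, (∑ x, mm t x ^ 2 = ∑ x, m x ^ 2) → ZeroAbove P (mm t) := by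
    intro t ht m' hm'
    rw [ht] at hm'
    exact hTr m' hm'
  have hinv : ∀ t : ℕ, (∀ x, mm t x ≤ mm t (c + (t : ZMod l))) ∧
      (∑ x, mm t x ^ 2 = ∑ x, m x ^ 2) ∧ P (mm t) (tt t) := by
    intro t
    induction t with
    | zero =>
      refine ⟨?_, rfl, hτP⟩
      intro x
      simpa [hm0] using hc x
    | succ t ih =>
      obtain ⟨h1, h2, h3⟩ := ih
      have hhn : ((hh t : ℕ) : ℤ) = mm t (c + (t : ZMod l)) - mm t (c + (t : ZMod l) + 1) := by
        refine Int.toNat_of_nonneg ?_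
        have := h1 (c + (t : ZMod l) + 1)
        linarith
      have hsw : mm (t + 1) = mm t ∘ Equiv.swap (c + (t : ZMod l)) (c + (t : ZMod l) + 1) := by
        rw [hms]
        exact Helper84.SQ.swap_sub hl2 _ _ _ hhn
      have hstep := t_stepT hl2 hTRF hSL2 hIDL hIT C ζ P hP (c + (t : ZMod l)) (mm t) (hh t) hhn
        (hza t h2) (tt t) h3
      refine ⟨?_, ?_, ?_⟩
      · intro x
        rw [hsw]
        simp only [Function.comp]
        push_cast
        rw [← add_assoc, Equiv.swap_apply_right]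
        exact h1 _
      · rw [← h2, hsw]
        exact Equiv.sum_comp (Equiv.swap (c + (t : ZMod l)) (c + (t : ZMod l) + 1))
          (fun x => mm t x ^ 2)
      · rw [hts, hms]
        exact hstep.2.1
  have hhn : ∀ t, ((hh t : ℕ) : ℤ) = mm t (c + (t : ZMod l)) - mm t (c + (t : ZMod l) + 1) := by
    intro t
    refine Int.toNat_of_nonneg ?_
    have := (hinv t).1 (c + (t : ZMod l) + 1)
    linarith
  have hstep := fun t : ℕ => t_stepT hl2 hTRF hSL2 hIDL hIT C ζ P hP (c + (t : ZMod l))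
    (mm t) (hh t) (hhn t) (hza t (hinv t).2.1) (tt t) (hinv t).2.2
  -- `I_0`
  obtain ⟨_, _, _, _, _, _, _, _, h9, h10, _⟩ := hIDL (A N l q) (Fin (N + 1)) l C c m
  have hone : (1 : A N l q) ∉ It τ := by
    intro h1
    apply hτ0
    ext y
    have := (mem_It τ 1).1 h1 y
    rw [one_mul] at this
    rw [this]; rfl
  have hphi : ∀ a ∈ It τ, tor N l q hl s a ∈ It τ := by
    intro a ha
    rw [← hS.c0.φ a, mem_It]
    intro y
    obtain ⟨z, rfl⟩ := C.φ.surjective y
    rw [← map_mul, hτ.eq, (mem_It τ a).1 ha z, mul_zero]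
  obtain ⟨β0, hβ0, hGG0⟩ := hG0 N l q hl s D C hS m (It τ) (h9 ζ τ hτ) hone hphi (h10 ζ τ hτ)
  -- the functions `β_t`
  let β : ℕ → (Fin (N + 1) → ℤ) → ℤ := fun t =>
    Nat.rec β0 (fun t b => (Fc l (c + (t : ZMod l)))^[hh t] b) t
  have hβs : ∀ t : ℕ, β (t + 1) = (Fc l (c + (t : ZMod l)))^[hh t] (β t) := fun t => rfl
  have hGG : ∀ t : ℕ, ∃ k, 1 ≤ k ∧ GG hl s C (mm t) ((It (tt t)) ^ k) (β t) := by
    intro t
    induction t with
    | zero => exact ⟨1, le_rfl, by rw [pow_one]; exact hGG0⟩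
    | succ t ih =>
      obtain ⟨k, hk, hG⟩ := ih
      refine ⟨(hh t).factorial * k, Nat.mul_pos (Nat.factorial_pos _) hk, ?_⟩
      have h1 := Helper84.SQ.GG_iter hG1 hl s D C hS (c + (t : ZMod l)) (mm t) _ _ hG (hh t)
      rw [hβs, hms]
      refine Helper84.SQ.GG_anti ?_ h1
      rw [pow_mul]
      refine (Helper84.SQ.pow_mono_sub ?_ k).trans
        (Helper84.SQ.finp_pow hIDL C (c + (t : ZMod l)) (mm t) (It (tt t)) k hk (hh t))
      rw [hts]
      exact (hstep t).2.2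
  have hE : ∀ t : ℕ, Ec l (c + (t : ZMod l)) (β t) = 0 := by
    intro t
    obtain ⟨k, hk, hG⟩ := hGG t
    refine hG2 N l q hl s D C hS (c + (t : ZMod l)) (mm t) _ _ hG ?_
    exact Helper84.SQ.eps_mem_pow C _ _ (C.e_idem _) (hstep t).1 k hk
  have hsup : ∀ t, (Function.support (β t)).Finite ∧ ∀ x, β t x ≠ 0 →
      Pool.Agent.Helper34.SQ.ty l x = mm t := by
    intro t
    obtain ⟨k, _, hG⟩ := hGG t
    exact hGSUP N l q hl s D C hS _ _ _ hG
  have hch := hCH (N + 1) l hl2 c β mm hh (hsup 0).1 (fun t => (hsup t).2) hhn hβs hE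
  obtain ⟨x, hx⟩ := Function.ne_iff.1 hβ0
  have hx0 : β 0 x ≠ 0 := hx
  refine ⟨c, ?_⟩
  have hty := (hsup 0).2 x hx0
  rw [hm0] at hty
  have hxc := hch x hx0
  rw [← hty]
  funext y
  simp only [Pool.Agent.Helper34.SQ.ty]
  by_cases hy : y = c
  · subst hy
    rw [if_pos rfl, Finset.filter_true_of_mem (fun p _ => hxc p)]
    simp
  · rw [if_neg hy, Finset.filter_false_of_mem]
    · simp
    · intro p _ hp
      exact hy (by rw [← hp, hxc p])

/-- a family which is zero at all `n δ_c` is zero. -/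
theorem t_famZero (hTRF : S_TRF) (hSL2 : S_SL2) (hIDL : S_IDL) (hIT : S_IT) (hCH : S_CH)
    (hGSUP : S_GSUP) (hG1 : S_G1) (hG2 : S_G2) (hG0 : S_G0)
    (N l : ℕ) [NeZero l] (q : ℂ) (hl : l ≠ 0) (s : ℕ → ℂˣ) (D : Dl N l q)
    (C : Core (A N l q) (Fin (N + 1)) l) (hS : Sett N l q hl s D C) (ζ : ℂ)
    (P : (ZMod l → ℤ) → (A N l q →ₗ[ℂ] ℂ) → Prop) (hP : Fam C ζ P)
    (h0 : ∀ (c : ZMod l) (τ : A N l q →ₗ[ℂ] ℂ),
      P (fun x => if x = c then ((N : ℤ) + 1) else 0) τ → τ = 0) :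
    ∀ m τ, P m τ → τ = 0 := by
  classical
  -- a bound for the squares on the types
  obtain ⟨B, hB⟩ : ∃ B : ℤ, ∀ m ∈ C.types, ∑ x, m x ^ 2 ≤ B := by
    refine ⟨∑ m ∈ C.types, ∑ x, m x ^ 2, fun m hm => ?_⟩
    exact Finset.single_le_sum (f := fun m : ZMod l → ℤ => ∑ x, m x ^ 2)
      (fun m _ => Finset.sum_nonneg fun x _ => sq_nonneg _) hm
  have hnot : ∀ m, m ∉ C.types → ∀ τ, P m τ → τ = 0 := by
    intro m hm τ hτ
    ext x
    have h1 := (hP.trz m τ hτ).blk x
    rw [C.e_types m hm, mul_zero, map_zero] at h1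
    rw [← h1]; rfl
  have key : ∀ k : ℕ, ∀ m, (B - ∑ x, m x ^ 2 < (k : ℤ)) → ∀ τ, P m τ → τ = 0 := by
    intro k
    induction k with
    | zero =>
      intro m hm τ hτ
      refine hnot m (fun hmem => ?_) τ hτ
      have := hB m hmem
      push_cast at hm
      linarith
    | succ k ih =>
      intro m hm τ hτ
      by_contra hne
      have hza : ZeroAbove P m := by
        intro m' hm' τ' hτ'
        refine ih m' ?_ τ' hτ'
        push_cast at hm
        linarith
      obtain ⟨c, hc⟩ := t_main12T hTRF hSL2 hIDL hIT hCH hGSUP hG1 hG2 hG0 N l q hl s D C hS ζ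
        P hP m hza τ hτ hne
      rw [hc] at hτ
      exact hne (h0 c τ hτ)
  intro m τ hτ
  obtain ⟨k, hk⟩ : ∃ k : ℕ, B - ∑ x, m x ^ 2 < (k : ℤ) :=
    ⟨(B - ∑ x, m x ^ 2 + 1).toNat, by
      have := Int.self_le_toNat (B - ∑ x, m x ^ 2 + 1)
      linarith⟩
  exact key k m hk τ hτ

end

end Pool.Agent.Helper34.SQ
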