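import Pool.Agent.Helper34.SQ.Model4

/-!
Project SQ (MP_bb32d1_al), stage C (lower bound), helper34: augmentation and averaging on the
diagonal coinvariants, stability of `DRmaps` under `F`, `E`, `M`.
-/

set_option autoImplicit false
set_option linter.unusedSectionVars false

namespace Pool.Agent.Helper34.SQ

noncomputable section

open Pool.Agent.Helper19.SQ MvPolynomial

/-- the augmentation of `DR n`. -/
def aug (n : ℕ) : DR n →ₐ[ℂ] ℂ :=
  Ideal.Quotient.liftₐ (dIdeal n) (aeval (fun _ => (0 : ℂ))) (by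
    intro a ha
    have h : dIdeal n ≤ RingHom.ker (aeval (fun _ => (0 : ℂ)) : Pn n →ₐ[ℂ] ℂ) := by
      refine Ideal.span_le.2 ?_
      intro f hf
      rw [SetLike.mem_coe, RingHom.mem_ker, MvPolynomial.aeval_zero', hf.2, map_zero]
    exact h ha)

theorem aug_mk (n : ℕ) (p : Pn n) : aug n (Ideal.Quotient.mk (dIdeal n) p) = constantCoeff p := by
  rw [aug, Ideal.Quotient.liftₐ_apply, Ideal.Quotient.lift_mk]
  exact MvPolynomial.aeval_zero' p

theorem aug_xq (n : ℕ) (j : Fin n) : aug n (xq n j) = 0 := by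
  rw [xq, aug_mk, constantCoeff_X]

theorem aug_yq (n : ℕ) (j : Fin n) : aug n (yq n j) = 0 := by
  rw [yq, aug_mk, constantCoeff_X]

theorem rn_const {n : ℕ} (σ : Equiv.Perm (Fin n)) (p : Pn n) :
    constantCoeff (rn σ p) = constantCoeff p := by
  rw [rn]
  exact constantCoeff_rename _ _

theorem rn_mul {n : ℕ} (σ τ : Equiv.Perm (Fin n)) (p : Pn n) :
    rn (σ * τ) p = rn σ (rn τ p) := by
  rw [rn, rn, rn, rename_rename]
  congr 2
  funext i
  rcases i with i | i <;> rfl

theorem rq_mul {n : ℕ} (σ τ : Equiv.Perm (Fin n)) (v : DR n) : rq (σ * τ) v = rq σ (rq τ v) := by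
  obtain ⟨p, rfl⟩ := Ideal.Quotient.mk_surjective v
  rw [rq_mk, rq_mk, rq_mk, rn_mul]

theorem card_ne (n : ℕ) : (Fintype.card (Equiv.Perm (Fin n)) : ℂ) ≠ 0 := by
  exact_mod_cast Fintype.card_ne_zero

/-- the sum of the translates is a number. -/
theorem sum_rq (n : ℕ) (b : DR n) :
    ∑ σ : Equiv.Perm (Fin n), rq σ b =
      algebraMap ℂ (DR n) ((Fintype.card (Equiv.Perm (Fin n)) : ℂ) * aug n b) := by
  obtain ⟨p, rfl⟩ := Ideal.Quotient.mk_surjective b
  have h1 : ∑ σ : Equiv.Perm (Fin n), rq σ (Ideal.Quotient.mk (dIdeal n) p) =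
      Ideal.Quotient.mk (dIdeal n) (∑ σ : Equiv.Perm (Fin n), rn σ p) := by
    rw [map_sum]
    exact Finset.sum_congr rfl fun σ _ => rq_mk σ p
  have h2 : algebraMap ℂ (DR n) ((Fintype.card (Equiv.Perm (Fin n)) : ℂ) *
      aug n (Ideal.Quotient.mk (dIdeal n) p)) = Ideal.Quotient.mk (dIdeal n)
        (C ((Fintype.card (Equiv.Perm (Fin n)) : ℂ) * constantCoeff p)) := by
    rw [aug_mk]
    rfl
  rw [h1, h2, Ideal.Quotient.eq]
  refine Ideal.subset_span ⟨?_, ?_⟩
  · intro τ
    rw [map_sub, map_sum]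
    have h3 : rn τ (C ((Fintype.card (Equiv.Perm (Fin n)) : ℂ) * constantCoeff p) : Pn n) =
        C ((Fintype.card (Equiv.Perm (Fin n)) : ℂ) * constantCoeff p) := by
      rw [rn, rename_C]
    rw [h3]
    congr 1
    simp_rw [← rn_mul]
    exact Equiv.sum_comp (Equiv.mulLeft τ) (fun σ => rn σ p)
  · rw [map_sub, map_sum, constantCoeff_C]
    simp_rw [rn_const]
    rw [Finset.sum_const, Finset.card_univ, nsmul_eq_mul, sub_self]

section avg

variable {n l : ℕ} [NeZero l]

/-- the average over the symmetric group. -/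
def avT (n l : ℕ) [NeZero l] : Tup n l (DR n) →ₗ[ℂ] Tup n l (DR n) where
  toFun u := fun x => (Fintype.card (Equiv.Perm (Fin n)) : ℂ)⁻¹ •
    ∑ σ : Equiv.Perm (Fin n), rq σ (u (x ∘ σ))
  map_add' u v := by
    funext x
    rw [Pi.add_apply, ← smul_add, ← Finset.sum_add_distrib]
    congr 1
    exact Finset.sum_congr rfl fun σ _ => by rw [Pi.add_apply, map_add]
  map_smul' c u := by
    funext x
    rw [Pi.smul_apply, RingHom.id_apply, smul_comm c]
    congr 1
    rw [Finset.smul_sum]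
    exact Finset.sum_congr rfl fun σ _ => by rw [Pi.smul_apply, map_smul]

theorem avT_apply (u : Tup n l (DR n)) (x : Fin n → ZMod l) :
    avT n l u x = (Fintype.card (Equiv.Perm (Fin n)) : ℂ)⁻¹ •
      ∑ σ : Equiv.Perm (Fin n), rq σ (u (x ∘ σ)) := rfl

theorem avT_mem (u : Tup n l (DR n)) : avT n l u ∈ DRmaps n l := by
  intro τ x
  rw [avT_apply, avT_apply, map_smul, map_sum]
  congr 1
  have h : ∀ σ : Equiv.Perm (Fin n), rq τ (rq σ (u ((x ∘ τ) ∘ σ))) =
      rq (τ * σ) (u (x ∘ (τ * σ : Equiv.Perm (Fin n)))) := by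
    intro σ
    rw [rq_mul]
    rfl
  rw [Finset.sum_congr rfl fun σ _ => h σ]
  exact Equiv.sum_comp (Equiv.mulLeft τ) (fun σ : Equiv.Perm (Fin n) => rq σ (u (x ∘ σ)))

theorem avT_smul (b : DR n) (u : Tup n l (DR n)) (hu : u ∈ DRmaps n l) :
    avT n l (b • u) = aug n b • u := by
  funext x
  rw [avT_apply, Pi.smul_apply]
  have h : ∀ σ : Equiv.Perm (Fin n), rq σ ((b • u) (x ∘ σ)) = rq σ b * u x := by
    intro σ
    rw [Pi.smul_apply, smul_eq_mul, map_mul, hu σ x]
  rw [Finset.sum_congr rfl fun σ _ => h σ, ← Finset.sum_mul, sum_rq, ← Algebra.smul_def,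
    smul_smul, ← mul_assoc, inv_mul_cancel₀ (card_ne n), one_mul]

theorem one_mem_DRmaps : (1 : Tup n l (DR n)) ∈ DRmaps n l := by
  intro σ x
  rw [Pi.one_apply, Pi.one_apply, map_one]

theorem upd_comp (x : Fin n → ZMod l) (σ : Equiv.Perm (Fin n)) (j : Fin n) (c : ZMod l) :
    Function.update (x ∘ σ) j c = (Function.update x (σ j) c) ∘ σ := by
  funext i
  by_cases h : i = j
  · subst h
    rw [Function.update_self, Function.comp_apply, Function.update_self]
  · rw [Function.update_of_ne h, Function.comp_apply, Function.comp_apply,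
      Function.update_of_ne (fun h' => h (σ.injective h'))]

theorem step_mem (s : Fin n → DR n) (hs : ∀ (σ : Equiv.Perm (Fin n)) j, rq σ (s j) = s (σ j))
    (c : ZMod l) (u : Tup n l (DR n)) (hu : u ∈ DRmaps n l) :
    (fun x => ∑ j, s j * u (Function.update x j (x j + c))) ∈ DRmaps n l := by
  intro σ x
  simp only
  rw [map_sum]
  have h : ∀ j, rq σ (s j * u (Function.update (x ∘ σ) j ((x ∘ σ) j + c))) =
      s (σ j) * u (Function.update x (σ j) (x (σ j) + c)) := by
    intro j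
    rw [map_mul, hs, upd_comp, hu σ, Function.comp_apply]
  rw [Finset.sum_congr rfl fun j _ => h j]
  exact Equiv.sum_comp σ (fun j => s j * u (Function.update x j (x j + c)))

theorem mult_mem (z : ZMod l → ℂ) (κ : Fin n → DR n)
    (hκ : ∀ (σ : Equiv.Perm (Fin n)) j, rq σ (κ j) = κ (σ j))
    (u : Tup n l (DR n)) (hu : u ∈ DRmaps n l) :
    (fun x => (∑ j, algebraMap ℂ (DR n) (z (x j)) * κ j ^ 2) * u x) ∈ DRmaps n l := by
  intro σ x
  simp only
  rw [map_mul, hu σ, map_sum]
  congr 1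
  have h : ∀ j, rq σ (algebraMap ℂ (DR n) (z ((x ∘ σ) j)) * κ j ^ 2) =
      algebraMap ℂ (DR n) (z (x (σ j))) * κ (σ j) ^ 2 := by
    intro j
    rw [map_mul, map_pow, hκ, AlgHom.commutes, Function.comp_apply]
  rw [Finset.sum_congr rfl fun j _ => h j]
  exact Equiv.sum_comp σ (fun j => algebraMap ℂ (DR n) (z (x j)) * κ j ^ 2)

end avg

/-- the augmentation ideal is nilpotent. -/
theorem ker_aug_nil (n : ℕ) : ∃ k : ℕ, (RingHom.ker (aug n)) ^ k = ⊥ := by
  have hfin : FiniteDimensional ℂ (DR n) := Pool.Agent.Helper95.SQ.s_fin n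
  have hnoe : IsNoetherianRing (DR n) := isNoetherian_of_tower ℂ (inferInstance : IsNoetherian ℂ (DR n))
  have hfg : (RingHom.ker (aug n)).FG := IsNoetherian.noetherian _
  have hle : RingHom.ker (aug n) ≤ nilradical (DR n) := by
    intro b hb
    obtain ⟨p, rfl⟩ := Ideal.Quotient.mk_surjective b
    rw [RingHom.mem_ker] at hb
    have hp : constantCoeff p = 0 := by
      rw [← aug_mk]
      exact hb
    rw [mem_nilradical, p.as_sum, map_sum]
    refine isNilpotent_sum fun d hd => ?_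
    have hd0 : d ≠ 0 := by
      intro h
      rw [h] at hd
      rw [mem_support_iff] at hd
      exact hd hp
    obtain ⟨i, hi⟩ : ∃ i, d i ≠ 0 := by
      by_contra h
      push Not at h
      exact hd0 (Finsupp.ext h)
    have hX : IsNilpotent (Ideal.Quotient.mk (dIdeal n) (X i)) := by
      rcases i with i | i
      · exact ⟨n, xq_pow n i⟩
      · exact ⟨n, yq_pow n i⟩
    have hmon : ∃ q : Pn n, monomial d (coeff d p) = X i * q := by
      refine ⟨monomial (d - Finsupp.single i 1) (coeff d p), ?_⟩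
      rw [X, monomial_mul, one_mul, add_tsub_cancel_of_le]
      rw [Finsupp.single_le_iff]
      omega
    obtain ⟨q, hq⟩ := hmon
    rw [hq, map_mul]
    exact (Commute.all _ _).isNilpotent_mul_right hX
  obtain ⟨k, hk⟩ := (Ideal.FG.isNilpotent_iff_le_nilradical hfg).2 hle
  exact ⟨k, hk⟩

end

end Pool.Agent.Helper34.SQ
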