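import Pool.Agent.Helper19.SQ.CDefs
import Pool.Agent.Helper86.SQ.CLP
import Pool.Agent.Helper34.SQ.Weyl

/-!
Project SQ (MP_bb32d1_al), stage C (lower bound), helper34: hopping operators on the functions
`(Fin n → ZMod l) → B` and the subspaces stable under them.
-/

set_option autoImplicit false
set_option linter.unusedSectionVars false

namespace Pool.Agent.Helper34.SQ

noncomputable section

open Pool.Agent.Helper19.SQ

section hop

variable {n l : ℕ} {B : Type} [CommRing B] [Algebra ℂ B]

/-- functions on the configurations. -/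
abbrev Tup (n l : ℕ) (B : Type) : Type := (Fin n → ZMod l) → B

/-- `(hop a b f u)(x) = ∑_{j : x_j = a} f_j u(x with x_j := b)`. -/
def hop (a b : ZMod l) (f : Fin n → B) : Tup n l B →ₗ[ℂ] Tup n l B where
  toFun u := fun x => ∑ j, if x j = a then f j * u (Function.update x j b) else 0
  map_add' u v := by
    funext x
    rw [Pi.add_apply, ← Finset.sum_add_distrib]
    refine Finset.sum_congr rfl fun j _ => ?_
    by_cases h : x j = a
    · rw [if_pos h, if_pos h, if_pos h, Pi.add_apply, mul_add]
    · rw [if_neg h, if_neg h, if_neg h, add_zero]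
  map_smul' c u := by
    funext x
    rw [Pi.smul_apply, Finset.smul_sum]
    refine Finset.sum_congr rfl fun j _ => ?_
    by_cases h : x j = a
    · rw [if_pos h, if_pos h, Pi.smul_apply, mul_smul_comm, RingHom.id_apply]
    · rw [if_neg h, if_neg h, smul_zero]

theorem hop_apply (a b : ZMod l) (f : Fin n → B) (u : Tup n l B) (x : Fin n → ZMod l) :
    hop a b f u x = ∑ j, if x j = a then f j * u (Function.update x j b) else 0 := rfl

/-- `(cnt a f)(x) = ∑_{j : x_j = a} f_j`. -/
def cnt (a : ZMod l) (f : Fin n → B) : Tup n l B := fun x => ∑ j, if x j = a then f j else 0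

theorem upd_upd (x : Fin n → ZMod l) (j : Fin n) (b c : ZMod l) :
    Function.update (Function.update x j b) j c = Function.update x j c :=
  Function.update_idem _ _ _

/-- the composition of two hoppings, as a double sum. -/
theorem hop_hop (a b c d : ZMod l) (f g : Fin n → B) (u : Tup n l B) (x : Fin n → ZMod l) :
    hop a b f (hop c d g u) x =
      (∑ j, if x j = a ∧ b = c then f j * g j * u (Function.update x j d) else 0) +
      ∑ j, ∑ k, if j ≠ k ∧ x j = a ∧ x k = c then
        f j * g k * u (Function.update (Function.update x j b) k d) else 0 := by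
  classical
  rw [hop_apply, ← Finset.sum_add_distrib]
  refine Finset.sum_congr rfl fun j _ => ?_
  by_cases hj : x j = a
  · rw [if_pos hj, hop_apply, Finset.mul_sum]
    rw [← Finset.add_sum_erase _ _ (Finset.mem_univ j)]
    congr 1
    · rw [Function.update_self]
      by_cases hbc : b = c
      · rw [if_pos hbc, if_pos ⟨hj, hbc⟩, upd_upd, mul_assoc]
      · rw [if_neg hbc, if_neg (fun h => hbc h.2), mul_zero]
    · rw [← Finset.add_sum_erase _ _ (Finset.mem_univ j)]
      rw [if_neg (fun h => h.1 rfl), zero_add]
      refine Finset.sum_congr rfl fun k hk => ?_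
      have hkj : k ≠ j := Finset.ne_of_mem_erase hk
      rw [Function.update_of_ne hkj]
      by_cases hkc : x k = c
      · rw [if_pos hkc, if_pos ⟨hkj.symm, hj, hkc⟩, mul_assoc]
      · rw [if_neg hkc, if_neg (fun h => hkc h.2.2), mul_zero]
  · rw [if_neg hj, if_neg (fun h => hj h.1)]
    rw [Finset.sum_eq_zero (fun k _ => if_neg (fun h => hj h.2.1)), add_zero]

theorem dsum_swap (a b c d : ZMod l) (f g : Fin n → B) (u : Tup n l B) (x : Fin n → ZMod l) :
    (∑ j, ∑ k, if j ≠ k ∧ x j = a ∧ x k = c then
        f j * g k * u (Function.update (Function.update x j b) k d) else 0) =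
    ∑ j, ∑ k, if j ≠ k ∧ x j = c ∧ x k = a then
        g j * f k * u (Function.update (Function.update x j d) k b) else 0 := by
  rw [Finset.sum_comm]
  refine Finset.sum_congr rfl fun k _ => Finset.sum_congr rfl fun j _ => ?_
  by_cases h : j ≠ k ∧ x j = a ∧ x k = c
  · rw [if_pos h, if_pos ⟨h.1.symm, h.2.2, h.2.1⟩, mul_comm (f j) (g k),
      Function.update_comm h.1]
  · rw [if_neg h, if_neg (fun h' => h ⟨h'.1.symm, h'.2.2, h'.2.1⟩)]

/-- commutator of two hoppings. -/
theorem hop_comm (a b c d : ZMod l) (f g : Fin n → B) (u : Tup n l B) (x : Fin n → ZMod l) :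
    hop a b f (hop c d g u) x - hop c d g (hop a b f u) x =
      (∑ j, if x j = a ∧ b = c then f j * g j * u (Function.update x j d) else 0) -
      ∑ j, if x j = c ∧ d = a then g j * f j * u (Function.update x j b) else 0 := by
  rw [hop_hop, hop_hop, dsum_swap a b c d f g u x]
  ring

theorem hop_comm_ne {a b c : ZMod l} (hac : a ≠ c) (f g : Fin n → B) (u : Tup n l B) :
    hop a b f (hop b c g u) - hop b c g (hop a b f u) = hop a c (f * g) u := by
  funext x
  rw [Pi.sub_apply, hop_comm, hop_apply]
  rw [Finset.sum_eq_zero (s := Finset.univ) (f := fun j => if x j = b ∧ c = a then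
    g j * f j * u (Function.update x j b) else 0) (fun j _ => if_neg (fun h => hac h.2.symm)),
    sub_zero]
  refine Finset.sum_congr rfl fun j _ => ?_
  by_cases h : x j = a
  · rw [if_pos ⟨h, rfl⟩, if_pos h, Pi.mul_apply]
  · rw [if_neg (fun h' => h h'.1), if_neg h]

theorem hop_comm_zero {a b c d : ZMod l} (hbc : b ≠ c) (hda : d ≠ a) (f g : Fin n → B)
    (u : Tup n l B) : hop a b f (hop c d g u) - hop c d g (hop a b f u) = 0 := by
  funext x
  rw [Pi.sub_apply, hop_comm]
  rw [Finset.sum_eq_zero (s := Finset.univ) (f := fun j => if x j = a ∧ b = c then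
    f j * g j * u (Function.update x j d) else 0) (fun j _ => if_neg (fun h => hbc h.2)),
    Finset.sum_eq_zero (s := Finset.univ) (f := fun j => if x j = c ∧ d = a then
    g j * f j * u (Function.update x j b) else 0) (fun j _ => if_neg (fun h => hda h.2)), sub_zero]
  rfl

theorem hop_comm_back (a b : ZMod l) (f g : Fin n → B) (u : Tup n l B) :
    hop a b f (hop b a g u) - hop b a g (hop a b f u) =
      (cnt a (f * g) - cnt b (f * g)) * u := by
  funext x
  rw [Pi.sub_apply, hop_comm, Pi.mul_apply, Pi.sub_apply, sub_mul, cnt, cnt, Finset.sum_mul,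
    Finset.sum_mul]
  congr 1
  · refine Finset.sum_congr rfl fun j _ => ?_
    by_cases h : x j = a
    · rw [if_pos ⟨h, rfl⟩, if_pos h, Pi.mul_apply, ← h, Function.update_eq_self]
    · rw [if_neg (fun h' => h h'.1), if_neg h, zero_mul]
  · refine Finset.sum_congr rfl fun j _ => ?_
    by_cases h : x j = b
    · rw [if_pos ⟨h, rfl⟩, if_pos h, Pi.mul_apply, ← h, Function.update_eq_self, mul_comm (g j)]
    · rw [if_neg (fun h' => h h'.1), if_neg h, zero_mul]

/-- `cnt` after a hop. -/
theorem cnt_update (c : ZMod l) (f : Fin n → B) (x : Fin n → ZMod l) (j : Fin n) (b : ZMod l) :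
    cnt c f (Function.update x j b) =
      cnt c f x - (if x j = c then f j else 0) + (if b = c then f j else 0) := by
  classical
  rw [cnt, cnt, ← Finset.add_sum_erase _ _ (Finset.mem_univ j),
    ← Finset.add_sum_erase Finset.univ (fun j => if x j = c then f j else 0) (Finset.mem_univ j)]
  rw [Finset.sum_congr rfl (fun k hk => by
    rw [Function.update_of_ne (Finset.ne_of_mem_erase hk)] :
      ∀ k ∈ Finset.univ.erase j, (if Function.update x j b k = c then f k else 0) =
        if x k = c then f k else 0), Function.update_self]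
  ring

theorem mul_hop_cnt (c a b : ZMod l) (φ f : Fin n → B) (u : Tup n l B) :
    cnt c φ * hop a b f u - hop a b f (cnt c φ * u) =
      ((if a = c then (1 : ℂ) else 0) - (if b = c then 1 else 0)) • hop a b (φ * f) u := by
  funext x
  rw [Pi.sub_apply, Pi.mul_apply, hop_apply, hop_apply, Pi.smul_apply, hop_apply, Finset.mul_sum,
    ← Finset.sum_sub_distrib, Finset.smul_sum]
  refine Finset.sum_congr rfl fun j _ => ?_
  by_cases h : x j = a
  · rw [if_pos h, if_pos h, if_pos h, Pi.mul_apply, cnt_update, h, Pi.mul_apply]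
    by_cases h1 : a = c
    · by_cases h2 : b = c
      · rw [if_pos h1, if_pos h2, if_pos h1, if_pos h2, sub_self, zero_smul]
        ring
      · rw [if_pos h1, if_neg h2, if_pos h1, if_neg h2, sub_zero, one_smul]
        ring
    · by_cases h2 : b = c
      · rw [if_neg h1, if_pos h2, if_neg h1, if_pos h2, zero_sub, neg_smul, one_smul]
        ring
      · rw [if_neg h1, if_neg h2, if_neg h1, if_neg h2, sub_self, zero_smul]
        ring
  · rw [if_neg h, if_neg h, if_neg h, smul_zero, mul_zero, sub_zero]

end hop

end

end Pool.Agent.Helper34.SQ
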