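import Pool.Agent.Helper34.SQ.Hop

/-!
Project SQ (MP_bb32d1_al), stage C (lower bound), helper34: a subspace of the functions
`(Fin n → ZMod l) → B` that is stable under `F`, `E`, `M` is stable under all hoppings.
-/

set_option autoImplicit false
set_option linter.unusedSectionVars false

namespace Pool.Agent.Helper34.SQ

noncomputable section

open Pool.Agent.Helper19.SQ

section gen

variable {n l : ℕ} [NeZero l] {B : Type} [CommRing B] [Algebra ℂ B]

theorem hop_add (a b : ZMod l) (f g : Fin n → B) (u : Tup n l B) :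
    hop a b (f + g) u = hop a b f u + hop a b g u := by
  funext x
  rw [Pi.add_apply, hop_apply, hop_apply, hop_apply, ← Finset.sum_add_distrib]
  refine Finset.sum_congr rfl fun j _ => ?_
  by_cases h : x j = a
  · rw [if_pos h, if_pos h, if_pos h, Pi.add_apply, add_mul]
  · rw [if_neg h, if_neg h, if_neg h, add_zero]

theorem hop_smul (a b : ZMod l) (c : ℂ) (f : Fin n → B) (u : Tup n l B) :
    hop a b (c • f) u = c • hop a b f u := by
  funext x
  rw [Pi.smul_apply, hop_apply, hop_apply, Finset.smul_sum]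
  refine Finset.sum_congr rfl fun j _ => ?_
  by_cases h : x j = a
  · rw [if_pos h, if_pos h, Pi.smul_apply, smul_mul_assoc]
  · rw [if_neg h, if_neg h, smul_zero]

theorem hop_zero_right (a b : ZMod l) (u : Tup n l B) : hop a b (0 : Fin n → B) u = 0 := by
  funext x
  rw [hop_apply]
  refine Finset.sum_eq_zero fun j _ => ?_
  by_cases h : x j = a
  · rw [if_pos h, Pi.zero_apply, zero_mul]
  · rw [if_neg h]

theorem hop_sum {ι : Type*} (t : Finset ι) (a b : ZMod l) (f : ι → Fin n → B) (u : Tup n l B) :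
    hop a b (∑ i ∈ t, f i) u = ∑ i ∈ t, hop a b (f i) u := by
  classical
  induction t using Finset.induction_on with
  | empty => rw [Finset.sum_empty, Finset.sum_empty, hop_zero_right]
  | insert i t hi ih => rw [Finset.sum_insert hi, Finset.sum_insert hi, hop_add, ih]

/-- the values `z_c κ_j²` (`z_c = q^{2c}`). -/
def wv (z : ZMod l → ℂ) (κ : Fin n → B) (c : ZMod l) : Fin n → B := fun j => z c • κ j ^ 2

/-- the raising operator. -/
def Fop (s : Fin n → B) : Tup n l B →ₗ[ℂ] Tup n l B := ∑ c, hop c (c + 1) s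

/-- the lowering operator. -/
def Eop (s' : Fin n → B) : Tup n l B →ₗ[ℂ] Tup n l B := ∑ c, hop (c + 1) c s'

/-- the multiplication. -/
def Mfn (z : ZMod l → ℂ) (κ : Fin n → B) : Tup n l B := fun x => ∑ j, wv z κ (x j) j

theorem Fop_apply (s : Fin n → B) (u : Tup n l B) (x : Fin n → ZMod l) :
    Fop s u x = ∑ j, s j * u (Function.update x j (x j + 1)) := by
  rw [Fop, LinearMap.sum_apply, Finset.sum_apply]
  simp_rw [hop_apply]
  rw [Finset.sum_comm]
  refine Finset.sum_congr rfl fun j _ => ?_
  rw [Finset.sum_ite_eq, if_pos (Finset.mem_univ _)]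

theorem Eop_apply (s' : Fin n → B) (u : Tup n l B) (x : Fin n → ZMod l) :
    Eop s' u x = ∑ j, s' j * u (Function.update x j (x j - 1)) := by
  rw [Eop, LinearMap.sum_apply, Finset.sum_apply]
  simp_rw [hop_apply]
  rw [Finset.sum_comm]
  refine Finset.sum_congr rfl fun j _ => ?_
  rw [Finset.sum_eq_single (x j - 1)]
  · rw [if_pos (sub_add_cancel _ _).symm]
  · intro c _ hc
    rw [if_neg]
    intro h
    exact hc (by rw [h, add_sub_cancel_right])
  · intro h
    exact absurd (Finset.mem_univ _) h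

theorem Mfn_eq (z : ZMod l → ℂ) (κ : Fin n → B) :
    Mfn z κ = ∑ a, z a • cnt a (fun j => κ j ^ 2) := by
  funext x
  rw [Finset.sum_apply, Mfn]
  simp_rw [Pi.smul_apply, cnt, Finset.smul_sum]
  rw [Finset.sum_comm]
  refine Finset.sum_congr rfl fun j _ => ?_
  simp_rw [smul_ite, smul_zero]
  rw [Finset.sum_ite_eq, if_pos (Finset.mem_univ _), wv]

/-- commutator of `M` with a hopping. -/
theorem M_hop (z : ZMod l → ℂ) (κ : Fin n → B) (c d : ZMod l) (f : Fin n → B) (u : Tup n l B) :
    Mfn z κ * hop c d f u - hop c d f (Mfn z κ * u) =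
      (z c - z d) • hop c d ((fun j => κ j ^ 2) * f) u := by
  rw [Mfn_eq, Finset.sum_mul, Finset.sum_mul, map_sum, ← Finset.sum_sub_distrib]
  have h : ∀ a : ZMod l, (z a • cnt a (fun j => κ j ^ 2)) * hop c d f u -
      hop c d f ((z a • cnt a (fun j => κ j ^ 2)) * u) =
      ((if c = a then z a else 0) - (if d = a then z a else 0)) •
        hop c d ((fun j => κ j ^ 2) * f) u := by
    intro a
    rw [smul_mul_assoc, smul_mul_assoc, map_smul, ← smul_sub, mul_hop_cnt, smul_smul, mul_sub]
    simp only [mul_ite, mul_one, mul_zero]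
  rw [Finset.sum_congr rfl fun a _ => h a, ← Finset.sum_smul, Finset.sum_sub_distrib,
    Finset.sum_ite_eq, Finset.sum_ite_eq, if_pos (Finset.mem_univ _), if_pos (Finset.mem_univ _)]

/-- interpolation: a polynomial with prescribed values at the `q^{2c} κ_j²`. -/
theorem exists_pol (z : ZMod l → ℂ) (hinj : Function.Injective z) (hz : ∀ a, z a ≠ 0) (K : ℕ)
    (c : ZMod l) (r : ℕ) :
    ∃ g : Polynomial ℂ, ∀ (B : Type) [CommRing B] [Algebra ℂ B] (κ : B), (κ ^ 2 - 1) ^ K = 0 →
      ∀ c' : ZMod l, Polynomial.aeval (z c' • κ ^ 2) g = if c' = c then κ ^ (2 * r) else 0 := by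
  classical
  set P : ZMod l → Polynomial ℂ := fun a =>
    (Polynomial.X - Polynomial.C (z a)) ^ K with hP
  have hcop : IsCoprime (P c) (∏ a ∈ Finset.univ.erase c, P a) := by
    refine IsCoprime.prod_right fun a ha => ?_
    refine IsCoprime.pow ?_
    refine Polynomial.isCoprime_X_sub_C_of_isUnit_sub ?_
    rw [isUnit_iff_ne_zero, sub_ne_zero]
    intro h
    exact Finset.ne_of_mem_erase ha (hinj h).symm
  obtain ⟨A, D, hAD⟩ := hcop
  refine ⟨(D * ∏ a ∈ Finset.univ.erase c, P a) *
    (Polynomial.C (z c)⁻¹ * Polynomial.X) ^ r, ?_⟩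
  intro B _ _ κ hκ c'
  have hval : Polynomial.aeval (z c' • κ ^ 2) (P c') = 0 := by
    rw [hP]
    simp only [map_pow, map_sub, Polynomial.aeval_X, Polynomial.aeval_C]
    have : z c' • κ ^ 2 - algebraMap ℂ B (z c') =
        z c' • (κ ^ 2 - 1) := by
      rw [smul_sub, Algebra.algebraMap_eq_smul_one]
    rw [this, smul_pow, hκ, smul_zero]
  by_cases h : c' = c
  · subst h
    rw [if_pos rfl]
    have h1 : Polynomial.aeval (z c' • κ ^ 2)
        (D * ∏ a ∈ Finset.univ.erase c', P a) = 1 := by
      have := congrArg (Polynomial.aeval (z c' • κ ^ 2)) hAD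
      rw [map_add, map_mul, hval, mul_zero, zero_add, map_one] at this
      exact this
    rw [map_mul, h1, one_mul, map_pow, map_mul, Polynomial.aeval_C, Polynomial.aeval_X,
      mul_smul_comm, ← Algebra.smul_def, smul_smul, mul_inv_cancel₀ (hz _), one_smul,
      ← pow_mul]
  · rw [if_neg h, map_mul, map_mul, map_prod,
      Finset.prod_eq_zero (Finset.mem_erase.2 ⟨h, Finset.mem_univ _⟩) hval, mul_zero, zero_mul]

end gen

end

end Pool.Agent.Helper34.SQ
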