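import Pool.Agent.Helper34.SQ.Model0

/-!
Project SQ (MP_bb32d1_al), stage C (lower bound), helper34: a subspace stable under `F`, `E`, `M` is
stable under all hoppings `κ^{2r} s^{a - b + l t}` and under the differences of the partial
power sums.
-/

set_option autoImplicit false
set_option linter.unusedSectionVars false

namespace Pool.Agent.Helper34.SQ

noncomputable section

open Pool.Agent.Helper19.SQ

section gen

variable {n l : ℕ} [NeZero l] {B : Type} [CommRing B] [Algebra ℂ B]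

/-- the data: `z_c = q^{2c}`, `κ`, the units `s`, and a subspace stable under `F`, `E`, `M`. -/
structure Mdl (n l : ℕ) [NeZero l] (B : Type) [CommRing B] [Algebra ℂ B] where
  z : ZMod l → ℂ
  ρ : ℂ
  κ : Fin n → B
  s : Fin n → Bˣ
  W : Submodule ℂ (Tup n l B)
  K : ℕ
  l3 : 3 ≤ l
  zinj : Function.Injective z
  z0 : ∀ a, z a ≠ 0
  zs : ∀ c, z (c + 1) = ρ * z c
  ρ1 : ρ ≠ 1
  nil : ∀ j, (κ j ^ 2 - 1) ^ K = 0
  hF : ∀ u ∈ W, Fop (fun j => (s j : B)) u ∈ W
  hE : ∀ u ∈ W, Eop (fun j => ((s j)⁻¹ : Bˣ).val) u ∈ W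
  hM : ∀ u ∈ W, Mfn z κ * u ∈ W

variable (D : Mdl n l B)

theorem Mdl.F_pow (k : ℕ) : ∀ u ∈ D.W,
    ∑ c, hop c (c + 1) (fun j => wv D.z D.κ c j ^ k * (D.s j : B)) u ∈ D.W := by
  induction k with
  | zero =>
    intro u hu
    have h := D.hF u hu
    rw [Fop, LinearMap.sum_apply] at h
    have h2 : ∀ c : ZMod l, (fun j => wv D.z D.κ c j ^ 0 * (D.s j : B)) =
        fun j => (D.s j : B) := fun c => by
      funext j
      rw [pow_zero, one_mul]
    simp_rw [h2]
    exact h
  | succ k ih =>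
    intro u hu
    have h1 : Mfn D.z D.κ * (∑ c, hop c (c + 1) (fun j => wv D.z D.κ c j ^ k * (D.s j : B)) u) -
        ∑ c, hop c (c + 1) (fun j => wv D.z D.κ c j ^ k * (D.s j : B)) (Mfn D.z D.κ * u) ∈ D.W :=
      D.W.sub_mem (D.hM _ (ih u hu)) (ih _ (D.hM u hu))
    rw [Finset.mul_sum, ← Finset.sum_sub_distrib] at h1
    have h2 : ∀ c : ZMod l, Mfn D.z D.κ * hop c (c + 1)
        (fun j => wv D.z D.κ c j ^ k * (D.s j : B)) u - hop c (c + 1)
        (fun j => wv D.z D.κ c j ^ k * (D.s j : B)) (Mfn D.z D.κ * u) =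
        (1 - D.ρ) • hop c (c + 1) (fun j => wv D.z D.κ c j ^ (k + 1) * (D.s j : B)) u := by
      intro c
      rw [M_hop, D.zs, ← hop_smul, ← hop_smul]
      congr 2
      funext j
      have hw : wv D.z D.κ c j ^ (k + 1) * (D.s j : B) =
          D.z c • (D.κ j ^ 2 * (wv D.z D.κ c j ^ k * (D.s j : B))) := by
        rw [← smul_mul_assoc, show D.z c • D.κ j ^ 2 = wv D.z D.κ c j from rfl]
        ring
      rw [Pi.smul_apply, Pi.smul_apply, Pi.mul_apply, hw, smul_smul]
      congr 1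
      ring
    rw [Finset.sum_congr rfl fun c _ => h2 c, ← Finset.smul_sum] at h1
    have h3 := D.W.smul_mem (1 - D.ρ)⁻¹ h1
    rwa [smul_smul, inv_mul_cancel₀ (sub_ne_zero.2 (Ne.symm D.ρ1)), one_smul] at h3

theorem Mdl.F_pol (g : Polynomial ℂ) : ∀ u ∈ D.W,
    ∑ c, hop c (c + 1) (fun j => Polynomial.aeval (wv D.z D.κ c j) g * (D.s j : B)) u ∈ D.W := by
  intro u hu
  induction g using Polynomial.induction_on' with
  | add p r hp hr =>
    have h : ∀ c : ZMod l, hop c (c + 1)
        (fun j => Polynomial.aeval (wv D.z D.κ c j) (p + r) * (D.s j : B)) u =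
        hop c (c + 1) (fun j => Polynomial.aeval (wv D.z D.κ c j) p * (D.s j : B)) u +
        hop c (c + 1) (fun j => Polynomial.aeval (wv D.z D.κ c j) r * (D.s j : B)) u := by
      intro c
      rw [← hop_add]
      congr 2
      funext j
      rw [Pi.add_apply, map_add, add_mul]
    rw [Finset.sum_congr rfl fun c _ => h c, Finset.sum_add_distrib]
    exact D.W.add_mem hp hr
  | monomial k a =>
    have h : ∀ c : ZMod l, hop c (c + 1)
        (fun j => Polynomial.aeval (wv D.z D.κ c j) (Polynomial.monomial k a) * (D.s j : B)) u =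
        a • hop c (c + 1) (fun j => wv D.z D.κ c j ^ k * (D.s j : B)) u := by
      intro c
      rw [← hop_smul]
      congr 2
      funext j
      rw [Pi.smul_apply, Polynomial.aeval_monomial, Algebra.smul_def, mul_assoc]
    rw [Finset.sum_congr rfl fun c _ => h c, ← Finset.smul_sum]
    exact D.W.smul_mem a (D.F_pow k u hu)

/-- the components of `F`. -/
theorem Mdl.F_one (c : ZMod l) (r : ℕ) : ∀ u ∈ D.W,
    hop c (c + 1) (fun j => D.κ j ^ (2 * r) * (D.s j : B)) u ∈ D.W := by
  intro u hu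
  obtain ⟨g, hg⟩ := exists_pol D.z D.zinj D.z0 D.K c r
  have h := D.F_pol g u hu
  have h2 : ∀ c' : ZMod l, hop c' (c' + 1)
      (fun j => Polynomial.aeval (wv D.z D.κ c' j) g * (D.s j : B)) u =
      if c' = c then hop c (c + 1) (fun j => D.κ j ^ (2 * r) * (D.s j : B)) u else 0 := by
    intro c'
    have h3 : ∀ j, Polynomial.aeval (wv D.z D.κ c' j) g = if c' = c then D.κ j ^ (2 * r) else 0 :=
      fun j => hg B (D.κ j) (D.nil j) c'
    by_cases hc : c' = c
    · subst hc
      rw [if_pos rfl]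
      congr 2
      funext j
      rw [h3 j, if_pos rfl]
    · rw [if_neg hc]
      rw [show (fun j => Polynomial.aeval (wv D.z D.κ c' j) g * (D.s j : B)) = 0 from by
        funext j
        rw [h3 j, if_neg hc, zero_mul, Pi.zero_apply], hop_zero_right]
  rw [Finset.sum_congr rfl fun c' _ => h2 c', Finset.sum_ite_eq' , if_pos (Finset.mem_univ _)] at h
  exact h

theorem zne1 (l3 : 3 ≤ l) (c : ZMod l) : c ≠ c + 1 := by
  intro h
  have h1 : (1 : ZMod l) = 0 := by
    have := congrArg (fun t => t - c) h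
    simpa using this.symm
  have h2 : ((1 : ℕ) : ZMod l) = ((0 : ℕ) : ZMod l) := by simpa using h1
  rw [ZMod.natCast_eq_natCast_iff', Nat.mod_eq_of_lt (by omega),
    Nat.mod_eq_of_lt (by omega)] at h2
  exact one_ne_zero h2

theorem zne2 (l3 : 3 ≤ l) (c : ZMod l) : c ≠ c + 1 + 1 := by
  intro h
  have h1 : (1 + 1 : ZMod l) = 0 := by
    have := congrArg (fun t => t - c) h
    rw [sub_self, add_assoc, add_sub_cancel_left] at this
    exact this.symm
  have h2 : ((2 : ℕ) : ZMod l) = ((0 : ℕ) : ZMod l) := by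
    push_cast
    rw [← one_add_one_eq_two]
    exact h1
  rw [ZMod.natCast_eq_natCast_iff', Nat.mod_eq_of_lt (by omega),
    Nat.mod_eq_of_lt (by omega)] at h2
  exact two_ne_zero h2

/-- differences of neighbouring partial power sums in `κ²`. -/
theorem Mdl.mul_dif (c : ZMod l) (r : ℕ) : ∀ u ∈ D.W,
    (cnt (c + 1) (fun j => D.κ j ^ (2 * r)) - cnt c (fun j => D.κ j ^ (2 * r))) * u ∈ D.W := by
  intro u hu
  have h := D.W.sub_mem (D.hE _ (D.F_one c r u hu)) (D.F_one c r _ (D.hE u hu))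
  rw [Eop, LinearMap.sum_apply, LinearMap.sum_apply, map_sum, ← Finset.sum_sub_distrib] at h
  have h2 : ∀ c' : ZMod l, hop (c' + 1) c' (fun j => ((D.s j)⁻¹ : Bˣ).val)
      (hop c (c + 1) (fun j => D.κ j ^ (2 * r) * (D.s j : B)) u) -
      hop c (c + 1) (fun j => D.κ j ^ (2 * r) * (D.s j : B))
        (hop (c' + 1) c' (fun j => ((D.s j)⁻¹ : Bˣ).val) u) =
      if c' = c then (cnt (c + 1) (fun j => D.κ j ^ (2 * r)) -
        cnt c (fun j => D.κ j ^ (2 * r))) * u else 0 := by
    intro c'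
    by_cases hc : c' = c
    · subst hc
      rw [if_pos rfl, hop_comm_back]
      have h3 : ((fun j => ((D.s j)⁻¹ : Bˣ).val) * fun j => D.κ j ^ (2 * r) * (D.s j : B)) =
          fun j => D.κ j ^ (2 * r) := by
        funext j
        rw [Pi.mul_apply]
        rw [show ((D.s j)⁻¹ : Bˣ).val * (D.κ j ^ (2 * r) * (D.s j : B)) =
          D.κ j ^ (2 * r) * (((D.s j)⁻¹ : Bˣ).val * (D.s j : B)) from by ring, Units.inv_mul,
          mul_one]
      rw [h3]
    · rw [if_neg hc, hop_comm_zero hc]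
      intro h
      exact hc (add_right_cancel h).symm
  rw [Finset.sum_congr rfl fun c' _ => h2 c', Finset.sum_ite_eq', if_pos (Finset.mem_univ _)] at h
  exact h

end gen

end

end Pool.Agent.Helper34.SQ
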