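import Pool.Agent.Helper34.SQ.Model1

/-!
Project SQ (MP_bb32d1_al), stage C (lower bound), helper34: projections to types, all hoppings.
-/

set_option autoImplicit false
set_option linter.unusedSectionVars false

namespace Pool.Agent.Helper34.SQ

noncomputable section

open Pool.Agent.Helper19.SQ

section gen

variable {n l : ℕ} [NeZero l] {B : Type} [CommRing B] [Algebra ℂ B]

/-- pointwise multiplication with numbers. -/
def msk (k : Tup n l ℂ) : Tup n l B →ₗ[ℂ] Tup n l B where
  toFun u := fun x => k x • u x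
  map_add' u v := by
    funext x
    rw [Pi.add_apply, Pi.add_apply, smul_add]
  map_smul' c u := by
    funext x
    rw [Pi.smul_apply, Pi.smul_apply, RingHom.id_apply, smul_comm]

theorem msk_apply (k : Tup n l ℂ) (u : Tup n l B) (x : Fin n → ZMod l) :
    msk k u x = k x • u x := rfl

/-- the numbers `#{j : x_j = a}`. -/
def na (a : ZMod l) : Tup n l ℂ := fun x => ∑ j, if x j = a then 1 else 0

/-- the indicator function of a type. -/
def indT (v : ZMod l → ℂ) : Tup n l ℂ := fun x => by
  classical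
  exact if ∀ a, na a x = v a then 1 else 0

theorem ind_apply (v : ZMod l → ℂ) (x : Fin n → ZMod l) [Decidable (∀ a, na a x = v a)] :
    indT v x = if ∀ a, na a x = v a then 1 else 0 := by
  rw [indT]
  congr

theorem na_update (x : Fin n → ZMod l) (j : Fin n) (b a : ZMod l) :
    na a (Function.update x j b) = na a x - (if x j = a then 1 else 0) + (if b = a then 1 else 0) :=
  cnt_update a (fun _ => (1 : ℂ)) x j b

theorem hop_ind (a b : ZMod l) (f : Fin n → B) (v : ZMod l → ℂ) (u : Tup n l B) :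
    hop a b f (msk (indT v) u) =
      msk (indT fun c => v c + (if a = c then 1 else 0) - (if b = c then 1 else 0))
        (hop a b f u) := by
  classical
  funext x
  rw [hop_apply, msk_apply, hop_apply, Finset.smul_sum]
  refine Finset.sum_congr rfl fun j _ => ?_
  by_cases h : x j = a
  · rw [if_pos h, if_pos h, msk_apply, ind_apply, ind_apply, mul_smul_comm]
    congr 1
    refine if_congr ?_ rfl rfl
    refine forall_congr' fun c => ?_
    rw [na_update, h]
    constructor
    · intro h1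
      rw [← h1]
      ring
    · intro h1
      rw [h1]
      ring
  · rw [if_neg h, if_neg h, smul_zero]

theorem ind_ind (v w : ZMod l → ℂ) (u : Tup n l B) [Decidable (v = w)] :
    msk (indT v) (msk (indT w) u) = if v = w then msk (indT w) u else 0 := by
  classical
  by_cases h : v = w
  · rw [if_pos h, h]
    funext x
    rw [msk_apply, msk_apply, ind_apply]
    by_cases h1 : ∀ a, na a x = w a
    · rw [if_pos h1, one_smul, one_smul]
    · rw [if_neg h1, zero_smul, zero_smul]
  · rw [if_neg h]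
    funext x
    rw [msk_apply, msk_apply, ind_apply, ind_apply, Pi.zero_apply]
    by_cases h1 : ∀ a, na a x = v a
    · have h2 : ¬ ∀ a, na a x = w a := by
        intro h2
        exact h (funext fun a => (h1 a).symm.trans (h2 a))
      rw [if_neg h2, zero_smul, smul_zero]
    · rw [if_neg h1, zero_smul]

/-- the finite set of types. -/
def tys (n l : ℕ) [NeZero l] : Finset (ZMod l → ℂ) := by
  classical
  exact Finset.univ.image fun x : Fin n → ZMod l => fun a => na a x

theorem sum_ind (u : Tup n l B) : ∑ v ∈ tys n l, msk (indT v) u = u := by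
  classical
  funext x
  rw [Finset.sum_apply, Finset.sum_eq_single (fun a => na a x)]
  · rw [msk_apply, ind_apply, if_pos (fun a => rfl), one_smul]
  · intro v _ hv
    rw [msk_apply, ind_apply, if_neg, zero_smul]
    intro h
    exact hv (funext fun a => (h a).symm)
  · intro h
    exact absurd (Finset.mem_image.2 ⟨x, Finset.mem_univ _, rfl⟩) h

variable (D : Mdl n l B)

/-- the functions whose multiplication preserves `W`. -/
def Mdl.mulC : Subalgebra ℂ (Tup n l ℂ) where
  carrier := {k | ∀ u ∈ D.W, msk k u ∈ D.W}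
  mul_mem' {a b} ha hb u hu := by
    have h : msk (a * b) u = msk a (msk b u) := by
      funext x
      rw [msk_apply, msk_apply, msk_apply, Pi.mul_apply, mul_smul]
    rw [h]
    exact ha _ (hb u hu)
  add_mem' {a b} ha hb u hu := by
    have h : msk (a + b) u = msk a u + msk b u := by
      funext x
      rw [msk_apply, Pi.add_apply, Pi.add_apply, msk_apply, msk_apply, add_smul]
    rw [h]
    exact D.W.add_mem (ha u hu) (hb u hu)
  algebraMap_mem' c u hu := by
    have h : msk (algebraMap ℂ (Tup n l ℂ) c) u = c • u := by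
      funext x
      rw [msk_apply, Pi.smul_apply]
      rfl
    rw [h]
    exact D.W.smul_mem c hu

theorem Mdl.mem_mulC (k : Tup n l ℂ) : k ∈ D.mulC ↔ ∀ u ∈ D.W, msk k u ∈ D.W := Iff.rfl

theorem Mdl.dif_mem (c : ZMod l) : na (c + 1) - na c ∈ D.mulC := by
  rw [D.mem_mulC]
  intro u hu
  have h := D.mul_dif c 0 u hu
  convert h using 1
  funext x
  rw [msk_apply, Pi.mul_apply, Pi.sub_apply, Pi.sub_apply, na, na, cnt, cnt, sub_smul, sub_mul,
    Finset.sum_smul, Finset.sum_smul, Finset.sum_mul, Finset.sum_mul]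
  congr 1
  · refine Finset.sum_congr rfl fun j _ => ?_
    by_cases h : x j = c + 1
    · rw [if_pos h, if_pos h, mul_zero, pow_zero, one_smul, one_mul]
    · rw [if_neg h, if_neg h, zero_smul, zero_mul]
  · refine Finset.sum_congr rfl fun j _ => ?_
    by_cases h : x j = c
    · rw [if_pos h, if_pos h, mul_zero, pow_zero, one_smul, one_mul]
    · rw [if_neg h, if_neg h, zero_smul, zero_mul]

theorem sum_na (x : Fin n → ZMod l) : ∑ a : ZMod l, na a x = n := by
  simp_rw [na]
  rw [Finset.sum_comm]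
  simp_rw [Finset.sum_ite_eq, if_pos (Finset.mem_univ _)]
  rw [Finset.sum_const, Finset.card_univ, Fintype.card_fin, nsmul_eq_mul, mul_one]

theorem Mdl.na_mem (a : ZMod l) : na a ∈ D.mulC := by
  have h1 : ∀ k : ℕ, na ((k : ℕ) : ZMod l) - na 0 ∈ D.mulC := by
    intro k
    induction k with
    | zero =>
      rw [Nat.cast_zero, sub_self]
      exact D.mulC.zero_mem
    | succ k ih =>
      have h := D.mulC.add_mem (D.dif_mem ((k : ℕ) : ZMod l)) ih
      rw [Nat.cast_succ]
      rwa [sub_add_sub_cancel] at h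
  have h2 : ∀ a : ZMod l, na a - na 0 ∈ D.mulC := by
    intro a
    have h := h1 a.val
    rwa [ZMod.natCast_zmod_val] at h
  have h3 : ∑ a : ZMod l, (na a - na 0) ∈ D.mulC := D.mulC.sum_mem fun a _ => h2 a
  have h4 : (na 0 : Tup n l ℂ) = (l : ℂ)⁻¹ • (algebraMap ℂ (Tup n l ℂ) (n : ℂ) -
      ∑ a : ZMod l, (na a - na 0)) := by
    funext x
    have hl : (l : ℂ) ≠ 0 := Nat.cast_ne_zero.2 (NeZero.ne l)
    rw [Pi.smul_apply, Pi.sub_apply, Finset.sum_apply]
    simp_rw [Pi.sub_apply]
    rw [Finset.sum_sub_distrib, sum_na, Finset.sum_const, Finset.card_univ, ZMod.card,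
      nsmul_eq_mul, show (algebraMap ℂ (Tup n l ℂ) (n : ℂ)) x = (n : ℂ) from rfl, smul_eq_mul]
    field_simp
    ring
  have h5 : (na 0 : Tup n l ℂ) ∈ D.mulC := by
    rw [h4]
    exact D.mulC.smul_mem (D.mulC.sub_mem (D.mulC.algebraMap_mem _) h3) _
  have h6 := D.mulC.add_mem (h2 a) h5
  rwa [sub_add_cancel] at h6

/-- indicator functions of the level sets. -/
theorem lev_mem {X : Type} [Fintype X] (S : Subalgebra ℂ (X → ℂ)) (k : X → ℂ) (hk : k ∈ S)
    (v : ℂ) : (fun x => by classical exact if k x = v then (1 : ℂ) else 0) ∈ S := by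
  classical
  have h : (fun x => if k x = v then (1 : ℂ) else 0) =
      ∏ w ∈ (Finset.univ.image k).erase v, (v - w)⁻¹ • (k - algebraMap ℂ (X → ℂ) w) := by
    funext x
    rw [Finset.prod_apply]
    by_cases hx : k x = v
    · rw [if_pos hx]
      refine (Finset.prod_eq_one fun w hw => ?_).symm
      have hw' : w ≠ v := Finset.ne_of_mem_erase hw
      rw [Pi.smul_apply, Pi.sub_apply, hx, show (algebraMap ℂ (X → ℂ) w) x = w from rfl,
        smul_eq_mul, inv_mul_cancel₀ (sub_ne_zero.2 hw'.symm)]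
    · rw [if_neg hx]
      refine (Finset.prod_eq_zero (i := k x) ?_ ?_).symm
      · exact Finset.mem_erase.2 ⟨hx, Finset.mem_image.2 ⟨x, Finset.mem_univ _, rfl⟩⟩
      · rw [Pi.smul_apply, Pi.sub_apply, show (algebraMap ℂ (X → ℂ) (k x)) x = k x from rfl,
          sub_self, smul_zero]
  have h2 : (∏ w ∈ (Finset.univ.image k).erase v, (v - w)⁻¹ • (k - algebraMap ℂ (X → ℂ) w)) ∈ S :=
    S.prod_mem fun w _ => S.smul_mem (S.sub_mem hk (S.algebraMap_mem _)) _
  rw [← h] at h2
  convert h2 using 1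

theorem Mdl.ind_mem (v : ZMod l → ℂ) : indT v ∈ D.mulC := by
  classical
  have h : (indT v : Tup n l ℂ) = ∏ a : ZMod l, fun x => if na a x = v a then (1 : ℂ) else 0 := by
    funext x
    rw [Finset.prod_apply, ind_apply]
    by_cases h : ∀ a, na a x = v a
    · rw [if_pos h]
      exact (Finset.prod_eq_one fun a _ => if_pos (h a)).symm
    · rw [if_neg h]
      push Not at h
      obtain ⟨a, ha⟩ := h
      exact (Finset.prod_eq_zero (Finset.mem_univ a) (if_neg ha)).symm
  rw [h]
  refine D.mulC.prod_mem fun a _ => ?_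
  have h2 := lev_mem D.mulC (na a) (D.na_mem a) (v a)
  convert h2 using 1

theorem Mdl.E_one (c : ZMod l) : ∀ u ∈ D.W,
    hop (c + 1) c (fun j => ((D.s j)⁻¹ : Bˣ).val) u ∈ D.W := by
  classical
  intro u hu
  rw [← sum_ind u, map_sum]
  refine D.W.sum_mem fun v _ => ?_
  set u' := msk (indT v) u with hu'
  have hu'W : u' ∈ D.W := D.ind_mem v u hu
  have h1 := D.ind_mem (fun a => v a + (if c + 1 = a then 1 else 0) - (if c = a then 1 else 0)) _
    (D.hE _ hu'W)
  rw [Eop, LinearMap.sum_apply, map_sum] at h1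
  have h2 : ∀ c' : ZMod l, msk (indT fun a => v a + (if c + 1 = a then 1 else 0) -
      (if c = a then 1 else 0)) (hop (c' + 1) c' (fun j => ((D.s j)⁻¹ : Bˣ).val) u') =
      if c' = c then hop (c + 1) c (fun j => ((D.s j)⁻¹ : Bˣ).val) u' else 0 := by
    intro c'
    rw [hu', hop_ind, ind_ind]
    by_cases hc : c' = c
    · subst hc
      rw [if_pos rfl, if_pos rfl, hop_ind]
    · rw [if_neg hc, if_neg]
      intro h
      have h3 := congrFun h (c + 1)
      have h4 : c ≠ c + 1 := zne1 D.l3 c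
      have h5 : ¬ c' + 1 = c + 1 := fun h => hc (add_right_cancel h)
      simp only [if_true, if_neg h4, if_neg h5, sub_zero, add_zero] at h3
      by_cases h6 : c' = c + 1
      · rw [if_pos h6] at h3
        have h7 : (2 : ℂ) = 0 := by linear_combination h3
        exact two_ne_zero h7
      · rw [if_neg h6] at h3
        have h7 : (1 : ℂ) = 0 := by linear_combination h3
        exact one_ne_zero h7
  rw [Finset.sum_congr rfl fun c' _ => h2 c', Finset.sum_ite_eq', if_pos (Finset.mem_univ _)] at h1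
  exact h1

theorem Mdl.E_pow (c : ZMod l) (r : ℕ) : ∀ u ∈ D.W,
    hop (c + 1) c (fun j => D.κ j ^ (2 * r) * ((D.s j)⁻¹ : Bˣ).val) u ∈ D.W := by
  intro u hu
  set φ : Fin n → B := fun j => D.κ j ^ (2 * r) with hφ
  set f : Fin n → B := fun j => ((D.s j)⁻¹ : Bˣ).val with hf
  have h1 : (cnt (c + 1) φ - cnt c φ) * hop (c + 1) c f u -
      hop (c + 1) c f ((cnt (c + 1) φ - cnt c φ) * u) ∈ D.W :=
    D.W.sub_mem (D.mul_dif c r _ (D.E_one c u hu)) (D.E_one c _ (D.mul_dif c r u hu))
  have h2 : (cnt (c + 1) φ - cnt c φ) * hop (c + 1) c f u -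
      hop (c + 1) c f ((cnt (c + 1) φ - cnt c φ) * u) = (2 : ℂ) • hop (c + 1) c (φ * f) u := by
    have h4 : c ≠ c + 1 := zne1 D.l3 c
    rw [sub_mul, sub_mul, map_sub]
    have e1 := mul_hop_cnt (c + 1) (c + 1) c φ f u
    have e2 := mul_hop_cnt c (c + 1) c φ f u
    rw [if_pos rfl, if_neg h4, sub_zero, one_smul] at e1
    rw [if_neg h4.symm, if_pos rfl, zero_sub, neg_smul, one_smul] at e2
    rw [two_smul]
    have e3 : (cnt (c + 1) φ * hop (c + 1) c f u - cnt c φ * hop (c + 1) c f u -
      (hop (c + 1) c f (cnt (c + 1) φ * u) - hop (c + 1) c f (cnt c φ * u))) =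
      (cnt (c + 1) φ * hop (c + 1) c f u - hop (c + 1) c f (cnt (c + 1) φ * u)) -
      (cnt c φ * hop (c + 1) c f u - hop (c + 1) c f (cnt c φ * u)) := by abel
    rw [e3, e1, e2, sub_neg_eq_add]
  rw [h2] at h1
  have h3 := D.W.smul_mem (2 : ℂ)⁻¹ h1
  rw [smul_smul, inv_mul_cancel₀ two_ne_zero, one_smul] at h3
  exact h3

/-- the factors of the hoppings. -/
def Mdl.fac (r : ℕ) (k : ℤ) : Fin n → B := fun j => D.κ j ^ (2 * r) * ((D.s j ^ k : Bˣ) : B)

theorem Mdl.fac_mul (r r' : ℕ) (k k' : ℤ) : D.fac r k * D.fac r' k' = D.fac (r + r') (k + k') := by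
  funext j
  rw [Pi.mul_apply, Mdl.fac, Mdl.fac, Mdl.fac, zpow_add, Units.val_mul, mul_add, pow_add]
  ring

theorem val_succ (c : ZMod l) (hc : c ≠ -1) : (c + 1).val = c.val + 1 := by
  have h : c.val + 1 < l := by
    by_contra h
    have h1 : c.val + 1 = l := by
      have := ZMod.val_lt c
      omega
    apply hc
    rw [eq_neg_iff_add_eq_zero]
    rw [← ZMod.natCast_zmod_val c]
    have : ((c.val + 1 : ℕ) : ZMod l) = 0 := by rw [h1]; exact ZMod.natCast_self l
    rw [Nat.cast_add, Nat.cast_one] at this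
    exact this
  rw [ZMod.val_add]
  have h1 : (1 : ZMod l).val = 1 % l := by
    rw [← Nat.cast_one, ZMod.val_natCast]
  rw [h1, Nat.add_mod_mod, Nat.mod_eq_of_lt h]

theorem val_neg_one' : ((-1 : ZMod l).val : ℤ) = (l : ℤ) - 1 := by
  obtain ⟨k, rfl⟩ : ∃ k, l = k + 1 := ⟨l - 1, by have := NeZero.pos l; omega⟩
  rw [ZMod.val_neg_one]
  push_cast
  ring

/-- all hoppings. -/
theorem Mdl.hop_mem (a b : ZMod l) (hab : a ≠ b) (r : ℕ) (t : ℤ) : ∀ u ∈ D.W,
    hop b a (D.fac r ((a.val : ℤ) - b.val + l * t)) u ∈ D.W := by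
  have hF : ∀ (c : ZMod l) (r : ℕ) (k : ℤ), k = 1 → ∀ u ∈ D.W, hop c (c + 1) (D.fac r k) u ∈ D.W := by
    intro c r k hk u hu
    subst hk
    have := D.F_one c r u hu
    have h2 : D.fac r 1 = fun j => D.κ j ^ (2 * r) * (D.s j : B) := by
      funext j
      rw [Mdl.fac, zpow_one]
    rw [h2]
    exact this
  have hE : ∀ (c : ZMod l) (r : ℕ) (k : ℤ), k = -1 → ∀ u ∈ D.W,
      hop (c + 1) c (D.fac r k) u ∈ D.W := by
    intro c r k hk u hu
    subst hk
    have := D.E_pow c r u hu
    have h2 : D.fac r (-1) = fun j => D.κ j ^ (2 * r) * ((D.s j)⁻¹ : Bˣ).val := by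
      funext j
      rw [Mdl.fac, zpow_neg_one]
    rw [h2]
    exact this
  refine Pool.Agent.Helper86.SQ.s_clp l D.l3 (fun a b r t => ∀ u ∈ D.W,
    hop b a (D.fac r ((a.val : ℤ) - b.val + l * t)) u ∈ D.W) ?_ ?_ ?_ a b r t hab
  · intro a b c r s r' s' h1 h2 h3 ha hb u hu
    have h := D.W.sub_mem (hb _ (ha u hu)) (ha _ (hb u hu))
    rw [hop_comm_ne h3.symm, D.fac_mul] at h
    have e1 : r' + r = r + r' := Nat.add_comm _ _
    have e2 : ((b.val : ℤ) - c.val + l * s') + ((a.val : ℤ) - b.val + l * s) =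
        (a.val : ℤ) - c.val + l * (s + s') := by ring
    rw [e1, e2] at h
    exact h
  · intro c r hc
    have hv := val_succ c hc
    refine ⟨hE c r _ ?_, hF c r _ ?_⟩
    · rw [hv]
      push_cast
      ring
    · rw [hv]
      push_cast
      ring
  · intro r
    have e0 : ((-1 : ZMod l)) + 1 = 0 := neg_add_cancel 1
    have h0 : ((0 : ZMod l).val : ℤ) = 0 := by rw [ZMod.val_zero]; rfl
    refine ⟨?_, ?_⟩
    · have h := hE (-1) r (((-1 : ZMod l).val : ℤ) - (0 : ZMod l).val + l * (-1)) (by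
        rw [val_neg_one', h0]
        ring)
      rw [e0] at h
      exact h
    · have h := hF (-1) r (((0 : ZMod l).val : ℤ) - (-1 : ZMod l).val + l * 1) (by
        rw [val_neg_one', h0]
        ring)
      rw [e0] at h
      exact h

/-- differences of partial power sums. -/
theorem Mdl.cnt_dif (a b : ZMod l) (hab : a ≠ b) (r : ℕ) (t : ℤ) : ∀ u ∈ D.W,
    (cnt a (D.fac r (l * t)) - cnt b (D.fac r (l * t))) * u ∈ D.W := by
  intro u hu
  have h1 := D.hop_mem b a hab.symm r t
  have h2 := D.hop_mem a b hab 0 0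
  have h := D.W.sub_mem (h1 _ (h2 u hu)) (h2 _ (h1 u hu))
  rw [hop_comm_back, D.fac_mul] at h
  have e : ((b.val : ℤ) - a.val + l * t) + ((a.val : ℤ) - b.val + l * 0) = l * t := by ring
  rw [add_zero, e] at h
  exact h

end gen

end

end Pool.Agent.Helper34.SQ
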