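import Pool.Agent.Helper34.SQ.Model2

/-!
Project SQ (MP_bb32d1_al), stage C (lower bound), helper34: symmetrised monomials are in the
subspace.
-/

set_option autoImplicit false
set_option linter.unusedSectionVars false

namespace Pool.Agent.Helper34.SQ

noncomputable section

open Pool.Agent.Helper19.SQ

section gen

variable {n l : ℕ} [NeZero l] {B : Type} [CommRing B] [Algebra ℂ B]

variable (D : Mdl n l B)

/-- the functions of `j` whose partial power sums are reached. -/
def Mdl.Phi : Subalgebra ℂ (Fin n → B) :=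
  Algebra.adjoin ℂ {f | ∃ (r : ℕ) (t : ℕ), f = D.fac r (l * t)}

theorem Mdl.fac_mem_Phi (r t : ℕ) : D.fac r (l * t) ∈ D.Phi := Algebra.subset_adjoin ⟨r, t, rfl⟩

theorem Mdl.Phi_le : (D.Phi : Set (Fin n → B)) ⊆
    (Submodule.span ℂ {f | ∃ (r : ℕ) (t : ℕ), f = D.fac r (l * t)} : Set (Fin n → B)) := by
  intro f hf
  refine Algebra.adjoin_induction (p := fun f _ => f ∈ Submodule.span ℂ
    {f | ∃ (r : ℕ) (t : ℕ), f = D.fac r (l * t)}) ?_ ?_ ?_ ?_ hf
  · intro f hf
    exact Submodule.subset_span hf
  · intro c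
    rw [Algebra.algebraMap_eq_smul_one]
    refine Submodule.smul_mem _ _ (Submodule.subset_span ⟨0, 0, ?_⟩)
    funext j
    rw [Mdl.fac, Nat.cast_zero, mul_zero, mul_zero, pow_zero, zpow_zero, Units.val_one, mul_one]
    rfl
  · intro f g _ _ hf hg
    exact Submodule.add_mem _ hf hg
  · intro f g _ _ hf hg
    refine Submodule.span_induction₂ (p := fun f g _ _ => f * g ∈ Submodule.span ℂ
      {f | ∃ (r : ℕ) (t : ℕ), f = D.fac r (l * t)}) ?_ ?_ ?_ ?_ ?_ ?_ ?_ hf hg
    · rintro f g ⟨r, t, rfl⟩ ⟨r', t', rfl⟩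
      refine Submodule.subset_span ⟨r + r', t + t', ?_⟩
      rw [D.fac_mul]
      congr 1
      push_cast
      ring
    · intro g _
      rw [zero_mul]
      exact Submodule.zero_mem _
    · intro g _
      rw [mul_zero]
      exact Submodule.zero_mem _
    · intro f f' g _ _ _ h1 h2
      rw [add_mul]
      exact Submodule.add_mem _ h1 h2
    · intro f g g' _ _ _ h1 h2
      rw [mul_add]
      exact Submodule.add_mem _ h1 h2
    · intro c f g _ _ h
      rw [smul_mul_assoc]
      exact Submodule.smul_mem _ _ h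
    · intro c f g _ _ h
      rw [mul_smul_comm]
      exact Submodule.smul_mem _ _ h

theorem cnt_add (a : ZMod l) (f g : Fin n → B) : cnt a (f + g) = cnt a f + cnt a g := by
  funext x
  rw [Pi.add_apply, cnt, cnt, cnt, ← Finset.sum_add_distrib]
  refine Finset.sum_congr rfl fun j _ => ?_
  by_cases h : x j = a
  · rw [if_pos h, if_pos h, if_pos h, Pi.add_apply]
  · rw [if_neg h, if_neg h, if_neg h, add_zero]

theorem cnt_smul (a : ZMod l) (c : ℂ) (f : Fin n → B) : cnt a (c • f) = c • cnt a f := by
  funext x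
  rw [Pi.smul_apply, cnt, cnt, Finset.smul_sum]
  refine Finset.sum_congr rfl fun j _ => ?_
  by_cases h : x j = a
  · rw [if_pos h, if_pos h, Pi.smul_apply]
  · rw [if_neg h, if_neg h, smul_zero]

theorem cnt_zero (a : ZMod l) : cnt a (0 : Fin n → B) = 0 := by
  funext x
  rw [cnt]
  refine Finset.sum_eq_zero fun j _ => ?_
  by_cases h : x j = a
  · rw [if_pos h]
    rfl
  · rw [if_neg h]

/-- the functions whose multiplication preserves the part of type `v` of `W`. -/
def Mdl.mulV (v : ZMod l → ℂ) : Subalgebra ℂ (Tup n l B) where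
  carrier := {h | ∀ u ∈ D.W, msk (indT v) u = u → h * u ∈ D.W}
  mul_mem' {a b} ha hb u hu hv := by
    rw [mul_assoc]
    refine ha _ (hb u hu hv) ?_
    conv_rhs => rw [← hv]
    funext x
    rw [msk_apply, Pi.mul_apply, Pi.mul_apply, msk_apply, mul_smul_comm]
  add_mem' {a b} ha hb u hu hv := by
    rw [add_mul]
    exact D.W.add_mem (ha u hu hv) (hb u hu hv)
  algebraMap_mem' c u hu _ := by
    have h : algebraMap ℂ (Tup n l B) c * u = c • u := by
      rw [Algebra.smul_def]
    rw [h]
    exact D.W.smul_mem c hu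

theorem Mdl.mem_mulV (v : ZMod l → ℂ) (h : Tup n l B) :
    h ∈ D.mulV v ↔ ∀ u ∈ D.W, msk (indT v) u = u → h * u ∈ D.W := Iff.rfl

/-- partial power sums preserve the part of type `v`, if `v` has an empty place. -/
theorem Mdl.cnt_mem (v : ZMod l → ℂ) (d : ZMod l) (hd : v d = 0) (c : ZMod l) (f : Fin n → B)
    (hf : f ∈ D.Phi) : cnt c f ∈ D.mulV v := by
  classical
  have h1 : ∀ (r t : ℕ) (c : ZMod l), cnt c (D.fac r (l * t)) ∈ D.mulV v := by
    intro r t c
    rw [D.mem_mulV]
    intro u hu hv
    have hz : cnt d (D.fac r (l * t)) * u = 0 := by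
      funext x
      rw [Pi.mul_apply, Pi.zero_apply]
      by_cases hx : ∀ a, na a x = v a
      · have h2 : ∀ j, x j ≠ d := by
          intro j hj
          have h3 : na d x = ((Finset.univ.filter fun j => x j = d).card : ℂ) := by
            rw [na, Finset.sum_boole]
          rw [hx d, hd] at h3
          have h4 : (Finset.univ.filter fun j => x j = d).card = 0 := by
            exact_mod_cast h3.symm
          rw [Finset.card_eq_zero] at h4
          have h5 : j ∈ (Finset.univ.filter fun j => x j = d) :=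
            Finset.mem_filter.2 ⟨Finset.mem_univ _, hj⟩
          rw [h4] at h5
          exact absurd h5 (Finset.notMem_empty j)
        have h3 : cnt d (D.fac r (l * t)) x = 0 := by
          rw [cnt]
          exact Finset.sum_eq_zero fun j _ => if_neg (h2 j)
        rw [h3, zero_mul]
      · have h2 := congrFun hv x
        rw [msk_apply, ind_apply, if_neg hx, zero_smul] at h2
        rw [← h2, mul_zero]
    by_cases hc : c = d
    · rw [hc, hz]
      exact D.W.zero_mem
    · have h2 := D.cnt_dif c d hc r t u hu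
      rw [sub_mul, hz, sub_zero] at h2
      exact h2
  have h2 : f ∈ Submodule.span ℂ {f | ∃ (r : ℕ) (t : ℕ), f = D.fac r (l * t)} := D.Phi_le hf
  refine Submodule.span_induction (p := fun f _ => cnt c f ∈ D.mulV v) ?_ ?_ ?_ ?_ h2
  · rintro f ⟨r, t, rfl⟩
    exact h1 r t c
  · rw [cnt_zero]
    exact (D.mulV v).zero_mem
  · intro f g _ _ hf hg
    rw [cnt_add]
    exact (D.mulV v).add_mem hf hg
  · intro a f _ hf
    rw [cnt_smul]
    exact (D.mulV v).smul_mem hf a

theorem exists_empty (hn : n < l) (x : Fin n → ZMod l) : ∃ d, na d x = 0 := by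
  classical
  obtain ⟨d, hd⟩ : ∃ d, ∀ j, x j ≠ d := by
    by_contra h
    push Not at h
    have h1 : Function.Surjective x := h
    have h2 := Fintype.card_le_of_surjective x h1
    rw [ZMod.card, Fintype.card_fin] at h2
    omega
  refine ⟨d, ?_⟩
  rw [na]
  exact Finset.sum_eq_zero fun j _ => if_neg (hd j)

/-- the symmetrised monomials are in `W`. -/
theorem Mdl.sym_mem (h1 : (1 : Tup n l B) ∈ D.W) (hn : n < l) (x0 : Fin n → ZMod l)
    (φ : Fin n → Fin n → B) (hφ : ∀ j, φ j ∈ D.Phi) :
    (fun x => ∑ σ : Fin n ↪ Fin n, ∏ j, if x (σ j) = x0 j then φ j (σ j) else 0) ∈ D.W := by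
  classical
  set v : ZMod l → ℂ := fun a => na a x0 with hv
  obtain ⟨d, hd⟩ := exists_empty hn x0
  -- the monoid
  let M : Submonoid (Fin n → Tup n l B) :=
    { carrier := {w | w = 1 ∨ w = 0 ∨ ∃ (c : ZMod l) (f : Fin n → B), f ∈ D.Phi ∧
        w = fun i x => if x i = c then f i else 0}
      one_mem' := Or.inl rfl
      mul_mem' := by
        rintro a b (rfl | rfl | ⟨c, f, hf, rfl⟩) hb
        · rw [one_mul]
          exact hb
        · rw [zero_mul]
          exact Or.inr (Or.inl rfl)
        · rcases hb with rfl | rfl | ⟨c', f', hf', rfl⟩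
          · rw [mul_one]
            exact Or.inr (Or.inr ⟨c, f, hf, rfl⟩)
          · rw [mul_zero]
            exact Or.inr (Or.inl rfl)
          · by_cases hc : c = c'
            · refine Or.inr (Or.inr ⟨c, f * f', D.Phi.mul_mem hf hf', ?_⟩)
              funext i x
              rw [Pi.mul_apply, Pi.mul_apply]
              by_cases hx : x i = c
              · rw [if_pos hx, if_pos (hx.trans hc), if_pos hx, Pi.mul_apply]
              · rw [if_neg hx, if_neg hx, zero_mul]
            · refine Or.inr (Or.inl ?_)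
              funext i x
              rw [Pi.mul_apply, Pi.mul_apply]
              by_cases hx : x i = c
              · rw [if_neg (fun h => hc (hx.symm.trans h)), mul_zero]
                rfl
              · rw [if_neg hx, zero_mul]
                rfl }
  have hH : (∑ σ : Fin n ↪ Fin n, ∏ j, (fun i x => if x i = x0 j then φ j i else 0 :
      Fin n → Tup n l B) (σ j)) ∈ Algebra.adjoin ℂ {z : Tup n l B | ∃ w ∈ M, z = ∑ i, w i} :=
    sum_emb_mem n M n (fun j i x => if x i = x0 j then φ j i else 0)
      (fun j => Or.inr (Or.inr ⟨x0 j, φ j, hφ j, rfl⟩))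
  have hle : Algebra.adjoin ℂ {z : Tup n l B | ∃ w ∈ M, z = ∑ i, w i} ≤ D.mulV v := by
    refine Algebra.adjoin_le ?_
    rintro z ⟨w, hw, rfl⟩
    rcases hw with rfl | rfl | ⟨c, f, hf, rfl⟩
    · rw [Finset.sum_congr rfl fun i _ => Pi.one_apply i, Finset.sum_const, nsmul_eq_mul, mul_one]
      exact natCast_mem _ _
    · rw [Finset.sum_congr rfl fun i _ => Pi.zero_apply i, Finset.sum_const_zero]
      exact (D.mulV v).zero_mem
    · have h : (∑ i, fun x : Fin n → ZMod l => if x i = c then f i else 0) = cnt c f := by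
        funext x
        rw [Finset.sum_apply, cnt]
      rw [h]
      exact D.cnt_mem v d hd c f hf
  have h2 : msk (indT v) (1 : Tup n l B) ∈ D.W := D.ind_mem v 1 h1
  have h3 : msk (indT v) (msk (indT v) (1 : Tup n l B)) = msk (indT v) 1 := by
    rw [ind_ind, if_pos rfl]
  have h4 := hle hH _ h2 h3
  convert h4 using 1
  funext x
  rw [Pi.mul_apply, Finset.sum_apply, msk_apply, ind_apply]
  simp_rw [Finset.prod_apply]
  by_cases hx : ∀ a, na a x = v a
  · rw [if_pos hx, one_smul, Pi.one_apply, mul_one]
  · rw [if_neg hx, zero_smul, mul_zero]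
    refine Finset.sum_eq_zero fun σ _ => ?_
    by_contra hne
    have h5 : ∀ j, x (σ j) = x0 j := by
      intro j
      by_contra hj
      exact hne (Finset.prod_eq_zero (Finset.mem_univ j) (if_neg hj))
    apply hx
    intro a
    rw [hv]
    simp only [na]
    have hb : Function.Bijective σ := Finite.injective_iff_bijective.1 σ.injective
    rw [← (Equiv.ofBijective σ hb).sum_comp]
    refine Finset.sum_congr rfl fun j _ => ?_
    rw [Equiv.ofBijective_apply, h5 j]

end gen

end

end Pool.Agent.Helper34.SQ
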