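import Pool.Agent.Helper34.SQ.Model3
import Pool.Agent.Helper95.SQ.FIN

/-!
Project SQ (MP_bb32d1_al), stage C (lower bound), helper34: MODEL.  A subspace of the functions
`(Fin n → ZMod l) → DR n` that contains `1` and is stable under `F`, `E`, `M` contains all
equivariant functions.
-/

set_option autoImplicit false
set_option linter.unusedSectionVars false

namespace Pool.Agent.Helper34.SQ

noncomputable section

open Pool.Agent.Helper19.SQ MvPolynomial

/-- `(1 + T)^m` generates modulo powers of `T`. -/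
theorem exists_inv_pol (m : ℕ) (hm : 0 < m) (K : ℕ) : ∃ P : Polynomial ℂ,
    (Polynomial.X ^ K) ∣ P.comp ((1 + Polynomial.X) ^ m) - Polynomial.X := by
  obtain ⟨v, hv⟩ : (Polynomial.X : Polynomial ℂ) ∣ (1 + Polynomial.X) ^ m - 1 := by
    rw [Polynomial.X_dvd_iff, Polynomial.coeff_zero_eq_eval_zero]
    simp
  have hv0 : v.coeff 0 = m := by
    have h1 : ((1 + Polynomial.X : Polynomial ℂ) ^ m - 1).coeff 1 = (Polynomial.X * v).coeff 1 := by
      rw [hv]
    rw [Polynomial.coeff_X_mul, Polynomial.coeff_sub, Polynomial.coeff_one,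
      Polynomial.coeff_one_add_X_pow] at h1
    rw [← h1]
    simp
  have hm0 : (m : ℂ) ≠ 0 := Nat.cast_ne_zero.2 hm.ne'
  induction K with
  | zero => exact ⟨0, by rw [pow_zero]; exact one_dvd _⟩
  | succ K ih =>
    obtain ⟨P, r, hr⟩ := ih
    refine ⟨P - Polynomial.C (r.coeff 0 / (m : ℂ) ^ K) * (Polynomial.X - 1) ^ K, ?_⟩
    have h1 : (P - Polynomial.C (r.coeff 0 / (m : ℂ) ^ K) * (Polynomial.X - 1) ^ K).comp
        ((1 + Polynomial.X) ^ m) - Polynomial.X =
        Polynomial.X ^ K * (r - Polynomial.C (r.coeff 0 / (m : ℂ) ^ K) * v ^ K) := by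
      rw [Polynomial.sub_comp, Polynomial.mul_comp, Polynomial.C_comp, Polynomial.pow_comp,
        Polynomial.sub_comp, Polynomial.X_comp, Polynomial.one_comp, hv, mul_pow]
      linear_combination hr
    rw [h1, pow_succ]
    refine mul_dvd_mul_left _ ?_
    rw [Polynomial.X_dvd_iff, Polynomial.coeff_sub, Polynomial.coeff_C_mul,
      Polynomial.coeff_zero_eq_eval_zero (v ^ K), Polynomial.eval_pow,
      ← Polynomial.coeff_zero_eq_eval_zero, hv0, div_mul_cancel₀ _ (pow_ne_zero _ hm0), sub_self]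

theorem nil_mem {R : Type*} [CommRing R] [Algebra ℂ R] (S : Subalgebra ℂ R) (a : R) (K : ℕ)
    (ha : a ^ K = 0) (m : ℕ) (hm : 0 < m) (h : (1 + a) ^ m ∈ S) : a ∈ S := by
  obtain ⟨P, r, hr⟩ := exists_inv_pol m hm K
  have h1 := congrArg (Polynomial.aeval a) hr
  rw [map_sub, map_mul, map_pow, Polynomial.aeval_X, ha, zero_mul, Polynomial.aeval_comp, map_pow,
    map_add, map_one, Polynomial.aeval_X, sub_eq_zero] at h1
  rw [← h1]
  have h2 : Polynomial.aeval ((1 + a) ^ m) P =
      ((Polynomial.aeval (⟨(1 + a) ^ m, h⟩ : S) P : S) : R) := by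
    rw [Polynomial.aeval_subalgebra_coe]
  rw [h2]
  exact SetLike.coe_mem _

/-- the classes of the variables. -/
def xq (n : ℕ) (j : Fin n) : DR n := Ideal.Quotient.mk (dIdeal n) (X (Sum.inl j))

def yq (n : ℕ) (j : Fin n) : DR n := Ideal.Quotient.mk (dIdeal n) (X (Sum.inr j))

theorem xq_pow (n : ℕ) (j : Fin n) : xq n j ^ n = 0 :=
  Pool.Agent.Helper95.SQ.pow_zero' (fun j => Sum.inl j) (fun _ _ => rfl) j

theorem yq_pow (n : ℕ) (j : Fin n) : yq n j ^ n = 0 :=
  Pool.Agent.Helper95.SQ.pow_zero' (fun j => Sum.inr j) (fun _ _ => rfl) j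

theorem rq_mk {n : ℕ} (σ : Equiv.Perm (Fin n)) (p : Pn n) :
    rq σ (Ideal.Quotient.mk (dIdeal n) p) = Ideal.Quotient.mk (dIdeal n) (rn σ p) := by
  rw [rq]
  exact Ideal.quotient_map_mkₐ _ _ (rn_dIdeal σ)

theorem rq_xq {n : ℕ} (σ : Equiv.Perm (Fin n)) (j : Fin n) : rq σ (xq n j) = xq n (σ j) := by
  rw [xq, rq_mk, rn, rename_X]
  rfl

theorem rq_yq {n : ℕ} (σ : Equiv.Perm (Fin n)) (j : Fin n) : rq σ (yq n j) = yq n (σ j) := by
  rw [yq, rq_mk, rn, rename_X]
  rfl

/-- the orbit sums. -/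
def orb {n l : ℕ} (x0 : Fin n → ZMod l) (v : DR n) : Tup n l (DR n) := fun x => by
  classical
  exact ∑ σ : Equiv.Perm (Fin n), if x ∘ σ = x0 then rq σ v else 0

theorem orb_apply {n l : ℕ} (x0 : Fin n → ZMod l) (v : DR n) (x : Fin n → ZMod l)
    [∀ σ : Equiv.Perm (Fin n), Decidable (x ∘ σ = x0)] :
    orb x0 v x = ∑ σ : Equiv.Perm (Fin n), if x ∘ σ = x0 then rq σ v else 0 := by
  rw [orb]
  exact Finset.sum_congr rfl fun σ _ => by congr

theorem orb_add {n l : ℕ} (x0 : Fin n → ZMod l) (v w : DR n) :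
    orb x0 (v + w) = orb x0 v + orb x0 w := by
  classical
  funext x
  rw [Pi.add_apply, orb_apply, orb_apply, orb_apply, ← Finset.sum_add_distrib]
  refine Finset.sum_congr rfl fun σ _ => ?_
  by_cases h : x ∘ σ = x0
  · rw [if_pos h, if_pos h, if_pos h, map_add]
  · rw [if_neg h, if_neg h, if_neg h, add_zero]

theorem orb_smul {n l : ℕ} (x0 : Fin n → ZMod l) (c : ℂ) (v : DR n) :
    orb x0 (c • v) = c • orb x0 v := by
  classical
  funext x
  rw [Pi.smul_apply, orb_apply, orb_apply, Finset.smul_sum]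
  refine Finset.sum_congr rfl fun σ _ => ?_
  by_cases h : x ∘ σ = x0
  · rw [if_pos h, if_pos h, map_smul]
  · rw [if_neg h, if_neg h, smul_zero]

theorem DRmaps_eq_sum {n l : ℕ} [NeZero l] (u : Tup n l (DR n)) (hu : u ∈ DRmaps n l) :
    ∑ x0, orb x0 (u x0) = (Fintype.card (Equiv.Perm (Fin n)) : ℂ) • u := by
  classical
  funext x
  rw [Finset.sum_apply, Pi.smul_apply]
  simp_rw [orb_apply]
  rw [Finset.sum_comm]
  have h : ∀ σ : Equiv.Perm (Fin n), (∑ x0, if x ∘ σ = x0 then rq σ (u x0) else 0) = u x := by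
    intro σ
    rw [Finset.sum_ite_eq, if_pos (Finset.mem_univ _)]
    exact hu σ x
  rw [Finset.sum_congr rfl fun σ _ => h σ, Finset.sum_const, Finset.card_univ,
    Nat.cast_smul_eq_nsmul]

/-- **MODEL**. -/
theorem model (n l : ℕ) [NeZero l] (l3 : 3 ≤ l) (hn : n < l) (z : ZMod l → ℂ)
    (zinj : Function.Injective z) (z0 : ∀ a, z a ≠ 0) (ρ : ℂ) (zs : ∀ c, z (c + 1) = ρ * z c)
    (ρ1 : ρ ≠ 1) (κ s si : Fin n → DR n) (hκ : ∀ j, κ j = 1 + xq n j)
    (hs : ∀ j, s j = 1 + yq n j) (hsi : ∀ j, s j * si j = 1)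
    (W : Submodule ℂ (Tup n l (DR n))) (h1 : (1 : Tup n l (DR n)) ∈ W)
    (hF : ∀ u ∈ W, (fun x => ∑ j, s j * u (Function.update x j (x j + 1))) ∈ W)
    (hE : ∀ u ∈ W, (fun x => ∑ j, si j * u (Function.update x j (x j - 1))) ∈ W)
    (hM : ∀ u ∈ W, (fun x => (∑ j, algebraMap ℂ (DR n) (z (x j)) * κ j ^ 2) * u x) ∈ W) :
    DRmaps n l ≤ W := by
  classical
  have hl : 0 < l := by omega
  let D : Mdl n l (DR n) :=
    { z := z, ρ := ρ, κ := κ
      s := fun j => ⟨s j, si j, hsi j, by rw [mul_comm]; exact hsi j⟩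
      W := W, K := n, l3 := l3, zinj := zinj, z0 := z0, zs := zs, ρ1 := ρ1
      nil := by
        intro j
        have h : κ j ^ 2 - 1 = xq n j * (2 + xq n j) := by
          rw [hκ]
          ring
        rw [h, mul_pow, xq_pow, zero_mul]
      hF := by
        intro u hu
        have h : Fop (fun j => s j) u = fun x => ∑ j, s j * u (Function.update x j (x j + 1)) := by
          funext x
          exact Fop_apply _ u x
        exact h ▸ hF u hu
      hE := by
        intro u hu
        have h : Eop (fun j => si j) u =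
            fun x => ∑ j, si j * u (Function.update x j (x j - 1)) := by
          funext x
          exact Eop_apply _ u x
        exact h ▸ hE u hu
      hM := by
        intro u hu
        have h : Mfn z κ * u =
            fun x => (∑ j, algebraMap ℂ (DR n) (z (x j)) * κ j ^ 2) * u x := by
          funext x
          rw [Pi.mul_apply, Mfn]
          simp_rw [wv, Algebra.smul_def]
        exact h ▸ hM u hu }
  have hκD : ∀ j, D.κ j = 1 + xq n j := hκ
  have hsD : ∀ j, (D.s j : DR n) = 1 + yq n j := hs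
  have hx : (fun j => xq n j) ∈ D.Phi := by
    refine nil_mem D.Phi _ n ?_ 2 two_pos ?_
    · funext j
      rw [Pi.pow_apply, xq_pow, Pi.zero_apply]
    · have h := D.fac_mem_Phi 1 0
      convert h using 1
      funext j
      rw [Pi.pow_apply, Pi.add_apply, Pi.one_apply, Mdl.fac, hκD, Nat.cast_zero, mul_zero, mul_one,
        zpow_zero, Units.val_one, mul_one]
  have hy : (fun j => yq n j) ∈ D.Phi := by
    refine nil_mem D.Phi _ n ?_ l hl ?_
    · funext j
      rw [Pi.pow_apply, yq_pow, Pi.zero_apply]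
    · have h := D.fac_mem_Phi 0 1
      convert h using 1
      funext j
      rw [Pi.pow_apply, Pi.add_apply, Pi.one_apply, Mdl.fac, Nat.cast_one, mul_one, mul_zero,
        pow_zero, one_mul, zpow_natCast, Units.val_pow_eq_pow_val, hsD]
  -- the orbit sums of the monomials
  have hmon : ∀ (x0 : Fin n → ZMod l) (d : (Fin n ⊕ Fin n) →₀ ℕ),
      orb x0 (Ideal.Quotient.mk (dIdeal n) (monomial d 1)) ∈ W := by
    intro x0 d
    have h := D.sym_mem h1 hn x0
      (fun j => (fun i => xq n i) ^ d (Sum.inl j) * (fun i => yq n i) ^ d (Sum.inr j))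
      (fun j => D.Phi.mul_mem (D.Phi.pow_mem hx _) (D.Phi.pow_mem hy _))
    convert h using 1
    funext x
    rw [orb_apply]
    have hbij : Function.Bijective
        (fun σ : Equiv.Perm (Fin n) => (σ.toEmbedding : Fin n ↪ Fin n)) := by
      refine ⟨Equiv.toEmbedding_injective, fun φ => ?_⟩
      refine ⟨Equiv.ofBijective φ (Finite.injective_iff_bijective.1 φ.injective), ?_⟩
      ext i
      rfl
    rw [← hbij.sum_comp]
    refine Finset.sum_congr rfl fun σ _ => ?_
    have hval : rq σ (Ideal.Quotient.mk (dIdeal n) (monomial d 1)) =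
        ∏ j : Fin n, xq n (σ j) ^ d (Sum.inl j) * yq n (σ j) ^ d (Sum.inr j) := by
      rw [rq_mk, rn, rename_monomial_perm, map_prod]
      refine Finset.prod_congr rfl fun j _ => ?_
      rw [map_mul, map_pow, map_pow]
      rfl
    by_cases hx0 : x ∘ σ = x0
    · rw [if_pos hx0, hval]
      refine Finset.prod_congr rfl fun j _ => ?_
      have h5 : x (σ.toEmbedding j) = x0 j := congrFun hx0 j
      rw [if_pos h5]
      rfl
    · rw [if_neg hx0]
      have h6 : ∃ j, x (σ.toEmbedding j) ≠ x0 j := by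
        by_contra hc
        push Not at hc
        exact hx0 (funext hc)
      obtain ⟨j, hj⟩ := h6
      exact (Finset.prod_eq_zero (Finset.mem_univ j) (if_neg hj)).symm
  have horb : ∀ (x0 : Fin n → ZMod l) (v : DR n), orb x0 v ∈ W := by
    intro x0 v
    obtain ⟨p, rfl⟩ := Ideal.Quotient.mk_surjective v
    induction p using MvPolynomial.induction_on' with
    | monomial d c =>
      have h : (Ideal.Quotient.mk (dIdeal n)) (monomial d c) =
          c • (Ideal.Quotient.mk (dIdeal n)) (monomial d 1) := by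
        have h2 : (monomial d c : Pn n) = c • monomial d 1 := by
          rw [smul_monomial, smul_eq_mul, mul_one]
        rw [h2]
        rfl
      rw [h, orb_smul]
      exact W.smul_mem c (hmon x0 d)
    | add p r hp hr =>
      rw [map_add, orb_add]
      exact W.add_mem hp hr
  intro u hu
  have h2 : ∑ x0, orb x0 (u x0) ∈ W := W.sum_mem fun x0 _ => horb x0 _
  rw [DRmaps_eq_sum u hu] at h2
  have hcard : (Fintype.card (Equiv.Perm (Fin n)) : ℂ) ≠ 0 := by
    exact_mod_cast Fintype.card_ne_zero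
  have h3 := W.smul_mem (Fintype.card (Equiv.Perm (Fin n)) : ℂ)⁻¹ h2
  rwa [smul_smul, inv_mul_cancel₀ hcard, one_smul] at h3

end

end Pool.Agent.Helper34.SQ
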