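import Pool.Agent.Helper34.SQ.Fam
import Pool.Agent.Helper34.SQ.Assemble
import Pool.Agent.Helper41.SQ.GoalsN

/-!
# MP_bb32d1_al, stage B: nondegeneracy of the traces

`Eg C c m g τ` and `Fg C c m g τ` are the closures of a trace `τ` of the block `m` with `g(X)` on
the strand; they are traces of the blocks `m ± α_c`.  `t_nondegP`: a family of traces stable
under all of them which is zero at all `n δ_c` is zero.  `t_nondeg`: if every word in the `Eg`,
`Fg` ending in some `n δ_c` kills `τ` then `τ = 0`.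
-/

set_option autoImplicit false
set_option linter.unusedSectionVars false

namespace Pool.Agent.Helper34.SQ

noncomputable section

open Finset Matrix Pool.Agent.Helper19.SQ Pool.Agent.Helper41.SQ

section ops

variable {A : Type} [Ring A] [Algebra ℂ A] {ι : Type} [Fintype ι] [DecidableEq ι] {l : ℕ}
  (C : Core A ι l)

/-- `E_c[g] τ`, for `τ` in the block `m`; it is in the block `m + α_c`. -/
def Eg (c : ZMod l) (m : ZMod l → ℤ) (g : Polynomial ℂ) (τ : A →ₗ[ℂ] ℂ) : A →ₗ[ℂ] ℂ where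
  toFun x := ∑ p, ∑ r, τ (C.ε (pev g C.X p r * (x * C.e (m + al c))) p r)
  map_add' x y := by
    simp only [add_mul, mul_add, map_add, Matrix.add_apply, Finset.sum_add_distrib]
  map_smul' a x := by
    simp only [smul_mul_assoc, mul_smul_comm, map_smul, Matrix.smul_apply, Finset.smul_sum,
      RingHom.id_apply]

/-- `F_c[g] τ`, for `τ` in the block `m`; it is in the block `m - α_c`. -/
def Fg (c : ZMod l) (m : ZMod l → ℤ) (g : Polynomial ℂ) (τ : A →ₗ[ℂ] ℂ) : A →ₗ[ℂ] ℂ where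
  toFun x := τ (Matrix.trace (pev g C.X * C.δ (x * C.e (m - al c))))
  map_add' x y := by
    simp only [add_mul, mul_add, map_add, Matrix.trace_add]
  map_smul' a x := by
    simp only [smul_mul_assoc, mul_smul_comm, map_smul, Matrix.trace_smul, RingHom.id_apply]

theorem Eg_apply (c : ZMod l) (m : ZMod l → ℤ) (g : Polynomial ℂ) (τ : A →ₗ[ℂ] ℂ) (x : A) :
    Eg C c m g τ x = ∑ p, ∑ r, τ (C.ε (pev g C.X p r * (x * C.e (m + al c))) p r) := rfl

theorem Fg_apply (c : ZMod l) (m : ZMod l → ℤ) (g : Polynomial ℂ) (τ : A →ₗ[ℂ] ℂ) (x : A) :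
    Fg C c m g τ x = τ (Matrix.trace (pev g C.X * C.δ (x * C.e (m - al c)))) := rfl

theorem Fg_one (c : ZMod l) (m : ZMod l → ℤ) (τ : A →ₗ[ℂ] ℂ) : Fg C c m 1 τ = Ft C c m τ := by
  ext x
  rw [Fg_apply, Ft_apply]
  have : pev (1 : Polynomial ℂ) C.X = 1 := map_one _
  rw [this, one_mul]

theorem Eg_one (c : ZMod l) (m : ZMod l → ℤ) (τ : A →ₗ[ℂ] ℂ) : Eg C c m 1 τ = Et C c m τ := by
  ext x
  rw [Eg_apply, Et_apply]
  have : pev (1 : Polynomial ℂ) C.X = 1 := map_one _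
  rw [this, Matrix.trace, map_sum]
  refine Finset.sum_congr rfl fun p _ => ?_
  rw [Finset.sum_eq_single p]
  · rw [Matrix.one_apply_eq, one_mul, Matrix.diag_apply]
  · intro r _ hr
    rw [Matrix.one_apply_ne (Ne.symm hr), zero_mul, map_zero]
    exact map_zero τ
  · intro h; exact absurd (Finset.mem_univ _) h

/-- `E_c[g] τ` through `vv`. -/
theorem Eg_vv (c : ZMod l) (m : ZMod l → ℤ) (g : Polynomial ℂ) (τ : A →ₗ[ℂ] ℂ) (x : A) :
    Eg C c m g τ x =
      τ (Matrix.trace (vv C.ε (pev g C.X) * C.ε (x * C.e (m + al c)))) := by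
  rw [Eg_apply, Matrix.trace, map_sum, Finset.sum_comm]
  refine Finset.sum_congr rfl fun a _ => ?_
  rw [Matrix.diag_apply, Matrix.mul_apply]
  simp only [vv_apply, Finset.sum_mul]
  rw [Finset.sum_comm, map_sum]
  refine Finset.sum_congr rfl fun p _ => ?_
  rw [map_mul, Matrix.mul_apply]

/-- `g(X)` commutes with `δ(A)`. -/
theorem pevX_comm (g : Polynomial ℂ) (a : A) : pev g C.X * C.δ a = C.δ a * pev g C.X :=
  pev_comm (C.Xδ a) g

/-- the weights of `g(X)`. -/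
theorem φ_pevX (g : Polynomial ℂ) (i j : ι) :
    C.φ (pev g C.X i j) = ((C.θ i : ℂ)⁻¹ * (C.θ j : ℂ)) • pev g C.X i j := by
  have hpow : ∀ k : ℕ, ∀ i j : ι,
      C.φ ((C.X ^ k) i j) = ((C.θ i : ℂ)⁻¹ * (C.θ j : ℂ)) • (C.X ^ k) i j := by
    intro k
    induction k with
    | zero =>
      intro i j
      rw [pow_zero, Matrix.one_apply]
      by_cases h : i = j
      · subst h
        rw [if_pos rfl, map_one, inv_mul_cancel₀ (C.θ i).ne_zero, one_smul]
      · rw [if_neg h, map_zero, smul_zero]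
    | succ k ih =>
      intro i j
      rw [pow_succ, Matrix.mul_apply, map_sum, Finset.smul_sum]
      refine Finset.sum_congr rfl fun r _ => ?_
      rw [map_mul, ih, C.φX, smul_mul_smul_comm]
      congr 1
      have : (C.θ r : ℂ) ≠ 0 := (C.θ r).ne_zero
      field_simp
  induction g using Polynomial.induction_on' generalizing i j with
  | add p q hp hq =>
    have e : pev (p + q) C.X = pev p C.X + pev q C.X := map_add _ _ _
    rw [e, Matrix.add_apply, map_add, hp, hq, smul_add]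
  | monomial n a =>
    have e : pev (Polynomial.monomial n a) C.X = a • C.X ^ n := by
      rw [pev, Polynomial.aeval_monomial, Algebra.smul_def]
    rw [e, Matrix.smul_apply, map_smul, hpow, smul_comm]

theorem tr_swap {τ : A →ₗ[ℂ] ℂ} (h : ∀ x y, τ (x * y) = τ (y * x)) {G a b : Matrix ι ι A}
    (hb : G * b = b * G) :
    τ (Matrix.trace (G * (a * b))) = τ (Matrix.trace (G * (b * a))) := by
  rw [← mul_assoc, trace_comm_of_tr h, ← mul_assoc, ← hb, mul_assoc]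

/-- `F_c[g] τ` is a trace of the block `m - α_c`. -/
theorem Fg_trz {ζ : ℂ} {c : ZMod l} {m : ZMod l → ℤ} {g : Polynomial ℂ} {τ : A →ₗ[ℂ] ℂ}
    (h : IsTrz C ζ m τ) : IsTrz C ζ (m - al c) (Fg C c m g τ) where
  tr x y := by
    have hc := C.e_cen (m - al c)
    have hi := C.e_idem (m - al c)
    have e1 : ∀ x y : A, x * y * C.e (m - al c) =
        (x * C.e (m - al c)) * (y * C.e (m - al c)) := by
      intro x y
      rw [mul_assoc x (C.e _), ← mul_assoc (C.e _) y, hc y, mul_assoc y, hi, mul_assoc]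
    rw [Fg_apply, Fg_apply, e1, e1, map_mul C.δ (x * C.e (m - al c)),
      map_mul C.δ (y * C.e (m - al c))]
    exact tr_swap h.tr (pevX_comm C g _)
  eq x := by
    rw [Fg_apply, Fg_apply, ← h.eq]
    congr 1
    have e0 : C.φ x * C.e (m - al c) = C.φ (x * C.e (m - al c)) := by
      rw [map_mul, C.φe]
    rw [e0, Matrix.trace, Matrix.trace, map_sum]
    refine Finset.sum_congr rfl fun i _ => ?_
    rw [Matrix.diag_apply, Matrix.diag_apply, Matrix.mul_apply, Matrix.mul_apply, map_sum]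
    refine Finset.sum_congr rfl fun j _ => ?_
    have h1 : (C.θ i : ℂ) ≠ 0 := (C.θ i).ne_zero
    have h2 : (C.θ j : ℂ) ≠ 0 := (C.θ j).ne_zero
    have e3 : ((C.θ j : ℂ) * (C.θ i : ℂ)⁻¹) * ((C.θ i : ℂ)⁻¹ * (C.θ j : ℂ))⁻¹ = 1 := by
      field_simp
    have e2 : pev g C.X i j = ((C.θ i : ℂ)⁻¹ * (C.θ j : ℂ))⁻¹ • C.φ (pev g C.X i j) := by
      rw [φ_pevX, smul_smul, inv_mul_cancel₀ (mul_ne_zero (inv_ne_zero h1) h2), one_smul]
    rw [C.φδ, mul_smul_comm, map_mul C.φ (pev g C.X i j)]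
    conv_lhs => rw [e2]
    rw [smul_mul_assoc, smul_smul, e3, one_smul]
  blk x := by
    rw [Fg_apply, Fg_apply, mul_assoc, C.e_idem]

/-- `E_c[g] τ` is a trace of the block `m + α_c`. -/
theorem Eg_trz (hDPV : S_DPV) (hDP2 : S_DP2) {ζ : ℂ} {c : ZMod l} {m : ZMod l → ℤ}
    {g : Polynomial ℂ} {τ : A →ₗ[ℂ] ℂ}
    (h : IsTrz C ζ m τ) : IsTrz C ζ (m + al c) (Eg C c m g τ) where
  tr x y := by
    have hcomm : ∀ a, vv C.ε (pev g C.X) * C.ε a = C.ε a * vv C.ε (pev g C.X) :=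
      (hDPV A ι C.δ C.ε (hDP2 A ι C.toCore0).1).1 _ (pevX_comm C g)
    have hc := C.e_cen (m + al c)
    have hi := C.e_idem (m + al c)
    have e1 : ∀ x y : A, x * y * C.e (m + al c) =
        (x * C.e (m + al c)) * (y * C.e (m + al c)) := by
      intro x y
      rw [mul_assoc x (C.e _), ← mul_assoc (C.e _) y, hc y, mul_assoc y, hi, mul_assoc]
    rw [Eg_vv, Eg_vv, e1, e1, map_mul C.ε (x * C.e (m + al c)),
      map_mul C.ε (y * C.e (m + al c))]
    exact tr_swap h.tr (hcomm _)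
  eq x := by
    rw [Eg_apply, Eg_apply, Finset.mul_sum]
    refine Finset.sum_congr rfl fun p _ => ?_
    rw [Finset.mul_sum]
    refine Finset.sum_congr rfl fun r _ => ?_
    rw [← h.eq]
    congr 1
    have e0 : pev g C.X p r * (C.φ x * C.e (m + al c)) =
        ((C.θ p : ℂ) * (C.θ r : ℂ)⁻¹) • C.φ (pev g C.X p r * (x * C.e (m + al c))) := by
      rw [map_mul, map_mul, C.φe, φ_pevX, smul_mul_assoc, smul_smul]
      have h1 : (C.θ p : ℂ) ≠ 0 := (C.θ p).ne_zero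
      have h2 : (C.θ r : ℂ) ≠ 0 := (C.θ r).ne_zero
      have : (C.θ p : ℂ) * (C.θ r : ℂ)⁻¹ * ((C.θ p : ℂ)⁻¹ * (C.θ r : ℂ)) = 1 := by field_simp
      rw [this, one_smul]
    rw [e0, map_smul, Matrix.smul_apply, C.φε, smul_smul]
    have h1 : (C.θ p : ℂ) ≠ 0 := (C.θ p).ne_zero
    have h2 : (C.θ r : ℂ) ≠ 0 := (C.θ r).ne_zero
    have : (C.θ p : ℂ) * (C.θ r : ℂ)⁻¹ * ((C.θ p : ℂ)⁻¹ * (C.θ r : ℂ)) = 1 := by field_simp
    rw [this, one_smul]
  blk x := by
    rw [Eg_apply, Eg_apply]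
    simp only [mul_assoc, C.e_idem]

/-- the words in the operators `Eg`, `Fg`. -/
inductive Reach : (ZMod l → ℤ) → (A →ₗ[ℂ] ℂ) → (ZMod l → ℤ) → (A →ₗ[ℂ] ℂ) → Prop
  | refl (m : ZMod l → ℤ) (τ : A →ₗ[ℂ] ℂ) : Reach m τ m τ
  | stE (m : ZMod l → ℤ) (τ : A →ₗ[ℂ] ℂ) (m' : ZMod l → ℤ) (τ' : A →ₗ[ℂ] ℂ) (c : ZMod l)
      (g : Polynomial ℂ) : Reach (m + al c) (Eg C c m g τ) m' τ' → Reach m τ m' τ'
  | stF (m : ZMod l → ℤ) (τ : A →ₗ[ℂ] ℂ) (m' : ZMod l → ℤ) (τ' : A →ₗ[ℂ] ℂ) (c : ZMod l)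
      (g : Polynomial ℂ) : Reach (m - al c) (Fg C c m g τ) m' τ' → Reach m τ m' τ'

/-- a family of traces stable under the `Eg`, `Fg`. -/
structure OpFam (ζ : ℂ) (P : (ZMod l → ℤ) → (A →ₗ[ℂ] ℂ) → Prop) : Prop where
  trz : ∀ m τ, P m τ → IsTrz C ζ m τ
  stE : ∀ c m g τ, P m τ → P (m + al c) (Eg C c m g τ)
  stF : ∀ c m g τ, P m τ → P (m - al c) (Fg C c m g τ)

theorem sum_sq_add_al [NeZero l] (hl : 2 ≤ l) (c : ZMod l) (m : ZMod l → ℤ) :
    ∑ x, (m + al c) x ^ 2 = ∑ x, m x ^ 2 + 2 * (m c - m (c + 1)) + 2 := by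
  have hne : c ≠ c + 1 := by
    intro h
    have h1 : (1 : ZMod l) = 0 := by
      have := congrArg (fun z => z - c) h
      simpa using this.symm
    have : Fact (1 < l) := ⟨by omega⟩
    exact one_ne_zero h1
  have e1 : ∀ x, (m + al c) x ^ 2 = m x ^ 2 + (2 * (m x * al c x) + al c x ^ 2) := by
    intro x
    rw [Pi.add_apply]; ring
  have e2 : ∑ x, m x * al c x = m c - m (c + 1) := by
    simp only [al, mul_sub, mul_ite, mul_one, mul_zero, Finset.sum_sub_distrib,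
      Finset.sum_ite_eq', Finset.mem_univ, if_true]
  have e3 : ∑ x, al c x ^ 2 = 2 := by
    have e4 : ∀ x, al c x ^ 2 = (if x = c then 1 else 0) + (if x = c + 1 then 1 else 0) := by
      intro x
      unfold al
      by_cases h1 : x = c
      · rw [if_pos h1, if_neg (by rw [h1]; exact hne)]; norm_num
      · rw [if_neg h1]
        by_cases h2 : x = c + 1
        · rw [if_pos h2]; norm_num
        · rw [if_neg h2]; norm_num
    rw [Finset.sum_congr rfl fun x _ => e4 x, Finset.sum_add_distrib]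
    simp
  rw [Finset.sum_congr rfl fun x _ => e1 x, Finset.sum_add_distrib, Finset.sum_add_distrib,
    ← Finset.mul_sum, e2, e3]
  ring

theorem sum_sq_sub_al [NeZero l] (hl : 2 ≤ l) (c : ZMod l) (m : ZMod l → ℤ) :
    ∑ x, (m - al c) x ^ 2 = ∑ x, m x ^ 2 + 2 * (m (c + 1) - m c) + 2 := by
  have h := sum_sq_add_al hl c (m - al c)
  rw [sub_add_cancel] at h
  have hne : c ≠ c + 1 := by
    intro h
    have h1 : (1 : ZMod l) = 0 := by
      have := congrArg (fun z => z - c) h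
      simpa using this.symm
    have : Fact (1 < l) := ⟨by omega⟩
    exact one_ne_zero h1
  have e1 : (m - al c) c = m c - 1 := by
    rw [Pi.sub_apply, al, if_pos rfl, if_neg hne]; ring
  have e2 : (m - al c) (c + 1) = m (c + 1) + 1 := by
    rw [Pi.sub_apply, al, if_neg (Ne.symm hne), if_pos rfl]; ring
  rw [e1, e2] at h
  linarith

/-- a family stable under the operators has the kill properties. -/
theorem fam_of_op [NeZero l] (hl : 2 ≤ l) (hVANE : S_VANE) (hVANF : S_VANF)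
    (PC : CoreP C.toCore0) {ζ : ℂ} {P : (ZMod l → ℤ) → (A →ₗ[ℂ] ℂ) → Prop}
    (hP : OpFam C ζ P) : Fam C ζ P where
  trz := hP.trz
  stF c m τ h := by
    rw [← Fg_one]
    exact hP.stF c m 1 τ h
  killE c m τ h hz hm := by
    refine hVANE A ι l hl C PC ζ c m τ (hP.trz m τ h) ?_
    intro k x
    have h1 : Eg C c m (Polynomial.X ^ k) τ = 0 := by
      refine hz (m + al c) ?_ _ (hP.stE c m _ τ h)
      rw [sum_sq_add_al hl]
      linarith
    have h2 := LinearMap.congr_fun h1 x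
    rw [Eg_apply] at h2
    have h3 : pev (Polynomial.X ^ k) C.X = C.X ^ k := by
      rw [pev, map_pow, Polynomial.aeval_X]
    rw [h3] at h2
    exact h2
  killF c m τ h hz hm := by
    refine hVANF A ι l hl C PC ζ c m τ (hP.trz m τ h) ?_
    intro k x
    have h1 : Fg C c m (Polynomial.X ^ k) τ = 0 := by
      refine hz (m - al c) ?_ _ (hP.stF c m _ τ h)
      rw [sum_sq_sub_al hl]
      linarith
    have h2 := LinearMap.congr_fun h1 x
    rw [Fg_apply] at h2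
    have h3 : pev (Polynomial.X ^ k) C.X = C.X ^ k := by
      rw [pev, map_pow, Polynomial.aeval_X]
    rw [h3] at h2
    exact h2

end ops

/-- **nondegeneracy, for families**. -/
theorem t_nondegP (hVANE : S_VANE) (hVANF : S_VANF)
    (N l : ℕ) [NeZero l] (q : ℂ) (hl : l ≠ 0) (s : ℕ → ℂˣ) (D : Dl N l q)
    (C : Core (A N l q) (Fin (N + 1)) l) (hS : Sett N l q hl s D C) (PC : CoreP C.toCore0)
    (hl2 : 2 ≤ l) (ζ : ℂ) (P : (ZMod l → ℤ) → (A N l q →ₗ[ℂ] ℂ) → Prop)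
    (hP : OpFam C ζ P)
    (h0 : ∀ (c : ZMod l) (τ : A N l q →ₗ[ℂ] ℂ),
      P (fun x => if x = c then ((N : ℤ) + 1) else 0) τ → τ = 0) :
    ∀ m τ, P m τ → τ = 0 :=
  t_famZero m_trf m_sl2 Helper28.SQ.t_idl m_it m_ch m_gsup m_g1 m_g2 Helper36.SQ.t_g0
    N l q hl s D C hS ζ P (fam_of_op C hl2 hVANE hVANF PC hP) h0

/-- **nondegeneracy**: if every word in the `Eg`, `Fg` ending in some `n δ_c` kills `τ`, then
`τ = 0`. -/
theorem t_nondeg (hVANE : S_VANE) (hVANF : S_VANF) (hDPV : S_DPV) (hDP2 : S_DP2)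
    (N l : ℕ) [NeZero l] (q : ℂ) (hl : l ≠ 0) (s : ℕ → ℂˣ) (D : Dl N l q)
    (C : Core (A N l q) (Fin (N + 1)) l) (hS : Sett N l q hl s D C) (PC : CoreP C.toCore0)
    (hl2 : 2 ≤ l) (ζ : ℂ) (m : ZMod l → ℤ) (τ : A N l q →ₗ[ℂ] ℂ) (hτ : IsTrz C ζ m τ)
    (h0 : ∀ (c : ZMod l) (τ' : A N l q →ₗ[ℂ] ℂ),
      Reach C m τ (fun x => if x = c then ((N : ℤ) + 1) else 0) τ' → τ' = 0) : τ = 0 := by
  refine t_nondegP hVANE hVANF N l q hl s D C hS PC hl2 ζ
    (fun m τ => IsTrz C ζ m τ ∧ ∀ (c : ZMod l) (τ' : A N l q →ₗ[ℂ] ℂ),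
      Reach C m τ (fun x => if x = c then ((N : ℤ) + 1) else 0) τ' → τ' = 0) ?_ ?_ m τ ⟨hτ, h0⟩
  · refine ⟨fun m τ h => h.1, fun c m g τ h => ?_, fun c m g τ h => ?_⟩
    · exact ⟨Eg_trz C hDPV hDP2 h.1, fun c' τ' hr => h.2 c' τ' (Reach.stE m τ _ τ' c g hr)⟩
    · exact ⟨Fg_trz C h.1, fun c' τ' hr => h.2 c' τ' (Reach.stF m τ _ τ' c g hr)⟩
  · intro c τ h
    exact h.2 c τ (Reach.refl _ _)

end

end Pool.Agent.Helper34.SQ
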