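import Pool.Agent.Helper34.SQ.GoalsT0

/-!
# MP_bb32d1_al: `STF`

`stf_core`: a functional vanishing on the `X2^i u a` does not distinguish `p(X2)` from
`p(S X1 T)`.  `t_stf : S_CORE1 → S_STF`.
-/

set_option autoImplicit false
set_option linter.unusedSectionVars false

namespace Pool.Agent.Helper34.SQ

noncomputable section

open Matrix Pool.Agent.Helper19.SQ

variable {A : Type} [Ring A] [Algebra ℂ A] {κ : Type} [Fintype κ] [DecidableEq κ]

/-- `Y^{k} - Z^{k}` for `Y = Z + u v`. -/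
theorem pow_sub_vec (Y Z : Matrix κ κ A) (u v : κ → A) (h : Y = Z + Matrix.vecMulVec u v)
    (k : ℕ) : Y ^ k - Z ^ k =
      ∑ i ∈ Finset.range k, Y ^ i * Matrix.vecMulVec u v * Z ^ (k - 1 - i) := by
  induction k with
  | zero => simp
  | succ k ih =>
    have e1 : Y ^ (k + 1) - Z ^ (k + 1) =
        (Y ^ k - Z ^ k) * Z + Y ^ k * Matrix.vecMulVec u v := by
      have e0 : Matrix.vecMulVec u v = Y - Z := by rw [h]; abel
      rw [e0, pow_succ, pow_succ]
      noncomm_ring
    rw [e1, ih, Finset.sum_range_succ, Finset.sum_mul]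
    congr 1
    · refine Finset.sum_congr rfl fun i hi => ?_
      have hi' := Finset.mem_range.1 hi
      rw [mul_assoc, ← pow_succ]
      congr 2
      omega
    · simp

/-- a functional which vanishes on the `Y^i u a` does not distinguish `Y` and `Z`. -/
theorem act_pev_vec (σ : κ → (A →ₗ[ℂ] ℂ)) (Y Z : Matrix κ κ A) (u v : κ → A)
    (h : Y = Z + Matrix.vecMulVec u v)
    (h0 : ∀ (i : ℕ) (a : A), ∑ x, σ x ((Y ^ i *ᵥ u) x * a) = 0) (p : Polynomial ℂ) :
    act σ (pev p Y) = act σ (pev p Z) := by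
  have hpow : ∀ k : ℕ, act σ (Y ^ k) = act σ (Z ^ k) := by
    intro k
    have e1 : Y ^ k = Z ^ k +
        ∑ i ∈ Finset.range k, Y ^ i * Matrix.vecMulVec u v * Z ^ (k - 1 - i) := by
      rw [← pow_sub_vec Y Z u v h]; abel
    have e2 : ∀ i ∈ Finset.range k,
        act σ (Y ^ i * Matrix.vecMulVec u v * Z ^ (k - 1 - i)) = 0 := by
      intro i _
      rw [← act_act]
      have e3 : act σ (Y ^ i * Matrix.vecMulVec u v) = 0 := by
        funext y
        ext b
        rw [act_apply]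
        have e4 : ∀ x, (Y ^ i * Matrix.vecMulVec u v) x y * b =
            (Y ^ i *ᵥ u) x * (v y * b) := by
          intro x
          rw [Matrix.mul_vecMulVec, Matrix.vecMulVec_apply, mul_assoc]
        simp only [e4]
        rw [h0 i (v y * b)]
        rfl
      rw [e3]
      funext y
      ext b
      rw [act_apply]
      simp
    rw [e1, act_add, act_sum, Finset.sum_congr rfl e2, Finset.sum_const_zero, add_zero]
  induction p using Polynomial.induction_on' with
  | add p q hp hq =>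
    have e1 : ∀ W : Matrix κ κ A, pev (p + q) W = pev p W + pev q W := fun W => map_add _ _ _
    rw [e1, e1, act_add, act_add, hp, hq]
  | monomial n c =>
    have e1 : ∀ W : Matrix κ κ A, pev (Polynomial.monomial n c) W = c • W ^ n := by
      intro W
      rw [pev, Polynomial.aeval_monomial, Algebra.smul_def]
    rw [e1, e1, act_smul, act_smul, hpow]

section

variable {ι : Type} [Fintype ι] [DecidableEq ι]

/-- the case of `Core0`. -/
theorem stf_core (C : Core0 A ι) (σ : ι × ι → (A →ₗ[ℂ] ℂ))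
    (h0 : ∀ (i : ℕ) (a : A), ∑ x, σ x ((X2 C.ε C.X ^ i *ᵥ C.u) x * a) = 0)
    (p : Polynomial ℂ) :
    act σ (pev p (X2 C.ε C.X)) = act σ (pev p (sc A C.S * X1 C.X * sc A C.T)) :=
  act_pev_vec σ _ _ C.u C.v C.X2eq h0 p

end

theorem t_stf (h1 : S_CORE1) : S_STF := by
  intro A _ _ ι _ _ l C ζ m hTr σ ht1 ht2 ht3 p
  obtain ⟨_, hX2, _, _, _, hφ⟩ := h1 A ι l C
  refine stf_core C.toCore0 σ ?_ p
  intro i a
  set w : ι × ι → A := X2 C.ε C.X ^ i *ᵥ C.u with hw
  -- the functional
  set τ : A →ₗ[ℂ] ℂ := ∑ x, σ x ∘ₗ LinearMap.mulLeft ℂ (w x) with hτ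
  have hτa : ∀ a, τ a = ∑ x, σ x (w x * a) := by
    intro a
    rw [hτ, LinearMap.sum_apply]
    rfl
  have hwD : ∀ b x, w x * b = (D2 C.δ C.ε b *ᵥ w) x := by
    intro b x
    have e1 : X2 C.ε C.X ^ i * D2 C.δ C.ε b = D2 C.δ C.ε b * X2 C.ε C.X ^ i := by
      have : Commute (X2 C.ε C.X) (D2 C.δ C.ε b) := hX2 b
      exact (this.pow_left i).eq
    rw [hw, Matrix.mulVec_mulVec, ← e1, ← Matrix.mulVec_mulVec, C.uD b]
    simp only [Matrix.mulVec, dotProduct, Finset.sum_mul, mul_assoc]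
  have hz : τ = 0 := by
    refine hTr τ ⟨?_, ?_, ?_⟩
    · intro b a
      rw [hτa, hτa]
      have e1 : ∀ x, σ x (w x * (b * a)) =
          ∑ y, σ x (D2 C.δ C.ε b x y * (w y * a)) := by
        intro x
        rw [← mul_assoc, hwD b x, Matrix.mulVec, dotProduct, Finset.sum_mul, map_sum]
        exact Finset.sum_congr rfl fun y _ => by rw [mul_assoc]
      rw [Finset.sum_congr rfl fun x _ => e1 x, Finset.sum_comm]
      refine Finset.sum_congr rfl fun y _ => ?_
      have := ht1 b (w y * a) y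
      rw [act_apply] at this
      rw [this, mul_assoc]
    · intro a
      rw [hτa, hτa, Finset.mul_sum]
      refine Finset.sum_congr rfl fun x _ => ?_
      have hθ1 : (C.θ x.1 : ℂ) ≠ 0 := (C.θ x.1).ne_zero
      have hθ2 : (C.θ x.2 : ℂ) ≠ 0 := (C.θ x.2).ne_zero
      have e1 : w x * C.φ a =
          ((C.θ x.1 : ℂ) * (C.θ x.2 : ℂ)⁻¹) • C.φ (w x * a) := by
        rw [map_mul, hφ i x, smul_mul_assoc, smul_smul]
        have : (C.θ x.1 : ℂ) * (C.θ x.2 : ℂ)⁻¹ * ((C.θ x.1 : ℂ)⁻¹ * (C.θ x.2 : ℂ)) = 1 := by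
          field_simp
        rw [this, one_smul]
      rw [e1, map_smul, smul_eq_mul, ht2]
    · intro a
      rw [hτa, hτa]
      refine Finset.sum_congr rfl fun x _ => ?_
      rw [← mul_assoc, ht3]
  rw [← hτa, hz]
  rfl

end

end Pool.Agent.Helper34.SQ
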